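import Pool.Agent.Lib.MP_0baeaf_nt.Table

/-! The Boolean test of the potential inequality. -/

namespace Pool.Agent.Lib.MP_0baeaf_nt

noncomputable def cnd (c a b : Bool) : Bool := @Bool.rec (fun _ => Bool) b a c

noncomputable def ok0 (B y c : Nat) : Bool :=
  cnd (Nat.beq (Nat.mod y (nat_lit 5)) (nat_lit 0)) false (Nat.ble (Nat.add c (psi y)) B)

noncomputable def ok1 (B x c : Nat) : Bool :=
  ok0 B (Nat.mod (Nat.div x (nat_lit 5)) (nat_lit 390625)) c

noncomputable def ok4 (B x c : Nat) : Bool :=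
  cnd (ok1 B x c) true (cnd (ok1 B (Nat.mul (nat_lit 16) x) (Nat.add c (nat_lit 60))) true
    (cnd (ok1 B (Nat.mul (nat_lit 256) x) (Nat.add c (nat_lit 120))) true
      (ok1 B (Nat.mul (nat_lit 4096) x) (Nat.add c (nat_lit 180)))))

noncomputable def ok5 (b m c : Nat) : Bool :=
  cnd (ok4 (Nat.add (psi b) (nat_lit 56)) (Nat.mul m b) c)
    (cnd (ok4 (Nat.add (psi b) (nat_lit 56)) (Nat.mul m (Nat.add b (nat_lit 390625))) c)
      (cnd (ok4 (Nat.add (psi b) (nat_lit 56)) (Nat.mul m (Nat.add b (nat_lit 781250))) c)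
        (cnd (ok4 (Nat.add (psi b) (nat_lit 56)) (Nat.mul m (Nat.add b (nat_lit 1171875))) c)
          (ok4 (Nat.add (psi b) (nat_lit 56)) (Nat.mul m (Nat.add b (nat_lit 1562500))) c)
          false) false) false) false

noncomputable def okQ (q : Nat) : Bool :=
  cnd (ok5 (Nat.add (Nat.mul (nat_lit 5) q) (nat_lit 1)) (nat_lit 16) (nat_lit 60))
    (cnd (ok5 (Nat.add (Nat.mul (nat_lit 5) q) (nat_lit 2)) (nat_lit 8) (nat_lit 45))
      (cnd (ok5 (Nat.add (Nat.mul (nat_lit 5) q) (nat_lit 3)) (nat_lit 2) (nat_lit 15))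
        (ok5 (Nat.add (Nat.mul (nat_lit 5) q) (nat_lit 4)) (nat_lit 4) (nat_lit 30))
        false) false) false

/-- `allQ d s` tests `okQ` on `[5^d * s, 5^d * (s+1))`. -/
noncomputable def allQ (d : Nat) : Nat → Bool :=
  Nat.rec okQ (fun _ r s => cnd (r (Nat.mul (nat_lit 5) s))
    (cnd (r (Nat.add (Nat.mul (nat_lit 5) s) (nat_lit 1)))
      (cnd (r (Nat.add (Nat.mul (nat_lit 5) s) (nat_lit 2)))
        (cnd (r (Nat.add (Nat.mul (nat_lit 5) s) (nat_lit 3)))
          (r (Nat.add (Nat.mul (nat_lit 5) s) (nat_lit 4))) false) false) false) false) d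

end Pool.Agent.Lib.MP_0baeaf_nt
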