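import Mathlib.Tactic.IntervalCases
import Pool.Agent.Lib.MP_0baeaf_nt.Check

/-! Kernel evaluation of the test, block 0. -/

namespace Pool.Agent.Lib.MP_0baeaf_nt

theorem c0 : allQ 3 0 = true := by decide +kernel
theorem c1 : allQ 3 1 = true := by decide +kernel
theorem c2 : allQ 3 2 = true := by decide +kernel
theorem c3 : allQ 3 3 = true := by decide +kernel
theorem c4 : allQ 3 4 = true := by decide +kernel
theorem c5 : allQ 3 5 = true := by decide +kernel
theorem c6 : allQ 3 6 = true := by decide +kernel
theorem c7 : allQ 3 7 = true := by decide +kernel
theorem c8 : allQ 3 8 = true := by decide +kernel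
theorem c9 : allQ 3 9 = true := by decide +kernel
theorem c10 : allQ 3 10 = true := by decide +kernel
theorem c11 : allQ 3 11 = true := by decide +kernel
theorem c12 : allQ 3 12 = true := by decide +kernel
theorem c13 : allQ 3 13 = true := by decide +kernel
theorem c14 : allQ 3 14 = true := by decide +kernel
theorem c15 : allQ 3 15 = true := by decide +kernel
theorem c16 : allQ 3 16 = true := by decide +kernel
theorem c17 : allQ 3 17 = true := by decide +kernel
theorem c18 : allQ 3 18 = true := by decide +kernel
theorem c19 : allQ 3 19 = true := by decide +kernel
theorem c20 : allQ 3 20 = true := by decide +kernel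
theorem c21 : allQ 3 21 = true := by decide +kernel
theorem c22 : allQ 3 22 = true := by decide +kernel
theorem c23 : allQ 3 23 = true := by decide +kernel
theorem c24 : allQ 3 24 = true := by decide +kernel
theorem c25 : allQ 3 25 = true := by decide +kernel
theorem c26 : allQ 3 26 = true := by decide +kernel
theorem c27 : allQ 3 27 = true := by decide +kernel
theorem c28 : allQ 3 28 = true := by decide +kernel
theorem c29 : allQ 3 29 = true := by decide +kernel
theorem c30 : allQ 3 30 = true := by decide +kernel
theorem c31 : allQ 3 31 = true := by decide +kernel
theorem c32 : allQ 3 32 = true := by decide +kernel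
theorem c33 : allQ 3 33 = true := by decide +kernel
theorem c34 : allQ 3 34 = true := by decide +kernel
theorem c35 : allQ 3 35 = true := by decide +kernel
theorem c36 : allQ 3 36 = true := by decide +kernel
theorem c37 : allQ 3 37 = true := by decide +kernel
theorem c38 : allQ 3 38 = true := by decide +kernel
theorem c39 : allQ 3 39 = true := by decide +kernel
theorem c40 : allQ 3 40 = true := by decide +kernel
theorem c41 : allQ 3 41 = true := by decide +kernel
theorem c42 : allQ 3 42 = true := by decide +kernel
theorem c43 : allQ 3 43 = true := by decide +kernel
theorem c44 : allQ 3 44 = true := by decide +kernel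
theorem c45 : allQ 3 45 = true := by decide +kernel
theorem c46 : allQ 3 46 = true := by decide +kernel
theorem c47 : allQ 3 47 = true := by decide +kernel
theorem c48 : allQ 3 48 = true := by decide +kernel
theorem c49 : allQ 3 49 = true := by decide +kernel
theorem c50 : allQ 3 50 = true := by decide +kernel
theorem c51 : allQ 3 51 = true := by decide +kernel
theorem c52 : allQ 3 52 = true := by decide +kernel
theorem c53 : allQ 3 53 = true := by decide +kernel
theorem c54 : allQ 3 54 = true := by decide +kernel
theorem c55 : allQ 3 55 = true := by decide +kernel
theorem c56 : allQ 3 56 = true := by decide +kernel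
theorem c57 : allQ 3 57 = true := by decide +kernel
theorem c58 : allQ 3 58 = true := by decide +kernel
theorem c59 : allQ 3 59 = true := by decide +kernel
theorem c60 : allQ 3 60 = true := by decide +kernel
theorem c61 : allQ 3 61 = true := by decide +kernel
theorem c62 : allQ 3 62 = true := by decide +kernel
theorem c63 : allQ 3 63 = true := by decide +kernel
theorem c64 : allQ 3 64 = true := by decide +kernel
theorem c65 : allQ 3 65 = true := by decide +kernel
theorem c66 : allQ 3 66 = true := by decide +kernel
theorem c67 : allQ 3 67 = true := by decide +kernel
theorem c68 : allQ 3 68 = true := by decide +kernel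
theorem c69 : allQ 3 69 = true := by decide +kernel
theorem c70 : allQ 3 70 = true := by decide +kernel
theorem c71 : allQ 3 71 = true := by decide +kernel
theorem c72 : allQ 3 72 = true := by decide +kernel
theorem c73 : allQ 3 73 = true := by decide +kernel
theorem c74 : allQ 3 74 = true := by decide +kernel
theorem c75 : allQ 3 75 = true := by decide +kernel
theorem c76 : allQ 3 76 = true := by decide +kernel
theorem c77 : allQ 3 77 = true := by decide +kernel
theorem c78 : allQ 3 78 = true := by decide +kernel
theorem c79 : allQ 3 79 = true := by decide +kernel
theorem c80 : allQ 3 80 = true := by decide +kernel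
theorem c81 : allQ 3 81 = true := by decide +kernel
theorem c82 : allQ 3 82 = true := by decide +kernel
theorem c83 : allQ 3 83 = true := by decide +kernel
theorem c84 : allQ 3 84 = true := by decide +kernel
theorem c85 : allQ 3 85 = true := by decide +kernel
theorem c86 : allQ 3 86 = true := by decide +kernel
theorem c87 : allQ 3 87 = true := by decide +kernel
theorem c88 : allQ 3 88 = true := by decide +kernel
theorem c89 : allQ 3 89 = true := by decide +kernel
theorem c90 : allQ 3 90 = true := by decide +kernel
theorem c91 : allQ 3 91 = true := by decide +kernel
theorem c92 : allQ 3 92 = true := by decide +kernel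
theorem c93 : allQ 3 93 = true := by decide +kernel
theorem c94 : allQ 3 94 = true := by decide +kernel
theorem c95 : allQ 3 95 = true := by decide +kernel
theorem c96 : allQ 3 96 = true := by decide +kernel
theorem c97 : allQ 3 97 = true := by decide +kernel
theorem c98 : allQ 3 98 = true := by decide +kernel
theorem c99 : allQ 3 99 = true := by decide +kernel
theorem c100 : allQ 3 100 = true := by decide +kernel
theorem c101 : allQ 3 101 = true := by decide +kernel
theorem c102 : allQ 3 102 = true := by decide +kernel
theorem c103 : allQ 3 103 = true := by decide +kernel
theorem c104 : allQ 3 104 = true := by decide +kernel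
theorem c105 : allQ 3 105 = true := by decide +kernel
theorem c106 : allQ 3 106 = true := by decide +kernel
theorem c107 : allQ 3 107 = true := by decide +kernel
theorem c108 : allQ 3 108 = true := by decide +kernel
theorem c109 : allQ 3 109 = true := by decide +kernel
theorem c110 : allQ 3 110 = true := by decide +kernel
theorem c111 : allQ 3 111 = true := by decide +kernel
theorem c112 : allQ 3 112 = true := by decide +kernel
theorem c113 : allQ 3 113 = true := by decide +kernel
theorem c114 : allQ 3 114 = true := by decide +kernel
theorem c115 : allQ 3 115 = true := by decide +kernel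
theorem c116 : allQ 3 116 = true := by decide +kernel
theorem c117 : allQ 3 117 = true := by decide +kernel
theorem c118 : allQ 3 118 = true := by decide +kernel
theorem c119 : allQ 3 119 = true := by decide +kernel
theorem c120 : allQ 3 120 = true := by decide +kernel
theorem c121 : allQ 3 121 = true := by decide +kernel
theorem c122 : allQ 3 122 = true := by decide +kernel
theorem c123 : allQ 3 123 = true := by decide +kernel
theorem c124 : allQ 3 124 = true := by decide +kernel

theorem block0 (s : Nat) (h1 : 0 ≤ s) (h2 : s < 125) : allQ 3 s = true := by
  interval_cases s
  exacts [c0, c1, c2, c3, c4, c5, c6, c7, c8, c9, c10, c11, c12, c13, c14, c15, c16, c17, c18, c19, c20, c21, c22, c23, c24, c25, c26, c27, c28, c29, c30, c31, c32, c33, c34, c35, c36, c37, c38, c39, c40, c41, c42, c43, c44, c45, c46, c47, c48, c49, c50, c51, c52, c53, c54, c55, c56, c57, c58, c59, c60, c61, c62, c63, c64, c65, c66, c67, c68, c69, c70, c71, c72, c73, c74, c75, c76, c77, c78, c79, c80, c81, c82, c83, c84, c85, c86, c87, c88, c89, c90, c91, c92, c93, c94, c95, c96, c97, c98, c99, c100, c101, c102, c103, c104, c105, c106, c107, c108, c109, c110, c111, c112, c113, c114, c115,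 c116, c117, c118, c119, c120, c121, c122, c123, c124]

end Pool.Agent.Lib.MP_0baeaf_nt
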