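import Mathlib.Tactic.IntervalCases
import Pool.Agent.Lib.MP_0baeaf_nt.Check

/-! Kernel evaluation of the test, block 1. -/

namespace Pool.Agent.Lib.MP_0baeaf_nt

theorem c125 : allQ 3 125 = true := by decide +kernel
theorem c126 : allQ 3 126 = true := by decide +kernel
theorem c127 : allQ 3 127 = true := by decide +kernel
theorem c128 : allQ 3 128 = true := by decide +kernel
theorem c129 : allQ 3 129 = true := by decide +kernel
theorem c130 : allQ 3 130 = true := by decide +kernel
theorem c131 : allQ 3 131 = true := by decide +kernel
theorem c132 : allQ 3 132 = true := by decide +kernel
theorem c133 : allQ 3 133 = true := by decide +kernel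
theorem c134 : allQ 3 134 = true := by decide +kernel
theorem c135 : allQ 3 135 = true := by decide +kernel
theorem c136 : allQ 3 136 = true := by decide +kernel
theorem c137 : allQ 3 137 = true := by decide +kernel
theorem c138 : allQ 3 138 = true := by decide +kernel
theorem c139 : allQ 3 139 = true := by decide +kernel
theorem c140 : allQ 3 140 = true := by decide +kernel
theorem c141 : allQ 3 141 = true := by decide +kernel
theorem c142 : allQ 3 142 = true := by decide +kernel
theorem c143 : allQ 3 143 = true := by decide +kernel
theorem c144 : allQ 3 144 = true := by decide +kernel
theorem c145 : allQ 3 145 = true := by decide +kernel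
theorem c146 : allQ 3 146 = true := by decide +kernel
theorem c147 : allQ 3 147 = true := by decide +kernel
theorem c148 : allQ 3 148 = true := by decide +kernel
theorem c149 : allQ 3 149 = true := by decide +kernel
theorem c150 : allQ 3 150 = true := by decide +kernel
theorem c151 : allQ 3 151 = true := by decide +kernel
theorem c152 : allQ 3 152 = true := by decide +kernel
theorem c153 : allQ 3 153 = true := by decide +kernel
theorem c154 : allQ 3 154 = true := by decide +kernel
theorem c155 : allQ 3 155 = true := by decide +kernel
theorem c156 : allQ 3 156 = true := by decide +kernel
theorem c157 : allQ 3 157 = true := by decide +kernel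
theorem c158 : allQ 3 158 = true := by decide +kernel
theorem c159 : allQ 3 159 = true := by decide +kernel
theorem c160 : allQ 3 160 = true := by decide +kernel
theorem c161 : allQ 3 161 = true := by decide +kernel
theorem c162 : allQ 3 162 = true := by decide +kernel
theorem c163 : allQ 3 163 = true := by decide +kernel
theorem c164 : allQ 3 164 = true := by decide +kernel
theorem c165 : allQ 3 165 = true := by decide +kernel
theorem c166 : allQ 3 166 = true := by decide +kernel
theorem c167 : allQ 3 167 = true := by decide +kernel
theorem c168 : allQ 3 168 = true := by decide +kernel
theorem c169 : allQ 3 169 = true := by decide +kernel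
theorem c170 : allQ 3 170 = true := by decide +kernel
theorem c171 : allQ 3 171 = true := by decide +kernel
theorem c172 : allQ 3 172 = true := by decide +kernel
theorem c173 : allQ 3 173 = true := by decide +kernel
theorem c174 : allQ 3 174 = true := by decide +kernel
theorem c175 : allQ 3 175 = true := by decide +kernel
theorem c176 : allQ 3 176 = true := by decide +kernel
theorem c177 : allQ 3 177 = true := by decide +kernel
theorem c178 : allQ 3 178 = true := by decide +kernel
theorem c179 : allQ 3 179 = true := by decide +kernel
theorem c180 : allQ 3 180 = true := by decide +kernel
theorem c181 : allQ 3 181 = true := by decide +kernel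
theorem c182 : allQ 3 182 = true := by decide +kernel
theorem c183 : allQ 3 183 = true := by decide +kernel
theorem c184 : allQ 3 184 = true := by decide +kernel
theorem c185 : allQ 3 185 = true := by decide +kernel
theorem c186 : allQ 3 186 = true := by decide +kernel
theorem c187 : allQ 3 187 = true := by decide +kernel
theorem c188 : allQ 3 188 = true := by decide +kernel
theorem c189 : allQ 3 189 = true := by decide +kernel
theorem c190 : allQ 3 190 = true := by decide +kernel
theorem c191 : allQ 3 191 = true := by decide +kernel
theorem c192 : allQ 3 192 = true := by decide +kernel
theorem c193 : allQ 3 193 = true := by decide +kernel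
theorem c194 : allQ 3 194 = true := by decide +kernel
theorem c195 : allQ 3 195 = true := by decide +kernel
theorem c196 : allQ 3 196 = true := by decide +kernel
theorem c197 : allQ 3 197 = true := by decide +kernel
theorem c198 : allQ 3 198 = true := by decide +kernel
theorem c199 : allQ 3 199 = true := by decide +kernel
theorem c200 : allQ 3 200 = true := by decide +kernel
theorem c201 : allQ 3 201 = true := by decide +kernel
theorem c202 : allQ 3 202 = true := by decide +kernel
theorem c203 : allQ 3 203 = true := by decide +kernel
theorem c204 : allQ 3 204 = true := by decide +kernel
theorem c205 : allQ 3 205 = true := by decide +kernel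
theorem c206 : allQ 3 206 = true := by decide +kernel
theorem c207 : allQ 3 207 = true := by decide +kernel
theorem c208 : allQ 3 208 = true := by decide +kernel
theorem c209 : allQ 3 209 = true := by decide +kernel
theorem c210 : allQ 3 210 = true := by decide +kernel
theorem c211 : allQ 3 211 = true := by decide +kernel
theorem c212 : allQ 3 212 = true := by decide +kernel
theorem c213 : allQ 3 213 = true := by decide +kernel
theorem c214 : allQ 3 214 = true := by decide +kernel
theorem c215 : allQ 3 215 = true := by decide +kernel
theorem c216 : allQ 3 216 = true := by decide +kernel
theorem c217 : allQ 3 217 = true := by decide +kernel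
theorem c218 : allQ 3 218 = true := by decide +kernel
theorem c219 : allQ 3 219 = true := by decide +kernel
theorem c220 : allQ 3 220 = true := by decide +kernel
theorem c221 : allQ 3 221 = true := by decide +kernel
theorem c222 : allQ 3 222 = true := by decide +kernel
theorem c223 : allQ 3 223 = true := by decide +kernel
theorem c224 : allQ 3 224 = true := by decide +kernel
theorem c225 : allQ 3 225 = true := by decide +kernel
theorem c226 : allQ 3 226 = true := by decide +kernel
theorem c227 : allQ 3 227 = true := by decide +kernel
theorem c228 : allQ 3 228 = true := by decide +kernel
theorem c229 : allQ 3 229 = true := by decide +kernel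
theorem c230 : allQ 3 230 = true := by decide +kernel
theorem c231 : allQ 3 231 = true := by decide +kernel
theorem c232 : allQ 3 232 = true := by decide +kernel
theorem c233 : allQ 3 233 = true := by decide +kernel
theorem c234 : allQ 3 234 = true := by decide +kernel
theorem c235 : allQ 3 235 = true := by decide +kernel
theorem c236 : allQ 3 236 = true := by decide +kernel
theorem c237 : allQ 3 237 = true := by decide +kernel
theorem c238 : allQ 3 238 = true := by decide +kernel
theorem c239 : allQ 3 239 = true := by decide +kernel
theorem c240 : allQ 3 240 = true := by decide +kernel
theorem c241 : allQ 3 241 = true := by decide +kernel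
theorem c242 : allQ 3 242 = true := by decide +kernel
theorem c243 : allQ 3 243 = true := by decide +kernel
theorem c244 : allQ 3 244 = true := by decide +kernel
theorem c245 : allQ 3 245 = true := by decide +kernel
theorem c246 : allQ 3 246 = true := by decide +kernel
theorem c247 : allQ 3 247 = true := by decide +kernel
theorem c248 : allQ 3 248 = true := by decide +kernel
theorem c249 : allQ 3 249 = true := by decide +kernel

theorem block1 (s : Nat) (h1 : 125 ≤ s) (h2 : s < 250) : allQ 3 s = true := by
  interval_cases s
  exacts [c125, c126, c127, c128, c129, c130, c131, c132, c133, c134, c135, c136, c137, c138, c139, c140, c141, c142, c143, c144, c145, c146, c147, c148, c149, c150, c151, c152, c153, c154, c155, c156, c157, c158, c159, c160, c161, c162, c163, c164, c165, c166, c167, c168, c169, c170, c171, c172, c173, c174, c175, c176, c177, c178, c179, c180, c181, c182, c183, c184, c185, c186, c187, c188, c189, c190, c191, c192, c193, c194, c195, c196, c197, c198, c199, c200, c201, c202, c203, c204, c205, c206, c207, c208, c209, c210, c211, c212, c213, c214, c215, c216, c217, c218, c219, c220, c221, c222, c223, c224, c225, c226, c227, c228, c229, c230, c231, c232, c233, c234, c235, c236, c237, c238, c239,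 c240, c241, c242, c243, c244, c245, c246, c247, c248, c249]

end Pool.Agent.Lib.MP_0baeaf_nt
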