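import Mathlib.Tactic.IntervalCases
import Pool.Agent.Lib.MP_0baeaf_nt.Check

/-! Kernel evaluation of the test, block 2. -/

namespace Pool.Agent.Lib.MP_0baeaf_nt

theorem c250 : allQ 3 250 = true := by decide +kernel
theorem c251 : allQ 3 251 = true := by decide +kernel
theorem c252 : allQ 3 252 = true := by decide +kernel
theorem c253 : allQ 3 253 = true := by decide +kernel
theorem c254 : allQ 3 254 = true := by decide +kernel
theorem c255 : allQ 3 255 = true := by decide +kernel
theorem c256 : allQ 3 256 = true := by decide +kernel
theorem c257 : allQ 3 257 = true := by decide +kernel
theorem c258 : allQ 3 258 = true := by decide +kernel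
theorem c259 : allQ 3 259 = true := by decide +kernel
theorem c260 : allQ 3 260 = true := by decide +kernel
theorem c261 : allQ 3 261 = true := by decide +kernel
theorem c262 : allQ 3 262 = true := by decide +kernel
theorem c263 : allQ 3 263 = true := by decide +kernel
theorem c264 : allQ 3 264 = true := by decide +kernel
theorem c265 : allQ 3 265 = true := by decide +kernel
theorem c266 : allQ 3 266 = true := by decide +kernel
theorem c267 : allQ 3 267 = true := by decide +kernel
theorem c268 : allQ 3 268 = true := by decide +kernel
theorem c269 : allQ 3 269 = true := by decide +kernel
theorem c270 : allQ 3 270 = true := by decide +kernel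
theorem c271 : allQ 3 271 = true := by decide +kernel
theorem c272 : allQ 3 272 = true := by decide +kernel
theorem c273 : allQ 3 273 = true := by decide +kernel
theorem c274 : allQ 3 274 = true := by decide +kernel
theorem c275 : allQ 3 275 = true := by decide +kernel
theorem c276 : allQ 3 276 = true := by decide +kernel
theorem c277 : allQ 3 277 = true := by decide +kernel
theorem c278 : allQ 3 278 = true := by decide +kernel
theorem c279 : allQ 3 279 = true := by decide +kernel
theorem c280 : allQ 3 280 = true := by decide +kernel
theorem c281 : allQ 3 281 = true := by decide +kernel
theorem c282 : allQ 3 282 = true := by decide +kernel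
theorem c283 : allQ 3 283 = true := by decide +kernel
theorem c284 : allQ 3 284 = true := by decide +kernel
theorem c285 : allQ 3 285 = true := by decide +kernel
theorem c286 : allQ 3 286 = true := by decide +kernel
theorem c287 : allQ 3 287 = true := by decide +kernel
theorem c288 : allQ 3 288 = true := by decide +kernel
theorem c289 : allQ 3 289 = true := by decide +kernel
theorem c290 : allQ 3 290 = true := by decide +kernel
theorem c291 : allQ 3 291 = true := by decide +kernel
theorem c292 : allQ 3 292 = true := by decide +kernel
theorem c293 : allQ 3 293 = true := by decide +kernel
theorem c294 : allQ 3 294 = true := by decide +kernel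
theorem c295 : allQ 3 295 = true := by decide +kernel
theorem c296 : allQ 3 296 = true := by decide +kernel
theorem c297 : allQ 3 297 = true := by decide +kernel
theorem c298 : allQ 3 298 = true := by decide +kernel
theorem c299 : allQ 3 299 = true := by decide +kernel
theorem c300 : allQ 3 300 = true := by decide +kernel
theorem c301 : allQ 3 301 = true := by decide +kernel
theorem c302 : allQ 3 302 = true := by decide +kernel
theorem c303 : allQ 3 303 = true := by decide +kernel
theorem c304 : allQ 3 304 = true := by decide +kernel
theorem c305 : allQ 3 305 = true := by decide +kernel
theorem c306 : allQ 3 306 = true := by decide +kernel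
theorem c307 : allQ 3 307 = true := by decide +kernel
theorem c308 : allQ 3 308 = true := by decide +kernel
theorem c309 : allQ 3 309 = true := by decide +kernel
theorem c310 : allQ 3 310 = true := by decide +kernel
theorem c311 : allQ 3 311 = true := by decide +kernel
theorem c312 : allQ 3 312 = true := by decide +kernel
theorem c313 : allQ 3 313 = true := by decide +kernel
theorem c314 : allQ 3 314 = true := by decide +kernel
theorem c315 : allQ 3 315 = true := by decide +kernel
theorem c316 : allQ 3 316 = true := by decide +kernel
theorem c317 : allQ 3 317 = true := by decide +kernel
theorem c318 : allQ 3 318 = true := by decide +kernel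
theorem c319 : allQ 3 319 = true := by decide +kernel
theorem c320 : allQ 3 320 = true := by decide +kernel
theorem c321 : allQ 3 321 = true := by decide +kernel
theorem c322 : allQ 3 322 = true := by decide +kernel
theorem c323 : allQ 3 323 = true := by decide +kernel
theorem c324 : allQ 3 324 = true := by decide +kernel
theorem c325 : allQ 3 325 = true := by decide +kernel
theorem c326 : allQ 3 326 = true := by decide +kernel
theorem c327 : allQ 3 327 = true := by decide +kernel
theorem c328 : allQ 3 328 = true := by decide +kernel
theorem c329 : allQ 3 329 = true := by decide +kernel
theorem c330 : allQ 3 330 = true := by decide +kernel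
theorem c331 : allQ 3 331 = true := by decide +kernel
theorem c332 : allQ 3 332 = true := by decide +kernel
theorem c333 : allQ 3 333 = true := by decide +kernel
theorem c334 : allQ 3 334 = true := by decide +kernel
theorem c335 : allQ 3 335 = true := by decide +kernel
theorem c336 : allQ 3 336 = true := by decide +kernel
theorem c337 : allQ 3 337 = true := by decide +kernel
theorem c338 : allQ 3 338 = true := by decide +kernel
theorem c339 : allQ 3 339 = true := by decide +kernel
theorem c340 : allQ 3 340 = true := by decide +kernel
theorem c341 : allQ 3 341 = true := by decide +kernel
theorem c342 : allQ 3 342 = true := by decide +kernel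
theorem c343 : allQ 3 343 = true := by decide +kernel
theorem c344 : allQ 3 344 = true := by decide +kernel
theorem c345 : allQ 3 345 = true := by decide +kernel
theorem c346 : allQ 3 346 = true := by decide +kernel
theorem c347 : allQ 3 347 = true := by decide +kernel
theorem c348 : allQ 3 348 = true := by decide +kernel
theorem c349 : allQ 3 349 = true := by decide +kernel
theorem c350 : allQ 3 350 = true := by decide +kernel
theorem c351 : allQ 3 351 = true := by decide +kernel
theorem c352 : allQ 3 352 = true := by decide +kernel
theorem c353 : allQ 3 353 = true := by decide +kernel
theorem c354 : allQ 3 354 = true := by decide +kernel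
theorem c355 : allQ 3 355 = true := by decide +kernel
theorem c356 : allQ 3 356 = true := by decide +kernel
theorem c357 : allQ 3 357 = true := by decide +kernel
theorem c358 : allQ 3 358 = true := by decide +kernel
theorem c359 : allQ 3 359 = true := by decide +kernel
theorem c360 : allQ 3 360 = true := by decide +kernel
theorem c361 : allQ 3 361 = true := by decide +kernel
theorem c362 : allQ 3 362 = true := by decide +kernel
theorem c363 : allQ 3 363 = true := by decide +kernel
theorem c364 : allQ 3 364 = true := by decide +kernel
theorem c365 : allQ 3 365 = true := by decide +kernel
theorem c366 : allQ 3 366 = true := by decide +kernel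
theorem c367 : allQ 3 367 = true := by decide +kernel
theorem c368 : allQ 3 368 = true := by decide +kernel
theorem c369 : allQ 3 369 = true := by decide +kernel
theorem c370 : allQ 3 370 = true := by decide +kernel
theorem c371 : allQ 3 371 = true := by decide +kernel
theorem c372 : allQ 3 372 = true := by decide +kernel
theorem c373 : allQ 3 373 = true := by decide +kernel
theorem c374 : allQ 3 374 = true := by decide +kernel

theorem block2 (s : Nat) (h1 : 250 ≤ s) (h2 : s < 375) : allQ 3 s = true := by
  interval_cases s
  exacts [c250, c251, c252, c253, c254, c255, c256, c257, c258, c259, c260, c261, c262, c263, c264, c265, c266, c267, c268, c269, c270, c271, c272, c273, c274, c275, c276, c277, c278, c279, c280, c281, c282, c283, c284, c285, c286, c287, c288, c289, c290, c291, c292, c293, c294, c295, c296, c297, c298, c299, c300, c301, c302, c303, c304, c305, c306, c307, c308, c309, c310, c311, c312, c313, c314, c315, c316, c317, c318, c319, c320, c321, c322, c323, c324, c325, c326, c327, c328, c329, c330, c331, c332, c333, c334, c335, c336, c337, c338, c339, c340, c341, c342, c343, c344, c345, c346, c347, c348, c349, c350, c351, c352, c353, c354, c355, c356, c357, c358, c359, c360, c361, c362, c363, c364,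 c365, c366, c367, c368, c369, c370, c371, c372, c373, c374]

end Pool.Agent.Lib.MP_0baeaf_nt
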