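import Mathlib.Tactic.IntervalCases
import Pool.Agent.Lib.MP_0baeaf_nt.Check

/-! Kernel evaluation of the test, block 3. -/

namespace Pool.Agent.Lib.MP_0baeaf_nt

theorem c375 : allQ 3 375 = true := by decide +kernel
theorem c376 : allQ 3 376 = true := by decide +kernel
theorem c377 : allQ 3 377 = true := by decide +kernel
theorem c378 : allQ 3 378 = true := by decide +kernel
theorem c379 : allQ 3 379 = true := by decide +kernel
theorem c380 : allQ 3 380 = true := by decide +kernel
theorem c381 : allQ 3 381 = true := by decide +kernel
theorem c382 : allQ 3 382 = true := by decide +kernel
theorem c383 : allQ 3 383 = true := by decide +kernel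
theorem c384 : allQ 3 384 = true := by decide +kernel
theorem c385 : allQ 3 385 = true := by decide +kernel
theorem c386 : allQ 3 386 = true := by decide +kernel
theorem c387 : allQ 3 387 = true := by decide +kernel
theorem c388 : allQ 3 388 = true := by decide +kernel
theorem c389 : allQ 3 389 = true := by decide +kernel
theorem c390 : allQ 3 390 = true := by decide +kernel
theorem c391 : allQ 3 391 = true := by decide +kernel
theorem c392 : allQ 3 392 = true := by decide +kernel
theorem c393 : allQ 3 393 = true := by decide +kernel
theorem c394 : allQ 3 394 = true := by decide +kernel
theorem c395 : allQ 3 395 = true := by decide +kernel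
theorem c396 : allQ 3 396 = true := by decide +kernel
theorem c397 : allQ 3 397 = true := by decide +kernel
theorem c398 : allQ 3 398 = true := by decide +kernel
theorem c399 : allQ 3 399 = true := by decide +kernel
theorem c400 : allQ 3 400 = true := by decide +kernel
theorem c401 : allQ 3 401 = true := by decide +kernel
theorem c402 : allQ 3 402 = true := by decide +kernel
theorem c403 : allQ 3 403 = true := by decide +kernel
theorem c404 : allQ 3 404 = true := by decide +kernel
theorem c405 : allQ 3 405 = true := by decide +kernel
theorem c406 : allQ 3 406 = true := by decide +kernel
theorem c407 : allQ 3 407 = true := by decide +kernel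
theorem c408 : allQ 3 408 = true := by decide +kernel
theorem c409 : allQ 3 409 = true := by decide +kernel
theorem c410 : allQ 3 410 = true := by decide +kernel
theorem c411 : allQ 3 411 = true := by decide +kernel
theorem c412 : allQ 3 412 = true := by decide +kernel
theorem c413 : allQ 3 413 = true := by decide +kernel
theorem c414 : allQ 3 414 = true := by decide +kernel
theorem c415 : allQ 3 415 = true := by decide +kernel
theorem c416 : allQ 3 416 = true := by decide +kernel
theorem c417 : allQ 3 417 = true := by decide +kernel
theorem c418 : allQ 3 418 = true := by decide +kernel
theorem c419 : allQ 3 419 = true := by decide +kernel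
theorem c420 : allQ 3 420 = true := by decide +kernel
theorem c421 : allQ 3 421 = true := by decide +kernel
theorem c422 : allQ 3 422 = true := by decide +kernel
theorem c423 : allQ 3 423 = true := by decide +kernel
theorem c424 : allQ 3 424 = true := by decide +kernel
theorem c425 : allQ 3 425 = true := by decide +kernel
theorem c426 : allQ 3 426 = true := by decide +kernel
theorem c427 : allQ 3 427 = true := by decide +kernel
theorem c428 : allQ 3 428 = true := by decide +kernel
theorem c429 : allQ 3 429 = true := by decide +kernel
theorem c430 : allQ 3 430 = true := by decide +kernel
theorem c431 : allQ 3 431 = true := by decide +kernel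
theorem c432 : allQ 3 432 = true := by decide +kernel
theorem c433 : allQ 3 433 = true := by decide +kernel
theorem c434 : allQ 3 434 = true := by decide +kernel
theorem c435 : allQ 3 435 = true := by decide +kernel
theorem c436 : allQ 3 436 = true := by decide +kernel
theorem c437 : allQ 3 437 = true := by decide +kernel
theorem c438 : allQ 3 438 = true := by decide +kernel
theorem c439 : allQ 3 439 = true := by decide +kernel
theorem c440 : allQ 3 440 = true := by decide +kernel
theorem c441 : allQ 3 441 = true := by decide +kernel
theorem c442 : allQ 3 442 = true := by decide +kernel
theorem c443 : allQ 3 443 = true := by decide +kernel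
theorem c444 : allQ 3 444 = true := by decide +kernel
theorem c445 : allQ 3 445 = true := by decide +kernel
theorem c446 : allQ 3 446 = true := by decide +kernel
theorem c447 : allQ 3 447 = true := by decide +kernel
theorem c448 : allQ 3 448 = true := by decide +kernel
theorem c449 : allQ 3 449 = true := by decide +kernel
theorem c450 : allQ 3 450 = true := by decide +kernel
theorem c451 : allQ 3 451 = true := by decide +kernel
theorem c452 : allQ 3 452 = true := by decide +kernel
theorem c453 : allQ 3 453 = true := by decide +kernel
theorem c454 : allQ 3 454 = true := by decide +kernel
theorem c455 : allQ 3 455 = true := by decide +kernel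
theorem c456 : allQ 3 456 = true := by decide +kernel
theorem c457 : allQ 3 457 = true := by decide +kernel
theorem c458 : allQ 3 458 = true := by decide +kernel
theorem c459 : allQ 3 459 = true := by decide +kernel
theorem c460 : allQ 3 460 = true := by decide +kernel
theorem c461 : allQ 3 461 = true := by decide +kernel
theorem c462 : allQ 3 462 = true := by decide +kernel
theorem c463 : allQ 3 463 = true := by decide +kernel
theorem c464 : allQ 3 464 = true := by decide +kernel
theorem c465 : allQ 3 465 = true := by decide +kernel
theorem c466 : allQ 3 466 = true := by decide +kernel
theorem c467 : allQ 3 467 = true := by decide +kernel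
theorem c468 : allQ 3 468 = true := by decide +kernel
theorem c469 : allQ 3 469 = true := by decide +kernel
theorem c470 : allQ 3 470 = true := by decide +kernel
theorem c471 : allQ 3 471 = true := by decide +kernel
theorem c472 : allQ 3 472 = true := by decide +kernel
theorem c473 : allQ 3 473 = true := by decide +kernel
theorem c474 : allQ 3 474 = true := by decide +kernel
theorem c475 : allQ 3 475 = true := by decide +kernel
theorem c476 : allQ 3 476 = true := by decide +kernel
theorem c477 : allQ 3 477 = true := by decide +kernel
theorem c478 : allQ 3 478 = true := by decide +kernel
theorem c479 : allQ 3 479 = true := by decide +kernel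
theorem c480 : allQ 3 480 = true := by decide +kernel
theorem c481 : allQ 3 481 = true := by decide +kernel
theorem c482 : allQ 3 482 = true := by decide +kernel
theorem c483 : allQ 3 483 = true := by decide +kernel
theorem c484 : allQ 3 484 = true := by decide +kernel
theorem c485 : allQ 3 485 = true := by decide +kernel
theorem c486 : allQ 3 486 = true := by decide +kernel
theorem c487 : allQ 3 487 = true := by decide +kernel
theorem c488 : allQ 3 488 = true := by decide +kernel
theorem c489 : allQ 3 489 = true := by decide +kernel
theorem c490 : allQ 3 490 = true := by decide +kernel
theorem c491 : allQ 3 491 = true := by decide +kernel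
theorem c492 : allQ 3 492 = true := by decide +kernel
theorem c493 : allQ 3 493 = true := by decide +kernel
theorem c494 : allQ 3 494 = true := by decide +kernel
theorem c495 : allQ 3 495 = true := by decide +kernel
theorem c496 : allQ 3 496 = true := by decide +kernel
theorem c497 : allQ 3 497 = true := by decide +kernel
theorem c498 : allQ 3 498 = true := by decide +kernel
theorem c499 : allQ 3 499 = true := by decide +kernel

theorem block3 (s : Nat) (h1 : 375 ≤ s) (h2 : s < 500) : allQ 3 s = true := by
  interval_cases s
  exacts [c375, c376, c377, c378, c379, c380, c381, c382, c383, c384, c385, c386, c387, c388, c389, c390, c391, c392, c393, c394, c395, c396, c397, c398, c399, c400, c401, c402, c403, c404, c405, c406, c407, c408, c409, c410, c411, c412, c413, c414, c415, c416, c417, c418, c419, c420, c421, c422, c423, c424, c425, c426, c427, c428, c429, c430, c431, c432, c433, c434, c435, c436, c437, c438, c439, c440, c441, c442, c443, c444, c445, c446, c447, c448, c449, c450, c451, c452, c453, c454, c455, c456, c457, c458, c459, c460, c461, c462, c463, c464, c465, c466, c467, c468, c469, c470, c471, c472, c473, c474, c475, c476, c477, c478, c479, c480, c481, c482, c483, c484, c485, c486, c487, c488, c489,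 c490, c491, c492, c493, c494, c495, c496, c497, c498, c499]

end Pool.Agent.Lib.MP_0baeaf_nt
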