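import Mathlib.Tactic.IntervalCases
import Pool.Agent.Lib.MP_0baeaf_nt.Check

/-! Kernel evaluation of the test, block 4. -/

namespace Pool.Agent.Lib.MP_0baeaf_nt

theorem c500 : allQ 3 500 = true := by decide +kernel
theorem c501 : allQ 3 501 = true := by decide +kernel
theorem c502 : allQ 3 502 = true := by decide +kernel
theorem c503 : allQ 3 503 = true := by decide +kernel
theorem c504 : allQ 3 504 = true := by decide +kernel
theorem c505 : allQ 3 505 = true := by decide +kernel
theorem c506 : allQ 3 506 = true := by decide +kernel
theorem c507 : allQ 3 507 = true := by decide +kernel
theorem c508 : allQ 3 508 = true := by decide +kernel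
theorem c509 : allQ 3 509 = true := by decide +kernel
theorem c510 : allQ 3 510 = true := by decide +kernel
theorem c511 : allQ 3 511 = true := by decide +kernel
theorem c512 : allQ 3 512 = true := by decide +kernel
theorem c513 : allQ 3 513 = true := by decide +kernel
theorem c514 : allQ 3 514 = true := by decide +kernel
theorem c515 : allQ 3 515 = true := by decide +kernel
theorem c516 : allQ 3 516 = true := by decide +kernel
theorem c517 : allQ 3 517 = true := by decide +kernel
theorem c518 : allQ 3 518 = true := by decide +kernel
theorem c519 : allQ 3 519 = true := by decide +kernel
theorem c520 : allQ 3 520 = true := by decide +kernel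
theorem c521 : allQ 3 521 = true := by decide +kernel
theorem c522 : allQ 3 522 = true := by decide +kernel
theorem c523 : allQ 3 523 = true := by decide +kernel
theorem c524 : allQ 3 524 = true := by decide +kernel
theorem c525 : allQ 3 525 = true := by decide +kernel
theorem c526 : allQ 3 526 = true := by decide +kernel
theorem c527 : allQ 3 527 = true := by decide +kernel
theorem c528 : allQ 3 528 = true := by decide +kernel
theorem c529 : allQ 3 529 = true := by decide +kernel
theorem c530 : allQ 3 530 = true := by decide +kernel
theorem c531 : allQ 3 531 = true := by decide +kernel
theorem c532 : allQ 3 532 = true := by decide +kernel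
theorem c533 : allQ 3 533 = true := by decide +kernel
theorem c534 : allQ 3 534 = true := by decide +kernel
theorem c535 : allQ 3 535 = true := by decide +kernel
theorem c536 : allQ 3 536 = true := by decide +kernel
theorem c537 : allQ 3 537 = true := by decide +kernel
theorem c538 : allQ 3 538 = true := by decide +kernel
theorem c539 : allQ 3 539 = true := by decide +kernel
theorem c540 : allQ 3 540 = true := by decide +kernel
theorem c541 : allQ 3 541 = true := by decide +kernel
theorem c542 : allQ 3 542 = true := by decide +kernel
theorem c543 : allQ 3 543 = true := by decide +kernel
theorem c544 : allQ 3 544 = true := by decide +kernel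
theorem c545 : allQ 3 545 = true := by decide +kernel
theorem c546 : allQ 3 546 = true := by decide +kernel
theorem c547 : allQ 3 547 = true := by decide +kernel
theorem c548 : allQ 3 548 = true := by decide +kernel
theorem c549 : allQ 3 549 = true := by decide +kernel
theorem c550 : allQ 3 550 = true := by decide +kernel
theorem c551 : allQ 3 551 = true := by decide +kernel
theorem c552 : allQ 3 552 = true := by decide +kernel
theorem c553 : allQ 3 553 = true := by decide +kernel
theorem c554 : allQ 3 554 = true := by decide +kernel
theorem c555 : allQ 3 555 = true := by decide +kernel
theorem c556 : allQ 3 556 = true := by decide +kernel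
theorem c557 : allQ 3 557 = true := by decide +kernel
theorem c558 : allQ 3 558 = true := by decide +kernel
theorem c559 : allQ 3 559 = true := by decide +kernel
theorem c560 : allQ 3 560 = true := by decide +kernel
theorem c561 : allQ 3 561 = true := by decide +kernel
theorem c562 : allQ 3 562 = true := by decide +kernel
theorem c563 : allQ 3 563 = true := by decide +kernel
theorem c564 : allQ 3 564 = true := by decide +kernel
theorem c565 : allQ 3 565 = true := by decide +kernel
theorem c566 : allQ 3 566 = true := by decide +kernel
theorem c567 : allQ 3 567 = true := by decide +kernel
theorem c568 : allQ 3 568 = true := by decide +kernel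
theorem c569 : allQ 3 569 = true := by decide +kernel
theorem c570 : allQ 3 570 = true := by decide +kernel
theorem c571 : allQ 3 571 = true := by decide +kernel
theorem c572 : allQ 3 572 = true := by decide +kernel
theorem c573 : allQ 3 573 = true := by decide +kernel
theorem c574 : allQ 3 574 = true := by decide +kernel
theorem c575 : allQ 3 575 = true := by decide +kernel
theorem c576 : allQ 3 576 = true := by decide +kernel
theorem c577 : allQ 3 577 = true := by decide +kernel
theorem c578 : allQ 3 578 = true := by decide +kernel
theorem c579 : allQ 3 579 = true := by decide +kernel
theorem c580 : allQ 3 580 = true := by decide +kernel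
theorem c581 : allQ 3 581 = true := by decide +kernel
theorem c582 : allQ 3 582 = true := by decide +kernel
theorem c583 : allQ 3 583 = true := by decide +kernel
theorem c584 : allQ 3 584 = true := by decide +kernel
theorem c585 : allQ 3 585 = true := by decide +kernel
theorem c586 : allQ 3 586 = true := by decide +kernel
theorem c587 : allQ 3 587 = true := by decide +kernel
theorem c588 : allQ 3 588 = true := by decide +kernel
theorem c589 : allQ 3 589 = true := by decide +kernel
theorem c590 : allQ 3 590 = true := by decide +kernel
theorem c591 : allQ 3 591 = true := by decide +kernel
theorem c592 : allQ 3 592 = true := by decide +kernel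
theorem c593 : allQ 3 593 = true := by decide +kernel
theorem c594 : allQ 3 594 = true := by decide +kernel
theorem c595 : allQ 3 595 = true := by decide +kernel
theorem c596 : allQ 3 596 = true := by decide +kernel
theorem c597 : allQ 3 597 = true := by decide +kernel
theorem c598 : allQ 3 598 = true := by decide +kernel
theorem c599 : allQ 3 599 = true := by decide +kernel
theorem c600 : allQ 3 600 = true := by decide +kernel
theorem c601 : allQ 3 601 = true := by decide +kernel
theorem c602 : allQ 3 602 = true := by decide +kernel
theorem c603 : allQ 3 603 = true := by decide +kernel
theorem c604 : allQ 3 604 = true := by decide +kernel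
theorem c605 : allQ 3 605 = true := by decide +kernel
theorem c606 : allQ 3 606 = true := by decide +kernel
theorem c607 : allQ 3 607 = true := by decide +kernel
theorem c608 : allQ 3 608 = true := by decide +kernel
theorem c609 : allQ 3 609 = true := by decide +kernel
theorem c610 : allQ 3 610 = true := by decide +kernel
theorem c611 : allQ 3 611 = true := by decide +kernel
theorem c612 : allQ 3 612 = true := by decide +kernel
theorem c613 : allQ 3 613 = true := by decide +kernel
theorem c614 : allQ 3 614 = true := by decide +kernel
theorem c615 : allQ 3 615 = true := by decide +kernel
theorem c616 : allQ 3 616 = true := by decide +kernel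
theorem c617 : allQ 3 617 = true := by decide +kernel
theorem c618 : allQ 3 618 = true := by decide +kernel
theorem c619 : allQ 3 619 = true := by decide +kernel
theorem c620 : allQ 3 620 = true := by decide +kernel
theorem c621 : allQ 3 621 = true := by decide +kernel
theorem c622 : allQ 3 622 = true := by decide +kernel
theorem c623 : allQ 3 623 = true := by decide +kernel
theorem c624 : allQ 3 624 = true := by decide +kernel

theorem block4 (s : Nat) (h1 : 500 ≤ s) (h2 : s < 625) : allQ 3 s = true := by
  interval_cases s
  exacts [c500, c501, c502, c503, c504, c505, c506, c507, c508, c509, c510, c511, c512, c513, c514, c515, c516, c517, c518, c519, c520, c521, c522, c523, c524, c525, c526, c527, c528, c529, c530, c531, c532, c533, c534, c535, c536, c537, c538, c539, c540, c541, c542, c543, c544, c545, c546, c547, c548, c549, c550, c551, c552, c553, c554, c555, c556, c557, c558, c559, c560, c561, c562, c563, c564, c565, c566, c567, c568, c569, c570, c571, c572, c573, c574, c575, c576, c577, c578, c579, c580, c581, c582, c583, c584, c585, c586, c587, c588, c589, c590, c591, c592, c593, c594, c595, c596, c597, c598, c599, c600, c601, c602, c603, c604, c605, c606, c607, c608, c609, c610, c611, c612, c613, c614,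 c615, c616, c617, c618, c619, c620, c621, c622, c623, c624]

end Pool.Agent.Lib.MP_0baeaf_nt
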