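import Mathlib

/-! Sums of periodic functions over residue systems; elementary entropy inequalities. -/

namespace Pool.Agent.Lib.MP_0baeaf_nt.H

open Finset

/-- `f` only depends on the residue modulo `n`. -/
def Per (n : ℕ) (f : ℤ → ℝ) : Prop := ∀ a b : ℤ, (n : ℤ) ∣ a - b → f a = f b

theorem Per.mul {n : ℕ} {f : ℤ → ℝ} (h : Per n f) (W : ℕ) : Per (n * W) f := by
  intro a b hab
  apply h
  exact (Dvd.intro (W : ℤ) (by push_cast; ring)).trans hab

theorem Per.pow {q i j : ℕ} {f : ℤ → ℝ} (h : Per (q ^ i) f) (hij : i ≤ j) : Per (q ^ j) f := by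
  obtain ⟨k, rfl⟩ := Nat.exists_eq_add_of_le hij
  rw [pow_add]; exact h.mul _

theorem sum_aff {n : ℕ} (hn : 0 < n) {f : ℤ → ℝ} (hf : Per n f) {A : ℤ} (hA : IsCoprime A (n : ℤ))
    (o : ℤ) : ∑ s ∈ range n, f (A * (s : ℤ) + o) = ∑ s ∈ range n, f (s : ℤ) := by
  have hn' : (0 : ℤ) < n := by exact_mod_cast hn
  set φ : ℕ → ℕ := fun s => ((A * (s : ℤ) + o) % n).toNat with hφ
  have hφc : ∀ s, ((φ s : ℕ) : ℤ) = (A * (s : ℤ) + o) % n := fun s =>
    Int.toNat_of_nonneg (Int.emod_nonneg _ hn'.ne')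
  have hmem : ∀ s, φ s ∈ range n := by
    intro s
    rw [mem_range]
    have := Int.emod_lt_of_pos (A * (s : ℤ) + o) hn'
    have h2 := hφc s
    omega
  have hinj : Set.InjOn φ (range n : Set ℕ) := by
    intro s hs t ht hst
    have hs' : s < n := by simpa using hs
    have ht' : t < n := by simpa using ht
    have h1 : (A * (s : ℤ) + o) % n = (A * (t : ℤ) + o) % n := by rw [← hφc, ← hφc, hst]
    have h2 : (n : ℤ) ∣ A * ((t : ℤ) - s) := by
      have := Int.ModEq.dvd (show (A * (s : ℤ) + o) ≡ (A * (t : ℤ) + o) [ZMOD n] from h1)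
      convert this using 1; ring
    have h3 : (n : ℤ) ∣ (t : ℤ) - s := hA.symm.dvd_of_dvd_mul_left h2
    have h4 := Int.eq_zero_of_abs_lt_dvd h3 (by rw [abs_lt]; constructor <;> omega)
    omega
  have himg : (range n).image φ = range n := by
    apply eq_of_subset_of_card_le
    · intro t ht
      obtain ⟨s, _, rfl⟩ := mem_image.1 ht
      exact hmem s
    · rw [card_image_of_injOn hinj]
  conv_rhs => rw [← himg, sum_image hinj]
  refine sum_congr rfl fun s _ => hf _ _ ?_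
  rw [hφc]
  exact Int.ModEq.dvd (Int.mod_modEq _ _)

theorem sum_shift {n : ℕ} (hn : 0 < n) {f : ℤ → ℝ} (hf : Per n f) (o : ℤ) :
    ∑ s ∈ range n, f ((s : ℤ) + o) = ∑ s ∈ range n, f (s : ℤ) := by
  simpa using sum_aff hn hf isCoprime_one_left o

theorem sum_mul_range (M W : ℕ) (f : ℤ → ℝ) :
    ∑ x ∈ range (M * W), f (x : ℤ) =
      ∑ a ∈ range M, ∑ s ∈ range W, f ((a : ℤ) + (M : ℤ) * (s : ℤ)) := by
  rw [sum_comm]
  induction W with
  | zero => simp
  | succ W ih =>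
    rw [Nat.mul_succ, sum_range_add, ih, sum_range_succ]
    congr 1
    refine sum_congr rfl fun a _ => ?_
    congr 1; push_cast; ring

theorem sum_per_mul {M : ℕ} (W : ℕ) {f : ℤ → ℝ} (hf : Per M f) :
    ∑ x ∈ range (M * W), f (x : ℤ) = W * ∑ a ∈ range M, f (a : ℤ) := by
  rw [sum_mul_range, mul_sum]
  refine sum_congr rfl fun a _ => ?_
  have : ∀ s ∈ range W, f ((a : ℤ) + (M : ℤ) * (s : ℤ)) = f (a : ℤ) :=
    fun s _ => hf _ (a : ℤ) ⟨s, by ring⟩
  rw [sum_congr rfl this]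
  simp

theorem sum_ite_dvd {n : ℕ} (hn : 0 < n) (x : ℤ) (c : ℝ) :
    ∑ s ∈ range n, (if (n : ℤ) ∣ x - (s : ℤ) then c else 0) = c := by
  have hP : Per n (fun s => if (n : ℤ) ∣ x - s then c else 0) := by
    intro a b hab
    have : (n : ℤ) ∣ x - a ↔ (n : ℤ) ∣ x - b := by
      constructor
      · intro h; have := dvd_add h hab; rwa [show x - a + (a - b) = x - b by ring] at this
      · intro h; have := dvd_sub h hab; rwa [show x - b - (a - b) = x - a by ring] at this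
    simp only [this]
  rw [← sum_shift hn hP x]
  rw [sum_eq_single 0]
  · simp
  · intro s hs h0
    rw [if_neg]
    intro h
    have hs' : s < n := mem_range.1 hs
    have := Int.eq_zero_of_abs_lt_dvd h (by rw [abs_lt]; constructor <;> omega)
    omega
  · intro h; exact absurd (mem_range.2 hn) h

theorem sum_ite_dvd_fiber {M W : ℕ} (hM : 0 < M) (hW : 0 < W) (x a : ℤ) (c : ℝ) :
    ∑ s ∈ range W, (if ((M * W : ℕ) : ℤ) ∣ x - (a + (M : ℤ) * (s : ℤ)) then c else 0) =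
      if (M : ℤ) ∣ x - a then c else 0 := by
  have hM' : (M : ℤ) ≠ 0 := by exact_mod_cast hM.ne'
  split_ifs with h
  · obtain ⟨k, hk⟩ := h
    refine Eq.trans (sum_congr rfl fun s _ => ?_) (sum_ite_dvd hW k c)
    have : ((M * W : ℕ) : ℤ) ∣ x - (a + (M : ℤ) * (s : ℤ)) ↔ (W : ℤ) ∣ k - s := by
      have e : x - (a + (M : ℤ) * (s : ℤ)) = M * (k - s) := by linear_combination hk
      rw [e]; push_cast
      exact mul_dvd_mul_iff_left hM'
    simp only [this]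
  · refine sum_eq_zero fun s _ => if_neg fun h2 => h ?_
    have h3 : (M : ℤ) ∣ x - (a + (M : ℤ) * (s : ℤ)) :=
      (Dvd.intro (W : ℤ) (by push_cast; ring)).trans h2
    have := dvd_add h3 (Dvd.intro (s : ℤ) rfl : (M : ℤ) ∣ (M : ℤ) * s)
    rwa [show x - (a + (M : ℤ) * s) + M * s = x - a by ring] at this

/-- pointwise Gibbs inequality -/
theorem kl_pt {J r : ℝ} (hJ : 0 ≤ J) (hr : 0 ≤ r) (h : 0 < J → 0 < r) :
    (Real.sqrt J - Real.sqrt r) ^ 2 ≤ J * Real.log (J / r) - J + r := by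
  rcases hJ.eq_or_lt with rfl | hJ'
  · simp [Real.sq_sqrt hr]
  have hr' := h hJ'
  set a := Real.sqrt J with ha
  set b := Real.sqrt r with hb
  have ha0 : 0 < a := Real.sqrt_pos.2 hJ'
  have hb0 : 0 < b := Real.sqrt_pos.2 hr'
  have e1 : J = a ^ 2 := (Real.sq_sqrt hJ).symm
  have e2 : r = b ^ 2 := (Real.sq_sqrt hr).symm
  have h1 : Real.log (J / r) = -2 * Real.log (b / a) := by
    rw [e1, e2, ← div_pow, Real.log_pow, Real.log_div ha0.ne' hb0.ne', Real.log_div hb0.ne' ha0.ne']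
    push_cast; ring
  have h2 : Real.log (b / a) ≤ b / a - 1 := Real.log_le_sub_one_of_pos (div_pos hb0 ha0)
  have h3 : a ^ 2 * (b / a) = a * b := by field_simp
  rw [h1, e1, e2]
  nlinarith [sq_nonneg a, mul_le_mul_of_nonneg_left h2 (sq_nonneg a)]

theorem kl_pt_nonneg {J r : ℝ} (hJ : 0 ≤ J) (hr : 0 ≤ r) (h : 0 < J → 0 < r) :
    J - r ≤ J * Real.log (J / r) := by
  have := kl_pt hJ hr h
  nlinarith [sq_nonneg (Real.sqrt J - Real.sqrt r)]

/-- pointwise Pinsker inequality, linearised -/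
theorem pinsker_pt {J r η : ℝ} (hJ : 0 ≤ J) (hr : 0 ≤ r) (h : 0 < J → 0 < r) (hη : 0 < η) :
    |J - r| ≤ (J * Real.log (J / r) - J + r) / η + η * (J + r) / 2 := by
  have h1 := kl_pt hJ hr h
  set a := Real.sqrt J
  set b := Real.sqrt r
  have ha0 : 0 ≤ a := Real.sqrt_nonneg _
  have hb0 : 0 ≤ b := Real.sqrt_nonneg _
  have e1 : J = a ^ 2 := (Real.sq_sqrt hJ).symm
  have e2 : r = b ^ 2 := (Real.sq_sqrt hr).symm
  have h2 : |J - r| = |a - b| * (a + b) := by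
    rw [e1, e2, show a ^ 2 - b ^ 2 = (a - b) * (a + b) by ring, abs_mul, abs_of_nonneg (add_nonneg ha0 hb0)]
  have h3 : |a - b| * (a + b) ≤ (a - b) ^ 2 / η + η * (a ^ 2 + b ^ 2) / 2 := by
    rw [← sq_abs (a - b)]
    set u := |a - b|
    have : u ^ 2 / η + η * (a ^ 2 + b ^ 2) / 2 - u * (a + b) =
        ((u - η * (a + b) / 2) ^ 2 + η ^ 2 * (a - b) ^ 2 / 4) / η := by field_simp; ring
    have h4 : 0 ≤ ((u - η * (a + b) / 2) ^ 2 + η ^ 2 * (a - b) ^ 2 / 4) / η := by positivity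
    linarith
  have h5 : (a - b) ^ 2 / η ≤ (J * Real.log (J / r) - J + r) / η :=
    div_le_div_of_nonneg_right h1 hη.le
  rw [h2]
  rw [← e1, ← e2] at h3
  linarith

theorem pinsker_sum {ι : Type*} (s : Finset ι) {J r : ι → ℝ} {η m : ℝ} (hJ : ∀ i ∈ s, 0 ≤ J i)
    (hr : ∀ i ∈ s, 0 ≤ r i) (h : ∀ i ∈ s, 0 < J i → 0 < r i) (hη : 0 < η)
    (h1 : ∑ i ∈ s, J i = m) (h2 : ∑ i ∈ s, r i ≤ m) :
    ∑ i ∈ s, |J i - r i| ≤ (∑ i ∈ s, J i * Real.log (J i / r i)) / η + η * m := by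
  have h3 := sum_le_sum fun i hi => pinsker_pt (hJ i hi) (hr i hi) (h i hi) hη
  refine h3.trans ?_
  rw [sum_add_distrib, ← sum_div, ← sum_div, ← mul_sum, sum_add_distrib, sum_add_distrib,
    sum_sub_distrib, h1]
  have : (∑ i ∈ s, J i * Real.log (J i / r i) - m + ∑ i ∈ s, r i) / η ≤
      (∑ i ∈ s, J i * Real.log (J i / r i)) / η := div_le_div_of_nonneg_right (by linarith) hη.le
  nlinarith

theorem gibbs_sum {ι : Type*} (s : Finset ι) {J r : ι → ℝ} (hJ : ∀ i ∈ s, 0 ≤ J i)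
    (hr : ∀ i ∈ s, 0 ≤ r i) (h : ∀ i ∈ s, 0 < J i → 0 < r i)
    (h2 : ∑ i ∈ s, r i ≤ ∑ i ∈ s, J i) : 0 ≤ ∑ i ∈ s, J i * Real.log (J i / r i) := by
  have h3 := sum_le_sum fun i hi => kl_pt_nonneg (hJ i hi) (hr i hi) (h i hi)
  rw [sum_sub_distrib] at h3
  linarith

/-- log-sum form: `∑ m log (r / m) ≤ mb * log (R / mb)` -/
theorem gibbs_log {ι : Type*} (s : Finset ι) {m r : ι → ℝ} {R : ℝ} (hm : ∀ i ∈ s, 0 ≤ m i)
    (hr : ∀ i ∈ s, 0 ≤ r i) (h : ∀ i ∈ s, 0 < m i → 0 < r i) (hR : ∑ i ∈ s, r i ≤ R) :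
    ∑ i ∈ s, m i * Real.log (r i / m i) ≤ (∑ i ∈ s, m i) * Real.log (R / ∑ i ∈ s, m i) := by
  set mb := ∑ i ∈ s, m i with hmb
  rcases (sum_nonneg hm).eq_or_lt with h0 | h0
  · have : ∀ i ∈ s, m i = 0 := (sum_eq_zero_iff_of_nonneg hm).1 h0.symm
    rw [sum_eq_zero fun i hi => by rw [this i hi, zero_mul], hmb, ← h0, zero_mul]
  have hmb0 : 0 < mb := h0
  have hR0 : 0 < R := by
    obtain ⟨i, hi, hi0⟩ : ∃ i ∈ s, 0 < m i := by
      by_contra hc
      push Not at hc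
      exact absurd (sum_nonpos hc) (not_le.2 h0)
    exact (h i hi hi0).trans_le ((single_le_sum hr hi).trans hR)
  have h1 := gibbs_sum s (J := m) (r := fun i => r i * (mb / R)) hm
    (fun i hi => mul_nonneg (hr i hi) (div_pos hmb0 hR0).le)
    (fun i hi h' => mul_pos (h i hi h') (div_pos hmb0 hR0))
    (by rw [← sum_mul, ← hmb]
        calc (∑ i ∈ s, r i) * (mb / R) ≤ R * (mb / R) :=
            mul_le_mul_of_nonneg_right hR (div_pos hmb0 hR0).le
          _ = mb := by field_simp)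
  have h2 : ∑ i ∈ s, m i * Real.log (m i / (r i * (mb / R))) =
      ∑ i ∈ s, (m i * Real.log (R / mb) - m i * Real.log (r i / m i)) := by
    refine sum_congr rfl fun i hi => ?_
    rcases (hm i hi).eq_or_lt with h' | h'
    · rw [← h']; simp
    have hri := h i hi h'
    rw [← mul_sub, ← Real.log_div (div_pos hR0 hmb0).ne' (div_pos hri h').ne']
    congr 2; field_simp
  rw [h2, sum_sub_distrib, ← sum_mul] at h1
  linarith

end Pool.Agent.Lib.MP_0baeaf_nt.H
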