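import Mathlib
import Pool.Agent.Lib.MP_0baeaf_nt.HPer

/-! Laws of integer random variables modulo `n`, their entropies and mutual informations. -/

namespace Pool.Agent.Lib.MP_0baeaf_nt.H

open Finset

variable {Ω : Type*} [Fintype Ω]

noncomputable def ms (J : Ω → ℝ) (X : Ω → ℤ) (n : ℕ) (a : ℤ) : ℝ :=
  ∑ ω, if (n : ℤ) ∣ X ω - a then J ω else 0

noncomputable def ms2 (J : Ω → ℝ) (X Y : Ω → ℤ) (n : ℕ) (a b : ℤ) : ℝ :=
  ∑ ω, if (n : ℤ) ∣ X ω - a ∧ (n : ℤ) ∣ Y ω - b then J ω else 0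

noncomputable def ent (J : Ω → ℝ) (X : Ω → ℤ) (n : ℕ) : ℝ :=
  -∑ ω, J ω * Real.log (ms J X n (X ω))

noncomputable def ent2 (J : Ω → ℝ) (X Y : Ω → ℤ) (n : ℕ) : ℝ :=
  -∑ ω, J ω * Real.log (ms2 J X Y n (X ω) (Y ω))

noncomputable def mi (J : Ω → ℝ) (X Y : Ω → ℤ) (n : ℕ) : ℝ :=
  ent J X n + ent J Y n - ent2 J X Y n

def Per2 (n : ℕ) (g : ℤ → ℤ → ℝ) : Prop :=
  ∀ a a' b b' : ℤ, (n : ℤ) ∣ a - a' → (n : ℤ) ∣ b - b' → g a b = g a' b'

theorem dvd_sub_congr {n x a b : ℤ} (h : n ∣ a - b) : n ∣ x - a ↔ n ∣ x - b := by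
  constructor
  · intro h'; have := dvd_add h' h; rwa [show x - a + (a - b) = x - b by ring] at this
  · intro h'; have := dvd_sub h' h; rwa [show x - b - (a - b) = x - a by ring] at this

variable {J : Ω → ℝ} {X Y : Ω → ℤ}

theorem ms_nonneg (hJ : ∀ ω, 0 ≤ J ω) (n : ℕ) (a : ℤ) : 0 ≤ ms J X n a :=
  sum_nonneg fun ω _ => by split_ifs; exacts [hJ ω, le_rfl]

theorem ms2_nonneg (hJ : ∀ ω, 0 ≤ J ω) (n : ℕ) (a b : ℤ) : 0 ≤ ms2 J X Y n a b :=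
  sum_nonneg fun ω _ => by split_ifs; exacts [hJ ω, le_rfl]

theorem ms_per (n : ℕ) : Per n (ms J X n) := by
  intro a b h
  unfold ms
  simp only [dvd_sub_congr h]

theorem ms2_per (n : ℕ) : Per2 n (ms2 J X Y n) := by
  intro a a' b b' h h'
  unfold ms2
  simp only [dvd_sub_congr h, dvd_sub_congr h']

theorem le_ms (hJ : ∀ ω, 0 ≤ J ω) (n : ℕ) (ω : Ω) : J ω ≤ ms J X n (X ω) := by
  have := single_le_sum (f := fun ω' => if (n : ℤ) ∣ X ω' - X ω then J ω' else 0)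
    (fun ω' _ => by split_ifs; exacts [hJ ω', le_rfl]) (mem_univ ω)
  unfold ms
  simpa using this

theorem le_ms2 (hJ : ∀ ω, 0 ≤ J ω) (n : ℕ) (ω : Ω) : J ω ≤ ms2 J X Y n (X ω) (Y ω) := by
  have := single_le_sum
    (f := fun ω' => if (n : ℤ) ∣ X ω' - X ω ∧ (n : ℤ) ∣ Y ω' - Y ω then J ω' else 0)
    (fun ω' _ => by split_ifs; exacts [hJ ω', le_rfl]) (mem_univ ω)
  unfold ms2
  simpa using this

theorem ms_pos_exists {n : ℕ} {a : ℤ} (h : 0 < ms J X n a) :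
    ∃ ω, 0 < J ω ∧ (n : ℤ) ∣ X ω - a := by
  by_contra hc
  push Not at hc
  refine absurd h (not_lt.2 (sum_nonpos fun ω _ => ?_))
  split_ifs with h1
  · by_contra h2; exact hc ω (not_le.1 h2) h1
  · exact le_rfl

theorem ms2_le_left (hJ : ∀ ω, 0 ≤ J ω) (n : ℕ) (a b : ℤ) : ms2 J X Y n a b ≤ ms J X n a :=
  sum_le_sum fun ω _ => by
    by_cases h1 : (n : ℤ) ∣ X ω - a <;> by_cases h2 : (n : ℤ) ∣ Y ω - b <;> simp [h1, h2, hJ ω]

theorem ms2_le_right (hJ : ∀ ω, 0 ≤ J ω) (n : ℕ) (a b : ℤ) : ms2 J X Y n a b ≤ ms J Y n b :=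
  sum_le_sum fun ω _ => by
    by_cases h1 : (n : ℤ) ∣ X ω - a <;> by_cases h2 : (n : ℤ) ∣ Y ω - b <;> simp [h1, h2, hJ ω]

theorem dvd_of_mul_dvd {M W : ℕ} {x : ℤ} (h : ((M * W : ℕ) : ℤ) ∣ x) : (M : ℤ) ∣ x :=
  (Dvd.intro (W : ℤ) (by push_cast; ring)).trans h

theorem ms_mul_le (hJ : ∀ ω, 0 ≤ J ω) (M W : ℕ) (a : ℤ) : ms J X (M * W) a ≤ ms J X M a :=
  sum_le_sum fun ω _ => by
    by_cases h1 : ((M * W : ℕ) : ℤ) ∣ X ω - a
    · rw [if_pos h1, if_pos (dvd_of_mul_dvd h1)]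
    · rw [if_neg h1]; split_ifs; exacts [hJ ω, le_rfl]

theorem ms2_mul_le (hJ : ∀ ω, 0 ≤ J ω) (M W : ℕ) (a b : ℤ) :
    ms2 J X Y (M * W) a b ≤ ms2 J X Y M a b :=
  sum_le_sum fun ω _ => by
    by_cases h1 : ((M * W : ℕ) : ℤ) ∣ X ω - a ∧ ((M * W : ℕ) : ℤ) ∣ Y ω - b
    · rw [if_pos h1, if_pos ⟨dvd_of_mul_dvd h1.1, dvd_of_mul_dvd h1.2⟩]
    · rw [if_neg h1]; split_ifs; exacts [hJ ω, le_rfl]

theorem ms_fiber {M W : ℕ} (hM : 0 < M) (hW : 0 < W) (a : ℤ) :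
    ∑ s ∈ range W, ms J X (M * W) (a + (M : ℤ) * (s : ℤ)) = ms J X M a := by
  unfold ms
  rw [sum_comm]
  exact sum_congr rfl fun ω _ => sum_ite_dvd_fiber hM hW _ _ _

theorem ms_one (h1 : ∑ ω, J ω = 1) (a : ℤ) : ms J X 1 a = 1 := by
  simp [ms, h1]

theorem ms2_one (h1 : ∑ ω, J ω = 1) (a b : ℤ) : ms2 J X Y 1 a b = 1 := by
  simp [ms2, h1]

theorem exp_eq {n : ℕ} (hn : 0 < n) {g : ℤ → ℝ} (hg : Per n g) :
    ∑ ω, J ω * g (X ω) = ∑ a ∈ range n, ms J X n a * g a := by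
  unfold ms
  simp only [sum_mul]
  rw [sum_comm]
  refine sum_congr rfl fun ω _ => ?_
  rw [← sum_ite_dvd hn (X ω) (J ω * g (X ω))]
  refine sum_congr rfl fun a _ => ?_
  split_ifs with h
  · rw [hg _ _ h]
  · simp

theorem exp2_eq {n : ℕ} (hn : 0 < n) {g : ℤ → ℤ → ℝ} (hg : Per2 n g) :
    ∑ ω, J ω * g (X ω) (Y ω) = ∑ a ∈ range n, ∑ b ∈ range n, ms2 J X Y n a b * g a b := by
  unfold ms2
  simp only [sum_mul]
  have : ∀ ω, J ω * g (X ω) (Y ω) = ∑ a ∈ range n, ∑ b ∈ range n,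
      (if (n : ℤ) ∣ X ω - a ∧ (n : ℤ) ∣ Y ω - b then J ω else 0) * g a b := by
    intro ω
    rw [← sum_ite_dvd hn (X ω) (J ω * g (X ω) (Y ω))]
    refine sum_congr rfl fun a _ => ?_
    split_ifs with h
    · rw [← sum_ite_dvd hn (Y ω) (J ω * g (X ω) (Y ω))]
      refine sum_congr rfl fun b _ => ?_
      by_cases h2 : (n : ℤ) ∣ Y ω - b
      · simp only [h, h2, and_self, if_true]; rw [hg _ _ _ _ h h2]
      · simp [h2]
    · simp [h]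
  rw [sum_congr rfl fun ω _ => this ω, sum_comm]
  refine sum_congr rfl fun a _ => ?_
  rw [sum_comm]

theorem sum_ms {n : ℕ} (hn : 0 < n) : ∑ a ∈ range n, ms J X n a = ∑ ω, J ω := by
  have := exp_eq (J := J) (X := X) hn (g := fun _ => 1) (fun _ _ _ => rfl)
  simpa using this.symm

theorem sum_ms2 {n : ℕ} (hn : 0 < n) :
    ∑ a ∈ range n, ∑ b ∈ range n, ms2 J X Y n a b = ∑ ω, J ω := by
  have := exp2_eq (J := J) (X := X) (Y := Y) hn (g := fun _ _ => 1) (fun _ _ _ _ _ _ => rfl)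
  simpa using this.symm

theorem sum2_mul_range (M W : ℕ) (g : ℤ → ℤ → ℝ) :
    ∑ a ∈ range (M * W), ∑ b ∈ range (M * W), g a b =
      ∑ a ∈ range M, ∑ b ∈ range M, ∑ t ∈ range W, ∑ s ∈ range W,
        g ((a : ℤ) + (M : ℤ) * (s : ℤ)) ((b : ℤ) + (M : ℤ) * (t : ℤ)) := by
  rw [sum_mul_range M W (fun a => ∑ b ∈ range (M * W), g a b)]
  refine sum_congr rfl fun a _ => ?_
  rw [sum_congr rfl fun (s : ℕ) _ => sum_mul_range M W (fun b => g ((a : ℤ) + (M : ℤ) * (s : ℤ)) b)]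
  rw [sum_comm]
  refine sum_congr rfl fun b _ => ?_
  rw [sum_comm]

/-- conditional law of the next digits -/
noncomputable def cd (J : Ω → ℝ) (X : Ω → ℤ) (M W : ℕ) (a : ℤ) : ℝ :=
  ms J X (M * W) a / ms J X M a

theorem cd_nonneg (hJ : ∀ ω, 0 ≤ J ω) (M W : ℕ) (a : ℤ) : 0 ≤ cd J X M W a :=
  div_nonneg (ms_nonneg hJ _ _) (ms_nonneg hJ _ _)

theorem cd_per (M W : ℕ) : Per (M * W) (cd J X M W) := by
  intro a b h
  unfold cd
  rw [ms_per _ a b h, ms_per _ a b (dvd_of_mul_dvd h)]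

theorem cd_shift (M W : ℕ) (a s : ℤ) :
    cd J X M W (a + M * s) = ms J X (M * W) (a + M * s) / ms J X M a := by
  unfold cd
  rw [ms_per M (a + M * s) a ⟨s, by ring⟩]

theorem sum_cd_le {M W : ℕ} (hM : 0 < M) (hW : 0 < W) (a : ℤ) :
    ∑ s ∈ range W, cd J X M W (a + (M : ℤ) * (s : ℤ)) ≤ 1 := by
  simp only [cd_shift]
  rw [← sum_div, ms_fiber hM hW]
  exact div_self_le_one _

theorem sum_cd_eq {M W : ℕ} (hM : 0 < M) (hW : 0 < W) {a : ℤ} (ha : 0 < ms J X M a) :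
    ∑ s ∈ range W, cd J X M W (a + (M : ℤ) * (s : ℤ)) = 1 := by
  simp only [cd_shift]
  rw [← sum_div, ms_fiber hM hW, div_self ha.ne']

noncomputable def rf (J : Ω → ℝ) (X Y : Ω → ℤ) (M W : ℕ) (a b : ℤ) : ℝ :=
  ms2 J X Y M a b * cd J X M W a * cd J Y M W b

theorem rf_per (M W : ℕ) : Per2 (M * W) (rf J X Y M W) := by
  intro a a' b b' h h'
  unfold rf
  rw [ms2_per M a a' b b' (dvd_of_mul_dvd h) (dvd_of_mul_dvd h'), cd_per M W a a' h,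
    cd_per M W b b' h']

theorem rf_nonneg (hJ : ∀ ω, 0 ≤ J ω) (M W : ℕ) (a b : ℤ) : 0 ≤ rf J X Y M W a b :=
  mul_nonneg (mul_nonneg (ms2_nonneg hJ _ _ _) (cd_nonneg hJ _ _ _)) (cd_nonneg hJ _ _ _)

theorem rf_pos (hJ : ∀ ω, 0 ≤ J ω) {M W : ℕ} {a b : ℤ} (h : 0 < ms2 J X Y (M * W) a b) :
    0 < rf J X Y M W a b := by
  have h1 := h.trans_le (ms2_le_left hJ _ _ _)
  have h2 := h.trans_le (ms2_le_right hJ _ _ _)
  exact mul_pos (mul_pos (h.trans_le (ms2_mul_le hJ _ _ _ _))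
    (div_pos h1 (h1.trans_le (ms_mul_le hJ _ _ _)))) (div_pos h2 (h2.trans_le (ms_mul_le hJ _ _ _)))

theorem sum_rf_le (hJ : ∀ ω, 0 ≤ J ω) (h1 : ∑ ω, J ω = 1) {M W : ℕ} (hM : 0 < M) (hW : 0 < W) :
    ∑ a ∈ range (M * W), ∑ b ∈ range (M * W), rf J X Y M W a b ≤ 1 := by
  rw [sum2_mul_range, ← h1, ← sum_ms2 (X := X) (Y := Y) hM]
  refine sum_le_sum fun a _ => sum_le_sum fun b _ => ?_
  have : ∀ s t : ℕ, rf J X Y M W (a + (M : ℤ) * (s : ℤ)) (b + (M : ℤ) * (t : ℤ)) =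
      ms2 J X Y M a b * (cd J Y M W (b + (M : ℤ) * (t : ℤ)) * cd J X M W (a + (M : ℤ) * (s : ℤ))) := by
    intro s t
    unfold rf
    rw [ms2_per M _ (a : ℤ) _ (b : ℤ) ⟨s, by ring⟩ ⟨t, by ring⟩]; ring
  simp only [this, ← mul_sum, ← sum_mul]
  refine mul_le_of_le_one_right (ms2_nonneg hJ _ _ _) ?_
  exact mul_le_one₀ (sum_cd_le hM hW _) (sum_nonneg fun s _ => cd_nonneg hJ _ _ _) (sum_cd_le hM hW _)

theorem kl_rf (hJ : ∀ ω, 0 ≤ J ω) {M W : ℕ} (hM : 0 < M) (hW : 0 < W) :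
    ∑ a ∈ range (M * W), ∑ b ∈ range (M * W),
      ms2 J X Y (M * W) a b * Real.log (ms2 J X Y (M * W) a b / rf J X Y M W a b) =
      mi J X Y (M * W) - mi J X Y M := by
  rw [← exp2_eq (Nat.mul_pos hM hW)
    (g := fun a b => Real.log (ms2 J X Y (M * W) a b / rf J X Y M W a b))
    (fun a a' b b' h h' => by
      simp only [ms2_per _ a a' b b' h h', rf_per M W a a' b b' h h'])]
  unfold mi ent ent2
  simp only [← sum_neg_distrib, ← sum_add_distrib, ← sum_sub_distrib]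
  refine sum_congr rfl fun ω _ => ?_
  rcases (hJ ω).eq_or_lt with h | h
  · rw [← h]; simp
  have p1 := h.trans_le (le_ms2 (X := X) (Y := Y) hJ (M * W) ω)
  have p2 := h.trans_le (le_ms2 (X := X) (Y := Y) hJ M ω)
  have p3 := h.trans_le (le_ms (X := X) hJ (M * W) ω)
  have p4 := h.trans_le (le_ms (X := X) hJ M ω)
  have p5 := h.trans_le (le_ms (X := Y) hJ (M * W) ω)
  have p6 := h.trans_le (le_ms (X := Y) hJ M ω)
  unfold rf cd
  rw [Real.log_div p1.ne' (by positivity), Real.log_mul (by positivity) (by positivity),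
    Real.log_mul (by positivity) (by positivity), Real.log_div p3.ne' p4.ne', Real.log_div p5.ne' p6.ne']
  ring

theorem mi_mono (hJ : ∀ ω, 0 ≤ J ω) (h1 : ∑ ω, J ω = 1) {M W : ℕ} (hM : 0 < M) (hW : 0 < W) :
    mi J X Y M ≤ mi J X Y (M * W) := by
  have h := kl_rf (X := X) (Y := Y) hJ hM hW
  rw [← sum_product'] at h
  have h2 := gibbs_sum (range (M * W) ×ˢ range (M * W))
    (J := fun x => ms2 J X Y (M * W) x.1 x.2) (r := fun x => rf J X Y M W x.1 x.2)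
    (fun _ _ => ms2_nonneg hJ _ _ _) (fun _ _ => rf_nonneg hJ _ _ _ _) (fun _ _ => rf_pos hJ)
    (by rw [sum_product, sum_product, sum_ms2 (Nat.mul_pos hM hW), h1]; exact sum_rf_le hJ h1 hM hW)
  linarith

theorem mi_one (h1 : ∑ ω, J ω = 1) : mi J X Y 1 = 0 := by
  simp [mi, ent, ent2, ms_one h1, ms2_one h1]

theorem mi_nonneg (hJ : ∀ ω, 0 ≤ J ω) (h1 : ∑ ω, J ω = 1) {M : ℕ} (hM : 0 < M) :
    0 ≤ mi J X Y M := by
  have := mi_mono (X := X) (Y := Y) hJ h1 Nat.one_pos hM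
  rwa [mi_one h1, one_mul] at this

theorem pinsker_rf (hJ : ∀ ω, 0 ≤ J ω) (h1 : ∑ ω, J ω = 1) {M W : ℕ} (hM : 0 < M) (hW : 0 < W)
    {η : ℝ} (hη : 0 < η) :
    ∑ a ∈ range (M * W), ∑ b ∈ range (M * W), |ms2 J X Y (M * W) a b - rf J X Y M W a b| ≤
      (mi J X Y (M * W) - mi J X Y M) / η + η := by
  rw [← kl_rf hJ hM hW, ← sum_product', ← sum_product']
  have h2 := pinsker_sum (range (M * W) ×ˢ range (M * W))
    (J := fun x => ms2 J X Y (M * W) x.1 x.2) (r := fun x => rf J X Y M W x.1 x.2) (m := 1)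
    (fun _ _ => ms2_nonneg hJ _ _ _) (fun _ _ => rf_nonneg hJ _ _ _ _) (fun _ _ => rf_pos hJ) hη
    (by rw [sum_product, sum_ms2 (Nat.mul_pos hM hW), h1])
    (by rw [sum_product]; exact sum_rf_le hJ h1 hM hW)
  simpa using h2

theorem ms2_add (n : ℕ) (a b : ℤ) :
    ms2 J (fun ω => X ω + Y ω) Y n (a + b) b = ms2 J X Y n a b := by
  unfold ms2
  refine sum_congr rfl fun ω _ => ?_
  by_cases h : (n : ℤ) ∣ Y ω - b
  · have : (n : ℤ) ∣ X ω + Y ω - (a + b) ↔ (n : ℤ) ∣ X ω - a := by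
      rw [show X ω + Y ω - (a + b) = (X ω - a) + (Y ω - b) by ring]
      exact dvd_add_left h
    simp only [this]
  · simp [h]

theorem ent2_add (n : ℕ) : ent2 J (fun ω => X ω + Y ω) Y n = ent2 J X Y n := by
  unfold ent2
  simp only [ms2_add]

end Pool.Agent.Lib.MP_0baeaf_nt.H
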