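import Mathlib
import Pool.Agent.Lib.MP_0baeaf_nt.HMass

/-! The inverse theorem for entropy on `ℤ / q^L`: if adding a nearly independent variable does not
create entropy then, wherever that variable branches, the finer digits are already uniform. -/

namespace Pool.Agent.Lib.MP_0baeaf_nt.H

open Finset

/-- every non-multiple of `q` generates all multiples of `q` modulo `q * W` -/
def HQ (q W : ℕ) : Prop :=
  ∀ g h : ℤ, ¬ (q : ℤ) ∣ g → ∃ k : ℕ, k < q * W ∧ ((q * W : ℕ) : ℤ) ∣ (k : ℤ) * g - q * h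

theorem tv_mul {W : ℕ} (hW : 0 < W) {π : ℤ → ℝ} (hπ : Per W π) (g : ℤ) (k : ℕ) :
    ∑ s ∈ range W, |π s - π (s + k * g)| ≤ k * ∑ s ∈ range W, |π s - π (s + g)| := by
  induction k with
  | zero => simp
  | succ k ih =>
    have h1 := sum_shift hW (f := fun s => |π s - π (s + g)|)
      (fun a b h => by
        simp only
        rw [hπ a b h, hπ (a + g) (b + g) (by rwa [add_sub_add_right_eq_sub])]) (k * g)
    have h2 : ∑ s ∈ range W, |π s - π (s + ((k + 1 : ℕ) : ℤ) * g)| ≤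
        ∑ s ∈ range W, (|π s - π (s + k * g)| + |π (s + k * g) - π (s + k * g + g)|) := by
      refine sum_le_sum fun s _ => ?_
      rw [show (s : ℤ) + ((k + 1 : ℕ) : ℤ) * g = s + k * g + g by push_cast; ring]
      exact abs_sub_le _ _ _
    rw [sum_add_distrib, h1] at h2
    push_cast at h2 ⊢
    linarith

theorem def_le {q W : ℕ} (hq : 0 < q) (hW : 0 < W) (hQ : HQ q W) {π : ℤ → ℝ} (hπ : Per (q * W) π)
    (h0 : ∀ s, 0 ≤ π s) {g : ℤ} (hg : ¬ (q : ℤ) ∣ g) :
    ∑ s ∈ range (q * W), π s * Real.log (π s * W / ∑ u ∈ range W, π (s + (q : ℤ) * (u : ℤ))) ≤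
      ((q * W : ℕ) : ℝ) ^ 2 * ∑ s ∈ range (q * W), |π s - π (s + g)| := by
  have hqW := Nat.mul_pos hq hW
  set δ := ∑ s ∈ range (q * W), |π s - π (s + g)| with hδ
  have hδ0 : 0 ≤ δ := sum_nonneg fun _ _ => abs_nonneg _
  have h1 : ∀ s : ℤ, π s * Real.log (π s * W / ∑ u ∈ range W, π (s + (q : ℤ) * (u : ℤ))) ≤
      ∑ u ∈ range W, |π s - π (s + (q : ℤ) * (u : ℤ))| := by
    intro s
    rcases (h0 s).eq_or_lt with h | h
    · rw [← h, zero_mul]; exact sum_nonneg fun _ _ => abs_nonneg _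
    set P := ∑ u ∈ range W, π (s + (q : ℤ) * (u : ℤ)) with hP
    have hle : π s ≤ P := by
      have := single_le_sum (f := fun u : ℕ => π (s + (q : ℤ) * (u : ℤ))) (fun u _ => h0 _)
        (mem_range.2 hW)
      simpa using this
    have hP0 : 0 < P := h.trans_le hle
    have hW' : (0 : ℝ) < W := by exact_mod_cast hW
    have h2 := Real.log_le_sub_one_of_pos (show 0 < π s * W / P by positivity)
    have h3 : π s * W - P ≤ ∑ u ∈ range W, |π s - π (s + (q : ℤ) * (u : ℤ))| := by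
      have : π s * W - P = ∑ u ∈ range W, (π s - π (s + (q : ℤ) * (u : ℤ))) := by
        rw [sum_sub_distrib]; simp [hP, mul_comm]
      rw [this]; exact sum_le_sum fun _ _ => le_abs_self _
    have h4 : 0 ≤ ∑ u ∈ range W, |π s - π (s + (q : ℤ) * (u : ℤ))| := sum_nonneg fun _ _ => abs_nonneg _
    calc π s * Real.log (π s * W / P) ≤ π s * (π s * W / P - 1) := mul_le_mul_of_nonneg_left h2 h.le
      _ = (π s / P) * (π s * W - P) := by field_simp
      _ ≤ (π s / P) * ∑ u ∈ range W, |π s - π (s + (q : ℤ) * (u : ℤ))| :=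
          mul_le_mul_of_nonneg_left h3 (by positivity)
      _ ≤ _ := mul_le_of_le_one_left h4 ((div_le_one hP0).2 hle)
  have h2 : ∀ u : ℕ, ∑ s ∈ range (q * W), |π s - π (s + (q : ℤ) * (u : ℤ))| ≤ ((q * W : ℕ) : ℝ) * δ := by
    intro u
    obtain ⟨k, hk, hd⟩ := hQ g u hg
    have h3 := tv_mul hqW hπ g k
    have h4 : ∀ s : ℕ, π (s + (q : ℤ) * (u : ℤ)) = π (s + k * g) := fun s =>
      (hπ _ _ (by rwa [add_sub_add_left_eq_sub])).symm
    simp only [h4]
    exact h3.trans (mul_le_mul_of_nonneg_right (by exact_mod_cast hk.le) hδ0)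
  refine (sum_le_sum fun (s : ℕ) _ => h1 s).trans ?_
  rw [sum_comm]
  refine (sum_le_sum fun u _ => h2 u).trans ?_
  rw [sum_const, card_range, nsmul_eq_mul, sq, mul_assoc]
  refine mul_le_mul_of_nonneg_right ?_ (by positivity)
  exact_mod_cast Nat.le_mul_of_pos_left W hq

variable {Ω : Type*} [Fintype Ω] {J : Ω → ℝ} {X Y : Ω → ℤ}

noncomputable def collF (J : Ω → ℝ) (Y : Ω → ℤ) (M q W : ℕ) (b : ℤ) : ℝ :=
  ∑ t ∈ range (q * W), cd J Y M (q * W) (b + (M : ℤ) * (t : ℤ)) * (1 - cd J Y M q (b + (M : ℤ) * (t : ℤ)))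

noncomputable def defF (J : Ω → ℝ) (Z : Ω → ℤ) (M q W : ℕ) (c : ℤ) : ℝ :=
  ∑ s ∈ range (q * W), cd J Z M (q * W) (c + (M : ℤ) * (s : ℤ)) *
    Real.log (ms J Z (M * (q * W)) (c + (M : ℤ) * (s : ℤ)) * W / ms J Z (M * q) (c + (M : ℤ) * (s : ℤ)))

theorem cd_le_one (hJ : ∀ ω, 0 ≤ J ω) (M W : ℕ) (a : ℤ) : cd J X M W a ≤ 1 :=
  div_le_one_of_le₀ (ms_mul_le hJ _ _ _) (ms_nonneg hJ _ _)

theorem collF_nonneg (hJ : ∀ ω, 0 ≤ J ω) (M q W : ℕ) (b : ℤ) : 0 ≤ collF J Y M q W b :=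
  sum_nonneg fun _ _ => mul_nonneg (cd_nonneg hJ _ _ _) (sub_nonneg.2 (cd_le_one hJ _ _ _))

theorem collF_le_one (hJ : ∀ ω, 0 ≤ J ω) {M q W : ℕ} (hM : 0 < M) (hW : 0 < q * W) (b : ℤ) :
    collF J Y M q W b ≤ 1 := by
  refine le_trans (sum_le_sum fun t _ => ?_) (sum_cd_le (J := J) (X := Y) hM hW b)
  exact mul_le_of_le_one_right (cd_nonneg hJ _ _ _) (by linarith [cd_nonneg (X := Y) hJ M q (b + M * t)])

theorem per_step {M W : ℕ} {a b : ℤ} (h : (M : ℤ) ∣ a - b) (hW : 0 < W) {f : ℤ → ℝ}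
    (hf : Per (M * W) f) :
    ∑ s ∈ range W, f (a + (M : ℤ) * (s : ℤ)) = ∑ s ∈ range W, f (b + (M : ℤ) * (s : ℤ)) := by
  obtain ⟨k, hk⟩ := h
  rw [← sum_shift hW (f := fun s => f (b + M * s)) (fun x y hxy => hf _ _ (by
    rw [show b + M * x - (b + M * y) = M * (x - y) by ring]; push_cast
    exact mul_dvd_mul_left _ hxy)) k]
  refine sum_congr rfl fun s _ => ?_
  congr 1; linear_combination hk

theorem dvd_mid {M q W : ℕ} {x : ℤ} (h : ((M * (q * W) : ℕ) : ℤ) ∣ x) : ((M * q : ℕ) : ℤ) ∣ x :=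
  dvd_of_mul_dvd (W := W) (by rwa [mul_assoc])

theorem collF_per {M q W : ℕ} (hW : 0 < q * W) : Per M (collF J Y M q W) := by
  intro a b h
  exact per_step h hW (f := fun x => cd J Y M (q * W) x * (1 - cd J Y M q x)) fun x y hxy => by
    simp only
    rw [cd_per M (q * W) x y hxy, cd_per M q x y (dvd_mid hxy)]

theorem defF_per {M q W : ℕ} (hW : 0 < q * W) : Per M (defF J X M q W) := by
  intro a b h
  exact per_step h hW (f := fun x => cd J X M (q * W) x *
      Real.log (ms J X (M * (q * W)) x * W / ms J X (M * q) x)) fun x y hxy => by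
    simp only
    rw [cd_per M (q * W) x y hxy, ms_per _ x y hxy, ms_per _ x y (dvd_mid hxy)]

theorem cd_per' (M W : ℕ) (c : ℤ) : Per W (fun s => cd J X M W (c + M * s)) := by
  intro x y hxy
  refine cd_per M W _ _ ?_
  rw [show c + M * x - (c + M * y) = M * (x - y) by ring]; push_cast
  exact mul_dvd_mul_left _ hxy

theorem sum_cd_mid {M q W : ℕ} (hM : 0 < M) (hq : 0 < q) (hW : 0 < W) (c s : ℤ) :
    ∑ u ∈ range W, cd J X M (q * W) (c + M * (s + (q : ℤ) * (u : ℤ))) = cd J X M q (c + M * s) := by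
  simp only [cd_shift]
  rw [← sum_div, ← ms_fiber (Nat.mul_pos hM hq) hW (c + M * s), mul_assoc]
  congr 1
  refine sum_congr rfl fun u _ => ?_
  congr 1; push_cast; ring

theorem defF_le (hJ : ∀ ω, 0 ≤ J ω) {M q W : ℕ} (hM : 0 < M) (hq : 0 < q) (hW : 0 < W)
    (hQ : HQ q W) (c : ℤ) {g : ℤ} (hg : ¬ (q : ℤ) ∣ g) :
    defF J X M q W c ≤ ((q * W : ℕ) : ℝ) ^ 2 * ∑ s ∈ range (q * W),
      |cd J X M (q * W) (c + M * s) - cd J X M (q * W) (c + M * (s + g))| := by
  refine le_trans (le_of_eq ?_) (def_le hq hW hQ (cd_per' M (q * W) c) (fun _ => cd_nonneg hJ _ _ _) hg)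
  unfold defF
  refine sum_congr rfl fun s _ => ?_
  rw [sum_cd_mid hM hq hW]
  rcases (ms_nonneg (X := X) hJ M c).eq_or_lt with h | h
  · rw [cd_shift, ← h]; simp
  · congr 2
    rw [cd_shift, cd_shift]
    field_simp

theorem one_sub_cd {M q W : ℕ} (hM : 0 < M) (hq : 0 < q) (hW : 0 < W) {b : ℤ}
    (hb : 0 < ms J Y M b) (t : ℤ) :
    1 - cd J Y M q (b + M * t) = ∑ t' ∈ range (q * W),
      if (q : ℤ) ∣ t - t' then 0 else cd J Y M (q * W) (b + (M : ℤ) * (t' : ℤ)) := by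
  have h1 : cd J Y M q (b + M * t) = ∑ t' ∈ range (q * W),
      if (q : ℤ) ∣ t - t' then cd J Y M (q * W) (b + (M : ℤ) * (t' : ℤ)) else 0 := by
    rw [sum_mul_range q W (fun t' => if (q : ℤ) ∣ t - t' then cd J Y M (q * W) (b + (M : ℤ) * t') else 0),
      ← sum_ite_dvd hq t (cd J Y M q (b + M * t))]
    refine sum_congr rfl fun u _ => ?_
    have : ∀ v : ℕ, ((q : ℤ) ∣ t - (u + (q : ℤ) * (v : ℤ))) ↔ (q : ℤ) ∣ t - u :=
      fun v => dvd_sub_congr ⟨v, by ring⟩
    simp only [this]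
    split_ifs with h
    · rw [sum_cd_mid hM hq hW]; exact cd_per' M q b _ _ h
    · simp
  rw [h1, ← sum_cd_eq (J := J) (X := Y) hM (Nat.mul_pos hq hW) hb, ← sum_sub_distrib]
  refine sum_congr rfl fun t' _ => ?_
  split_ifs <;> simp

theorem sat_local (hJ : ∀ ω, 0 ≤ J ω) {M q W : ℕ} (hM : 0 < M) (hq : 0 < q) (hW : 0 < W)
    (hQ : HQ q W) {Z : Ω → ℤ} (a c : ℤ) {b : ℤ} (hb : 0 < ms J Y M b) :
    collF J Y M q W b * defF J Z M q W c ≤ 2 * ((q * W : ℕ) : ℝ) ^ 2 *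
      ∑ t ∈ range (q * W), cd J Y M (q * W) (b + (M : ℤ) * (t : ℤ)) * ∑ s ∈ range (q * W),
        |cd J X M (q * W) (a + M * s) - cd J Z M (q * W) (c + M * (s + t))| := by
  have hqW := Nat.mul_pos hq hW
  set x : ℕ → ℝ := fun t => ∑ s ∈ range (q * W),
    |cd J X M (q * W) (a + M * s) - cd J Z M (q * W) (c + M * (s + t))| with hx
  set π : ℕ → ℝ := fun t => cd J Y M (q * W) (b + (M : ℤ) * (t : ℤ)) with hπ
  set K : ℝ := ((q * W : ℕ) : ℝ) ^ 2 with hK
  have hK0 : 0 ≤ K := by positivity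
  have hx0 : ∀ t, 0 ≤ x t := fun t => sum_nonneg fun _ _ => abs_nonneg _
  have hπ0 : ∀ t, 0 ≤ π t := fun t => cd_nonneg hJ _ _ _
  have hπ1 : ∑ t ∈ range (q * W), π t = 1 := sum_cd_eq hM hqW hb
  have h1 : ∀ t t' : ℕ, ¬ (q : ℤ) ∣ (t : ℤ) - t' → defF J Z M q W c ≤ K * (x t + x t') := by
    intro t t' h
    refine (defF_le hJ hM hq hW hQ c h).trans (mul_le_mul_of_nonneg_left ?_ hK0)
    rw [← sum_shift hqW (f := fun s => |cd J Z M (q * W) (c + M * s) -
        cd J Z M (q * W) (c + M * (s + ((t : ℤ) - t')))|) (fun u v huv => by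
      have e1 := cd_per' (J := J) (X := Z) M (q * W) c u v huv
      have e2 := cd_per' (J := J) (X := Z) M (q * W) c (u + (t - t')) (v + (t - t'))
        (by rwa [add_sub_add_right_eq_sub])
      simp only at e1 e2 ⊢
      rw [e1, e2]) t']
    rw [hx]; simp only
    rw [← sum_add_distrib]
    refine sum_le_sum fun s _ => ?_
    rw [show (s : ℤ) + t' + (t - t') = s + t by ring, add_comm |_| |_|,
      abs_sub_comm (cd J X M (q * W) (a + M * s)) (cd J Z M (q * W) (c + M * (s + t')))]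
    exact abs_sub_le _ _ _
  have h2 : collF J Y M q W b * defF J Z M q W c ≤
      ∑ t ∈ range (q * W), ∑ t' ∈ range (q * W), π t * π t' * (K * (x t + x t')) := by
    unfold collF
    rw [sum_mul]
    refine sum_le_sum fun t _ => ?_
    rw [one_sub_cd hM hq hW hb, mul_sum, sum_mul]
    refine sum_le_sum fun t' _ => ?_
    split_ifs with h
    · have := hx0 t; have := hx0 t'; have := hπ0 t; have := hπ0 t'
      simp only [mul_zero, zero_mul]; positivity
    · exact mul_le_mul_of_nonneg_left (h1 t t' h) (mul_nonneg (hπ0 t) (hπ0 t'))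
  refine h2.trans (le_of_eq ?_)
  have e : ∀ t t' : ℕ, π t * π t' * (K * (x t + x t')) = K * (π t * x t) * π t' + K * π t * (π t' * x t') :=
    fun t t' => by ring
  simp only [e, sum_add_distrib, ← mul_sum, hπ1, ← sum_mul]
  ring

theorem sat (hJ : ∀ ω, 0 ≤ J ω) (h1 : ∑ ω, J ω = 1) {M q W : ℕ} (hM : 0 < M) (hq : 0 < q)
    (hW : 0 < W) (hQ : HQ q W) {η : ℝ} (hη : 0 < η) :
    ∑ ω, J ω * (collF J Y M q W (Y ω) * defF J (fun ω => X ω + Y ω) M q W (X ω + Y ω)) ≤
      2 * ((q * W : ℕ) : ℝ) ^ 2 * ((mi J X Y (M * (q * W)) - mi J X Y M +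
        (mi J (fun ω => X ω + Y ω) Y (M * (q * W)) - mi J (fun ω => X ω + Y ω) Y M)) / η + 2 * η) := by
  have hqW := Nat.mul_pos hq hW
  set Z : Ω → ℤ := fun ω => X ω + Y ω with hZ
  have hy := pinsker_rf (X := X) (Y := Y) hJ h1 hM hqW hη
  have hz := pinsker_rf (X := Z) (Y := Y) hJ h1 hM hqW hη
  have hz2 : ∑ a ∈ range (M * (q * W)), ∑ b ∈ range (M * (q * W)),
      |ms2 J Z Y (M * (q * W)) a b - rf J Z Y M (q * W) a b| =
      ∑ a ∈ range (M * (q * W)), ∑ b ∈ range (M * (q * W)),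
      |ms2 J X Y (M * (q * W)) a b - rf J Z Y M (q * W) (a + b) b| := by
    rw [sum_comm, sum_comm (s := range (M * (q * W))) (f := fun a b : ℕ =>
      |ms2 J X Y (M * (q * W)) a b - rf J Z Y M (q * W) (a + b) b|)]
    refine sum_congr rfl fun b _ => ?_
    rw [← sum_shift (Nat.mul_pos hM hqW)
      (f := fun a => |ms2 J Z Y (M * (q * W)) a b - rf J Z Y M (q * W) a b|) (fun u v huv => by
        simp only
        rw [ms2_per _ u v b b huv (by simp), rf_per M (q * W) u v b b huv (by simp)]) b]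
    simp only [hZ, ms2_add]
  rw [hz2] at hz
  have h3 : ∑ a ∈ range (M * (q * W)), ∑ b ∈ range (M * (q * W)),
      |rf J X Y M (q * W) a b - rf J Z Y M (q * W) (a + b) b| ≤
      (mi J X Y (M * (q * W)) - mi J X Y M + (mi J Z Y (M * (q * W)) - mi J Z Y M)) / η + 2 * η := by
    rw [add_div]
    refine le_trans ?_ (le_trans (add_le_add hy hz) (le_of_eq (by ring)))
    rw [← sum_add_distrib]
    refine sum_le_sum fun a _ => ?_
    rw [← sum_add_distrib]
    refine sum_le_sum fun b _ => ?_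
    rw [abs_sub_comm (ms2 J X Y (M * (q * W)) a b) (rf J X Y M (q * W) a b)]
    exact abs_sub_le _ _ _
  refine le_trans ?_ (mul_le_mul_of_nonneg_left h3 (by positivity))
  rw [exp2_eq hM (g := fun a b => collF J Y M q W b * defF J Z M q W (a + b)) (fun a a' b b' h h' => by
      simp only
      rw [collF_per hqW b b' h', defF_per hqW (a + b) (a' + b') (by
        rw [show a + b - (a' + b') = (a - a') + (b - b') by ring]; exact dvd_add h h')]),
    sum2_mul_range M (q * W) (fun a b => |rf J X Y M (q * W) a b - rf J Z Y M (q * W) (a + b) b|),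
    mul_sum]
  refine sum_le_sum fun a _ => ?_
  rw [mul_sum]
  refine sum_le_sum fun b _ => ?_
  rcases (ms2_nonneg (X := X) (Y := Y) hJ M a b).eq_or_lt with h | h
  · rw [← h, zero_mul]; positivity
  have hb := h.trans_le (ms2_le_right hJ _ _ _)
  refine (mul_le_mul_of_nonneg_left (sat_local (X := X) hJ hM hq hW hQ a (a + b) hb) h.le).trans
    (le_of_eq ?_)
  rw [mul_left_comm]
  congr 1
  rw [mul_sum]
  refine sum_congr rfl fun t _ => ?_
  rw [← mul_assoc, mul_sum]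
  refine sum_congr rfl fun s _ => ?_
  unfold rf
  rw [hZ, ms2_add, ms2_per M (a + (M : ℤ) * s) a (b + (M : ℤ) * t) b ⟨s, by ring⟩ ⟨t, by ring⟩,
    show (a : ℤ) + M * s + (b + M * t) = a + b + M * (s + t) by ring,
    ← abs_of_nonneg (mul_nonneg h.le (cd_nonneg (X := Y) hJ M (q * W) (b + M * t))), ← abs_mul]
  congr 1; ring

theorem neg_log_le {p η : ℝ} (hp : 0 < p) (hp1 : p ≤ 1) (hη : 0 < η) :
    -Real.log p ≤ (1 - p) / η + η / p := by
  set a := Real.sqrt p
  have ha0 : 0 < a := Real.sqrt_pos.2 hp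
  have e1 : p = a ^ 2 := (Real.sq_sqrt hp.le).symm
  have ha1 : a ≤ 1 := Real.sqrt_le_one.2 hp1
  have h2 : Real.log (1 / a) ≤ 1 / a - 1 := Real.log_le_sub_one_of_pos (by positivity)
  rw [Real.log_div one_ne_zero ha0.ne', Real.log_one] at h2
  rw [e1, Real.log_pow]
  have h3 : 2 * (1 / a - 1) ≤ (1 - a ^ 2) / η + η / a ^ 2 := by
    have e : (1 - a ^ 2) / η + η / a ^ 2 - 2 * (1 / a - 1) =
        ((η - a * (1 - a)) ^ 2 + 2 * a ^ 3 * (1 - a)) / (η * a ^ 2) := by field_simp; ring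
    have : 0 ≤ ((η - a * (1 - a)) ^ 2 + 2 * a ^ 3 * (1 - a)) / (η * a ^ 2) := by
      have := sub_nonneg.2 ha1
      positivity
    linarith
  push_cast; linarith

theorem ms_mul_cd (hJ : ∀ ω, 0 ≤ J ω) (M W : ℕ) (a s : ℤ) :
    ms J X M a * cd J X M W (a + M * s) = ms J X (M * W) (a + M * s) := by
  rcases (ms_nonneg (X := X) hJ M a).eq_or_lt with h | h
  · have h2 := ms_mul_le (X := X) hJ M W (a + M * s)
    rw [ms_per M (a + M * s) a ⟨s, by ring⟩, ← h] at h2
    rw [← h, zero_mul]; exact le_antisymm (ms_nonneg hJ _ _) h2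
  · rw [cd_shift]; field_simp

theorem coll_lower (hJ : ∀ ω, 0 ≤ J ω) (h1 : ∑ ω, J ω = 1) {M q W : ℕ} (hM : 0 < M) (hq : 0 < q)
    (hW : 0 < W) {η : ℝ} (hη : 0 < η) :
    η * (ent J Y (M * q) - ent J Y M - η * q) ≤ ∑ ω, J ω * collF J Y M q W (Y ω) := by
  have hqW := Nat.mul_pos hq hW
  have e1 : ∑ ω, J ω * collF J Y M q W (Y ω) = ∑ ω, J ω * (1 - cd J Y M q (Y ω)) := by
    rw [exp_eq hM (collF_per hqW), exp_eq (Nat.mul_pos hM hqW) (g := fun x => 1 - cd J Y M q x)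
      (fun x y h => by simp only; rw [cd_per M q x y (dvd_mid h)]),
      sum_mul_range M (q * W) (fun x => ms J Y (M * (q * W)) x * (1 - cd J Y M q x))]
    refine sum_congr rfl fun b _ => ?_
    unfold collF
    rw [mul_sum]
    refine sum_congr rfl fun t _ => ?_
    rw [← mul_assoc, ms_mul_cd hJ]
  have e2 : ∑ ω, J ω * (1 / cd J Y M q (Y ω)) ≤ q := by
    rw [exp_eq (Nat.mul_pos hM hq) (g := fun x => 1 / cd J Y M q x)
      (fun x y h => by simp only; rw [cd_per M q x y h])]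
    have : ∑ a ∈ range (M * q), ms J Y M a = q := by
      rw [sum_per_mul q (ms_per M), sum_ms hM, h1, mul_one]
    rw [← this]
    refine sum_le_sum fun a _ => ?_
    unfold cd
    rcases (ms_nonneg (X := Y) hJ (M * q) a).eq_or_lt with h | h
    · rw [← h, zero_mul]; exact ms_nonneg hJ _ _
    · rw [one_div_div]; exact le_of_eq (by field_simp)
  have e3 : ent J Y (M * q) - ent J Y M ≤
      (∑ ω, J ω * (1 - cd J Y M q (Y ω))) / η + η * ∑ ω, J ω * (1 / cd J Y M q (Y ω)) := by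
    unfold ent
    rw [sum_div, mul_sum, ← sum_add_distrib, ← sum_neg_distrib, ← sum_neg_distrib, ← sum_sub_distrib]
    refine sum_le_sum fun ω _ => ?_
    rcases (hJ ω).eq_or_lt with h | h
    · rw [← h]; simp
    have p3 := h.trans_le (le_ms (X := Y) hJ (M * q) ω)
    have p4 := h.trans_le (le_ms (X := Y) hJ M ω)
    have h2 := neg_log_le (p := cd J Y M q (Y ω)) (div_pos p3 p4) (cd_le_one hJ _ _ _) hη
    have h3 : Real.log (cd J Y M q (Y ω)) = Real.log (ms J Y (M * q) (Y ω)) - Real.log (ms J Y M (Y ω)) :=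
      Real.log_div p3.ne' p4.ne'
    have h4 := mul_le_mul_of_nonneg_left h2 h.le
    rw [h3] at h4
    calc _ = J ω * -(Real.log (ms J Y (M * q) (Y ω)) - Real.log (ms J Y M (Y ω))) := by ring
      _ ≤ _ := h4
      _ = _ := by ring
  rw [e1]
  have h5 : ent J Y (M * q) - ent J Y M - η * q ≤ (∑ ω, J ω * (1 - cd J Y M q (Y ω))) / η := by
    nlinarith
  calc _ ≤ η * ((∑ ω, J ω * (1 - cd J Y M q (Y ω))) / η) := mul_le_mul_of_nonneg_left h5 hη.le
    _ = _ := by field_simp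

end Pool.Agent.Lib.MP_0baeaf_nt.H
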