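import Mathlib
import Pool.Agent.Lib.MP_0baeaf_nt.HSat

/-! The flattening inequality. -/

namespace Pool.Agent.Lib.MP_0baeaf_nt.H

open Finset

/-- bound for one window of digits, for arbitrary conditional masses -/
def Win (M W : ℕ) (φ₁ φ₂ : ℤ → ℝ) (sup : ℤ → Prop) (N K : ℝ) : Prop :=
  ∀ (c : ℤ) (m : ℕ → ℝ), (∀ s, 0 ≤ m s) → (∀ s : ℕ, 0 < m s → sup (c + (M : ℤ) * (s : ℤ))) →
    ∑ s ∈ range W, m s * (φ₂ (c + (M : ℤ) * (s : ℤ)) - φ₁ c) ≤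
      N * ∑ s ∈ range W, m s +
        (K + 1) * ∑ s ∈ range W, m s * Real.log (m s * W / ∑ s ∈ range W, m s)

variable {Ω : Type*} [Fintype Ω] {J : Ω → ℝ} {X Y Z : Ω → ℤ}

noncomputable def gF (J : Ω → ℝ) (Z : Ω → ℤ) (M W : ℕ) (φ₁ φ₂ : ℤ → ℝ) (x : ℤ) : ℝ :=
  φ₂ x - φ₁ x - Real.log (ms J Z (M * W) x * W / ms J Z M x)

theorem gF_per {M W : ℕ} {φ₁ φ₂ : ℤ → ℝ} (h1 : Per M φ₁) (h2 : Per (M * W) φ₂) :
    Per (M * W) (gF J Z M W φ₁ φ₂) := by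
  intro a b h
  unfold gF
  rw [h2 a b h, h1 a b (dvd_of_mul_dvd h), ms_per _ a b h, ms_per _ a b (dvd_of_mul_dvd h)]

theorem winT (hJ : ∀ ω, 0 ≤ J ω) {M W : ℕ} (hM : 0 < M) (hW : 0 < W) {φ₁ φ₂ : ℤ → ℝ}
    {sup : ℤ → Prop} {N K : ℝ} (h : Win M W φ₁ φ₂ sup N K) (h1 : Per M φ₁)
    (hs : ∀ ω, 0 < J ω → ∀ x, ((M * W : ℕ) : ℤ) ∣ Z ω - x → sup x) (c : ℤ) :
    ∑ s ∈ range W, ms J Z (M * W) (c + (M : ℤ) * (s : ℤ)) * gF J Z M W φ₁ φ₂ (c + (M : ℤ) * (s : ℤ)) ≤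
      N * ms J Z M c + K * ∑ s ∈ range W, ms J Z (M * W) (c + (M : ℤ) * (s : ℤ)) *
        Real.log (ms J Z (M * W) (c + (M : ℤ) * (s : ℤ)) * W / ms J Z M (c + (M : ℤ) * (s : ℤ))) := by
  have h2 := h c (fun s => ms J Z (M * W) (c + (M : ℤ) * (s : ℤ))) (fun s => ms_nonneg hJ _ _)
    (fun s h0 => by
      obtain ⟨ω, h3, h4⟩ := ms_pos_exists h0
      exact hs ω h3 _ h4)
  simp only [ms_fiber hM hW] at h2
  have e1 : ∀ s : ℕ, φ₁ (c + (M : ℤ) * (s : ℤ)) = φ₁ c := fun s => h1 _ _ ⟨s, by ring⟩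
  have e2 : ∀ s : ℕ, ms J Z M (c + (M : ℤ) * (s : ℤ)) = ms J Z M c := fun s => ms_per M _ _ ⟨s, by ring⟩
  unfold gF
  simp only [e1, e2, mul_sub _ (_ - _) _, sum_sub_distrib]
  linarith

theorem win1 (hJ : ∀ ω, 0 ≤ J ω) (hJ1 : ∑ ω, J ω = 1) {M W : ℕ} (hM : 0 < M) (hW : 0 < W)
    {φ₁ φ₂ : ℤ → ℝ} {sup : ℤ → Prop} {N : ℝ} (h : Win M W φ₁ φ₂ sup N 0) (h1 : Per M φ₁)
    (h2 : Per (M * W) φ₂) (hs : ∀ ω, 0 < J ω → ∀ x, ((M * W : ℕ) : ℤ) ∣ Z ω - x → sup x) :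
    ∑ ω, J ω * gF J Z M W φ₁ φ₂ (Z ω) ≤ N := by
  rw [exp_eq (Nat.mul_pos hM hW) (gF_per h1 h2),
    sum_mul_range M W (fun x => ms J Z (M * W) x * gF J Z M W φ₁ φ₂ x)]
  refine (sum_le_sum fun (c : ℕ) _ => winT hJ hM hW h h1 hs c).trans (le_of_eq ?_)
  simp only [zero_mul, add_zero, ← mul_sum]
  rw [sum_ms hM, hJ1, mul_one]

theorem win2 (hJ : ∀ ω, 0 ≤ J ω) (hJ1 : ∑ ω, J ω = 1) {M q W : ℕ} (hM : 0 < M) (hq : 0 < q)
    (hW : 0 < W) {φ₁ φ₂ : ℤ → ℝ} {sup : ℤ → Prop} {N χ K : ℝ}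
    (h : Win (M * q) W φ₁ φ₂ sup N 0) (h' : Win (M * q) W φ₁ φ₂ sup χ K) (h1 : Per (M * q) φ₁)
    (h2 : Per (M * q * W) φ₂) (hs : ∀ ω, 0 < J ω → ∀ x, ((M * q * W : ℕ) : ℤ) ∣ Z ω - x → sup x) :
    ∑ ω, J ω * gF J Z (M * q) W φ₁ φ₂ (Z ω) ≤
      N - (N - χ) * ∑ ω, J ω * collF J Y M q W (Y ω) +
        K * ∑ ω, J ω * (collF J Y M q W (Y ω) * defF J Z M q W (Z ω)) := by
  have hqW := Nat.mul_pos hq hW
  have hMq := Nat.mul_pos hM hq
  have hg : Per (M * (q * W)) (gF J Z (M * q) W φ₁ φ₂) := by rw [← mul_assoc]; exact gF_per h1 h2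
  set T : ℤ → ℝ := fun c => ∑ s ∈ range (q * W), cd J Z M (q * W) (c + (M : ℤ) * (s : ℤ)) *
    gF J Z (M * q) W φ₁ φ₂ (c + (M : ℤ) * (s : ℤ)) with hT
  have hTper : Per M T := fun a b hab =>
    per_step hab hqW (f := fun x => cd J Z M (q * W) x * gF J Z (M * q) W φ₁ φ₂ x) fun x y hxy => by
      simp only
      rw [cd_per M (q * W) x y hxy, hg x y hxy]
  have hsplit : ∀ (c : ℤ) (f : ℤ → ℝ), ∑ s ∈ range (q * W), f (c + (M : ℤ) * (s : ℤ)) =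
      ∑ u ∈ range q, ∑ v ∈ range W, f (c + (M : ℤ) * (u : ℤ) + ((M * q : ℕ) : ℤ) * (v : ℤ)) := by
    intro c f
    rw [sum_mul_range q W (fun s => f (c + M * s))]
    refine sum_congr rfl fun u _ => sum_congr rfl fun v _ => ?_
    congr 1; push_cast; ring
  have hmT : ∀ c : ℤ, ms J Z M c * T c = ∑ s ∈ range (q * W),
      ms J Z (M * q * W) (c + (M : ℤ) * (s : ℤ)) * gF J Z (M * q) W φ₁ φ₂ (c + (M : ℤ) * (s : ℤ)) := by
    intro c
    rw [hT]; simp only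
    rw [mul_sum]
    refine sum_congr rfl fun s _ => ?_
    rw [← mul_assoc, ms_mul_cd hJ, mul_assoc M]
  have e1 : ∑ ω, J ω * gF J Z (M * q) W φ₁ φ₂ (Z ω) = ∑ ω, J ω * T (Z ω) := by
    rw [exp_eq hM hTper, exp_eq (Nat.mul_pos hM hqW) hg,
      sum_mul_range M (q * W) (fun x => ms J Z (M * (q * W)) x * gF J Z (M * q) W φ₁ φ₂ x)]
    refine sum_congr rfl fun c _ => ?_
    rw [hmT, mul_assoc M]
  have hb : ∀ {N' K' : ℝ}, Win (M * q) W φ₁ φ₂ sup N' K' → ∀ c : ℤ, 0 < ms J Z M c →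
      T c ≤ N' + K' * defF J Z M q W c := by
    intro N' K' hw c hc
    refine le_of_mul_le_mul_left ?_ hc
    rw [hmT, hsplit c (fun x => ms J Z (M * q * W) x * gF J Z (M * q) W φ₁ φ₂ x)]
    refine (sum_le_sum fun (u : ℕ) _ => winT hJ hMq hW hw h1 hs (c + M * u)).trans (le_of_eq ?_)
    rw [sum_add_distrib, ← mul_sum, ← mul_sum, ms_fiber hM hq,
      ← hsplit c (fun x => ms J Z (M * q * W) x * Real.log (ms J Z (M * q * W) x * W / ms J Z (M * q) x))]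
    unfold defF
    rw [mul_add, mul_comm N', mul_left_comm, mul_sum _ _ (ms J Z M c)]
    congr 2
    refine sum_congr rfl fun s _ => ?_
    rw [← mul_assoc, ms_mul_cd hJ, mul_assoc M]
  rw [e1]
  have e2 : N - (N - χ) * ∑ ω, J ω * collF J Y M q W (Y ω) +
      K * ∑ ω, J ω * (collF J Y M q W (Y ω) * defF J Z M q W (Z ω)) =
      ∑ ω, J ω * (N - (N - χ) * collF J Y M q W (Y ω) +
        K * (collF J Y M q W (Y ω) * defF J Z M q W (Z ω))) := by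
    have : ∀ ω, J ω * (N - (N - χ) * collF J Y M q W (Y ω) +
        K * (collF J Y M q W (Y ω) * defF J Z M q W (Z ω))) = N * J ω -
        (N - χ) * (J ω * collF J Y M q W (Y ω)) +
        K * (J ω * (collF J Y M q W (Y ω) * defF J Z M q W (Z ω))) := fun ω => by ring
    simp only [this, sum_add_distrib, sum_sub_distrib, ← mul_sum, hJ1, mul_one]
  rw [e2]
  refine sum_le_sum fun ω _ => ?_
  rcases (hJ ω).eq_or_lt with h0 | h0
  · rw [← h0]; simp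
  refine mul_le_mul_of_nonneg_left ?_ h0.le
  have hc := h0.trans_le (le_ms (X := Z) hJ M ω)
  have b1 := hb h _ hc
  have b2 := hb h' _ hc
  have c0 := collF_nonneg (Y := Y) hJ M q W (Y ω)
  have c1 := collF_le_one (Y := Y) hJ hM hqW (Y ω)
  nlinarith [mul_le_mul_of_nonneg_left b1 (sub_nonneg.2 c1), mul_le_mul_of_nonneg_left b2 c0]

noncomputable def aF (J : Ω → ℝ) (Z : Ω → ℤ) (q : ℕ) (φ : ℕ → ℤ → ℝ) (j : ℕ) : ℝ :=
  ∑ ω, J ω * φ j (Z ω) - (j * Real.log q - ent J Z (q ^ j))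

theorem aF_sub (hJ : ∀ ω, 0 ≤ J ω) (hJ1 : ∑ ω, J ω = 1) {q : ℕ} (hq : 0 < q) (φ : ℕ → ℤ → ℝ)
    (j l : ℕ) : aF J Z q φ (j + l) - aF J Z q φ j =
      ∑ ω, J ω * gF J Z (q ^ j) (q ^ l) (φ j) (φ (j + l)) (Z ω) := by
  have hq' : (0 : ℝ) < q := by exact_mod_cast hq
  have e : (l : ℝ) * Real.log q = ∑ ω, J ω * (l * Real.log q) := by rw [← sum_mul, hJ1, one_mul]
  unfold aF ent gF
  rw [Nat.cast_add, add_mul, e, pow_add]
  have : ∀ ω, J ω * (φ (j + l) (Z ω) - φ j (Z ω) - Real.log (ms J Z (q ^ j * q ^ l) (Z ω) *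
      ((q ^ l : ℕ) : ℝ) / ms J Z (q ^ j) (Z ω))) = J ω * φ (j + l) (Z ω) - J ω * φ j (Z ω) -
      J ω * Real.log (ms J Z (q ^ j * q ^ l) (Z ω)) - J ω * (l * Real.log q) +
      J ω * Real.log (ms J Z (q ^ j) (Z ω)) := by
    intro ω
    rcases (hJ ω).eq_or_lt with h | h
    · rw [← h]; simp
    have p3 := h.trans_le (le_ms (X := Z) hJ (q ^ j * q ^ l) ω)
    have p4 := h.trans_le (le_ms (X := Z) hJ (q ^ j) ω)
    rw [Real.log_div (by positivity) p4.ne', Real.log_mul p3.ne' (by positivity), Nat.cast_pow,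
      Real.log_pow]
    ring
  simp only [this, sum_add_distrib, sum_sub_distrib]
  ring

theorem tele (a : ℕ → ℝ) (D n : ℕ) :
    ∑ j ∈ range n, (a (j + D) - a j) = ∑ i ∈ range D, (a (n + i) - a i) := by
  have h1 := sum_range_add a n D
  have h2 := sum_range_add a D n
  rw [add_comm D n] at h2
  simp only [sum_sub_distrib]
  have : ∑ j ∈ range n, a (j + D) = ∑ j ∈ range n, a (D + j) := by simp only [add_comm]
  linarith

/-- the finite form of the flattening inequality; windows have `D + 1` digits and `L = n + D` -/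
theorem core (hJ : ∀ ω, 0 ≤ J ω) (hJ1 : ∑ ω, J ω = 1) {q : ℕ} (hq : 0 < q) {D n : ℕ}
    (hQ : HQ q (q ^ D)) {φ : ℕ → ℤ → ℝ} {sup : ℕ → ℤ → Prop} (hφ : ∀ j, Per (q ^ j) (φ j))
    (hφ0 : ∀ x, φ 0 x = 0)
    (hs : ∀ j ≤ n + D, ∀ ω, 0 < J ω → ∀ x, ((q ^ j : ℕ) : ℤ) ∣ X ω + Y ω - x → sup j x)
    {N₁ N χ K η ζ : ℝ} (hN₁ : 0 ≤ N₁) (hχ : χ ≤ N) (hK : 0 ≤ K) (hη : 0 < η) (hζ : 0 < ζ)
    (w1 : ∀ j, j + 1 ≤ n + D → Win (q ^ j) (q ^ 1) (φ j) (φ (j + 1)) (sup (j + 1)) N₁ 0)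
    (w2 : ∀ j, j + D ≤ n + D → Win (q ^ j) (q ^ D) (φ j) (φ (j + D)) (sup (j + D)) N 0)
    (w3 : ∀ j, j + D ≤ n + D → Win (q ^ j) (q ^ D) (φ j) (φ (j + D)) (sup (j + D)) χ K) :
    (D + 1) * aF J (fun ω => X ω + Y ω) q φ (n + D) ≤
      n * (N₁ + N) - (N - χ) * (ζ * (ent J Y (q ^ (n + D)) - ζ * q * (n + D)) - D) +
      K * (2 * ((q * q ^ D : ℕ) : ℝ) ^ 2 * ((D + 1) * (mi J X Y (q ^ (n + D)) +
        mi J (fun ω => X ω + Y ω) Y (q ^ (n + D))) / η + 2 * η * n)) + 2 * (D + 1) ^ 2 * N₁ := by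
  set Z : Ω → ℤ := fun ω => X ω + Y ω with hZ
  set a := aF J Z q φ with ha
  have hp : ∀ j, 0 < q ^ j := fun j => pow_pos hq j
  have a0 : a 0 = 0 := by simp [ha, aF, hφ0, ent, ms_one hJ1]
  have a1 : ∀ j, j + 1 ≤ n + D → a (j + 1) - a j ≤ N₁ := by
    intro j hj
    rw [ha, aF_sub hJ hJ1 hq]
    refine win1 hJ hJ1 (hp _) (hp _) (w1 j hj) (hφ j) (by rw [← pow_add]; exact hφ _) ?_
    rw [← pow_add]; exact hs _ hj
  have a2 : ∀ i k, i + k ≤ n + D → a (i + k) - a i ≤ k * N₁ := by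
    intro i k
    induction k with
    | zero => simp
    | succ k ih =>
      intro h
      have := ih (by omega)
      have h2 := a1 (i + k) h
      rw [← add_assoc]; push_cast; linarith
  set co : ℕ → ℝ := fun j => ∑ ω, J ω * collF J Y (q ^ j) q (q ^ D) (Y ω) with hco
  set I : ℕ → ℝ := fun j => mi J X Y (q ^ j) + mi J Z Y (q ^ j) with hI
  set C : ℝ := 2 * ((q * q ^ D : ℕ) : ℝ) ^ 2 with hC
  have hC0 : 0 ≤ C := by positivity
  have a3 : ∀ j, j < n → a (j + (D + 1)) - a j ≤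
      N₁ + N - (N - χ) * co j + K * (C * ((I (j + (D + 1)) - I j) / η + 2 * η)) := by
    intro j hj
    have h1 := a1 j (by omega)
    have h2 : a (j + 1 + D) - a (j + 1) ≤ N - (N - χ) * co j +
        K * ∑ ω, J ω * (collF J Y (q ^ j) q (q ^ D) (Y ω) * defF J Z (q ^ j) q (q ^ D) (Z ω)) := by
      rw [ha, aF_sub hJ hJ1 hq, pow_succ]
      refine win2 (sup := sup (j + 1 + D)) hJ hJ1 (hp _) hq (hp _) ?_ ?_ ?_ ?_ ?_
      · rw [← pow_succ]; exact w2 _ (by omega)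
      · rw [← pow_succ]; exact w3 _ (by omega)
      · rw [← pow_succ]; exact hφ _
      · rw [← pow_succ, ← pow_add]; exact hφ _
      · rw [← pow_succ, ← pow_add]; exact hs _ (by omega)
    have h3 := sat (X := X) (Y := Y) hJ hJ1 (hp j) hq (hp D) hQ hη
    have e : q ^ j * (q * q ^ D) = q ^ (j + (D + 1)) := by ring
    rw [e] at h3
    have h4 := mul_le_mul_of_nonneg_left h3 hK
    rw [show j + (D + 1) = j + 1 + D by ring] at h4 ⊢
    have e2 : I (j + 1 + D) - I j = mi J X Y (q ^ (j + 1 + D)) - mi J X Y (q ^ j) +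
      (mi J Z Y (q ^ (j + 1 + D)) - mi J Z Y (q ^ j)) := by simp only [hI]; ring
    rw [e2]
    linarith
  have Imono : ∀ i k, I i ≤ I (i + k) := fun i k => by
    simp only [hI, pow_add]
    exact add_le_add (mi_mono hJ hJ1 (hp _) (hp _)) (mi_mono hJ hJ1 (hp _) (hp _))
  have I0 : ∀ i, 0 ≤ I i := fun i => add_nonneg (mi_nonneg hJ hJ1 (hp _)) (mi_nonneg hJ hJ1 (hp _))
  have s1 : ∑ j ∈ range n, (I (j + (D + 1)) - I j) ≤ (D + 1) * I (n + D) := by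
    rw [tele]
    have : ∀ i ∈ range (D + 1), I (n + i) - I i ≤ I (n + D) := by
      intro i hi
      have hi' : i ≤ D := Nat.lt_succ_iff.1 (mem_range.1 hi)
      have h1 := Imono (n + i) (D - i)
      rw [show n + i + (D - i) = n + D by omega] at h1
      linarith [I0 i]
    refine (sum_le_sum this).trans (le_of_eq ?_)
    simp
  have s2 : (D + 1) * a (n + D) ≤ ∑ j ∈ range n, (a (j + (D + 1)) - a j) + 2 * (D + 1) ^ 2 * N₁ := by
    rw [tele]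
    have : ∀ i ∈ range (D + 1), a (n + D) - 2 * (D + 1) * N₁ ≤ a (n + i) - a i := by
      intro i hi
      have hi' : i ≤ D := Nat.lt_succ_iff.1 (mem_range.1 hi)
      have h1 := a2 (n + i) (D - i) (by omega)
      rw [show n + i + (D - i) = n + D by omega] at h1
      have h2 := a2 0 i (by omega)
      rw [zero_add, a0] at h2
      have h3 : ((D - i : ℕ) : ℝ) ≤ D + 1 := by exact_mod_cast (by omega : D - i ≤ D + 1)
      have h4 : (i : ℝ) ≤ D + 1 := by exact_mod_cast (by omega : i ≤ D + 1)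
      nlinarith
    have h5 := sum_le_sum this
    simp only [sum_const, card_range, nsmul_eq_mul] at h5
    push_cast at h5
    linarith
  have s3 : ζ * (ent J Y (q ^ (n + D)) - ζ * q * (n + D)) - D ≤ ∑ j ∈ range n, co j := by
    have h1 : ∀ j, ζ * (ent J Y (q ^ (j + 1)) - ent J Y (q ^ j) - ζ * q) ≤ co j := fun j => by
      rw [pow_succ]; exact coll_lower hJ hJ1 (hp j) hq (hp D) hζ
    have h2 := sum_le_sum fun j (_ : j ∈ range (n + D)) => h1 j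
    rw [← mul_sum, sum_sub_distrib, sum_range_sub (fun j => ent J Y (q ^ j)), sum_range_add co] at h2
    have h3 : ∑ i ∈ range D, co (n + i) ≤ D := by
      have : ∀ i ∈ range D, co (n + i) ≤ 1 := fun i _ => by
        rw [← hJ1]
        exact sum_le_sum fun ω _ => mul_le_of_le_one_right (hJ ω)
          (collF_le_one hJ (hp _) (Nat.mul_pos hq (hp _)) _)
      refine (sum_le_sum this).trans (le_of_eq ?_)
      simp
    have h4 : ent J Y (q ^ 0) = 0 := by simp [ent, ms_one hJ1]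
    simp only [h4, sum_const, card_range, nsmul_eq_mul] at h2
    push_cast at h2
    linarith
  have s4 := sum_le_sum fun j (hj : j ∈ range n) => a3 j (mem_range.1 hj)
  rw [sum_add_distrib, sum_sub_distrib (f := fun _ => N₁ + N), ← mul_sum, ← mul_sum, ← mul_sum,
    sum_add_distrib (g := fun _ => 2 * η), ← sum_div] at s4
  simp only [sum_const, card_range, nsmul_eq_mul] at s4
  have s5 := mul_le_mul_of_nonneg_left s3 (sub_nonneg.2 hχ)
  have s6 : K * (C * ((∑ j ∈ range n, (I (j + (D + 1)) - I j)) / η + n * (2 * η))) ≤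
      K * (C * ((D + 1) * I (n + D) / η + 2 * η * n)) := by
    refine mul_le_mul_of_nonneg_left (mul_le_mul_of_nonneg_left ?_ hC0) hK
    have := div_le_div_of_nonneg_right s1 hη.le
    linarith
  linarith

theorem fin_num {x a b c d τ u D L : ℝ} (hc : x ≤ a - b + c + d) (h5 : a ≤ L * ((τ + u / 4) * D))
    (h4 : u / 2 * D * L - τ * D ^ 2 / 2 ≤ b) (h6 : c ≤ u / 16 * L)
    (h1 : τ * D ^ 2 / 2 + d ≤ u / 16 * L) (b1 : u / 8 * L ≤ u / 8 * L * D)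
    (b2 : 0 ≤ (τ - u / 8) * L) : x ≤ (D + 1) * ((τ - u / 8) * L) := by
  linarith

theorem flatten {q : ℕ} (hq : 0 < q) (hQ : ∀ D, HQ q (q ^ D)) {τ σ N₁ : ℝ} (hτ : 0 < τ)
    (hσ : 0 < σ) (hN₁ : 0 ≤ N₁) :
    ∃ g > 0, ∃ ε > 0, ∀ C : ℝ, 0 ≤ C → ∃ D₀ : ℕ, ∀ D ≥ D₀, ∀ K : ℝ, 0 ≤ K → ∃ γ > 0, ∃ L₀ : ℕ,
      ∀ L ≥ L₀, ∀ (Ω : Type) [Fintype Ω] (J : Ω → ℝ) (X Y : Ω → ℤ) (φ : ℕ → ℤ → ℝ)
        (sup : ℕ → ℤ → Prop), (∀ ω, 0 ≤ J ω) → ∑ ω, J ω = 1 → (∀ j, Per (q ^ j) (φ j)) →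
        (∀ x, φ 0 x = 0) →
        (∀ j ≤ L, ∀ ω, 0 < J ω → ∀ x, ((q ^ j : ℕ) : ℤ) ∣ X ω + Y ω - x → sup j x) →
        (∀ j, j + 1 ≤ L → Win (q ^ j) (q ^ 1) (φ j) (φ (j + 1)) (sup (j + 1)) N₁ 0) →
        (∀ j, j + D ≤ L → Win (q ^ j) (q ^ D) (φ j) (φ (j + D)) (sup (j + D)) ((τ + ε) * D + C) 0) →
        (∀ j, j + D ≤ L → Win (q ^ j) (q ^ D) (φ j) (φ (j + D)) (sup (j + D)) (τ * D / 2) K) →
        σ * L ≤ ent J Y (q ^ L) →
        mi J X Y (q ^ L) + mi J (fun ω => X ω + Y ω) Y (q ^ L) ≤ γ * L →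
        aF J (fun ω => X ω + Y ω) q φ L ≤ (τ - g) * L := by
  have hq' : (0 : ℝ) < q := by exact_mod_cast hq
  set s : ℝ := min (σ ^ 2 / (4 * q)) 1 with hs
  have hs0 : 0 < s := lt_min (by positivity) one_pos
  have hs1 : s ≤ 1 := min_le_right _ _
  have hs2 : s ≤ σ ^ 2 / (4 * q) := min_le_left _ _
  set u : ℝ := τ * s with hu
  have hu0 : 0 < u := by positivity
  have hu1 : u ≤ τ := mul_le_of_le_one_right hτ.le hs1
  refine ⟨u / 8, by positivity, u / 8, by positivity, fun C hC => ?_⟩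
  obtain ⟨D₀, hD₀⟩ := exists_nat_ge ((N₁ + C) / (u / 8))
  refine ⟨D₀ + 1, fun D hD K hK => ?_⟩
  have hD1 : (1 : ℝ) ≤ D := by exact_mod_cast (by omega : 1 ≤ D)
  have hD2 : N₁ + C ≤ u / 8 * D := by
    rw [div_le_iff₀ (by positivity)] at hD₀
    have : (D₀ : ℝ) ≤ D := by exact_mod_cast (by omega : D₀ ≤ D)
    nlinarith
  set C2 : ℝ := 2 * ((q * q ^ D : ℕ) : ℝ) ^ 2 with hC2
  have hC20 : 0 ≤ C2 := by positivity
  set B : ℝ := K * C2 + 1 with hB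
  have hB0 : 0 < B := by positivity
  set η : ℝ := u / (64 * B) with hη
  have hη0 : 0 < η := by positivity
  obtain ⟨L₁, hL₁⟩ := exists_nat_ge ((τ * D ^ 2 / 2 + 2 * (D + 1) ^ 2 * N₁) / (u / 16))
  obtain ⟨L₂, hL₂⟩ := exists_nat_ge (D / s)
  refine ⟨η * u / (32 * B * (D + 1)), by positivity, L₁ + L₂ + D, ?_⟩
  intro L hL Ω _ J X Y φ sup hJ hJ1 hφ hφ0 hsup w1 w2 w3 hent hmi
  obtain ⟨n, rfl⟩ : ∃ n, L = n + D := ⟨L - D, by omega⟩
  have hχ : τ * D / 2 ≤ (τ + u / 8) * D + C - τ * D / 2 := by nlinarith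
  have hc := core hJ hJ1 hq (hQ D) hφ hφ0 hsup hN₁ (χ := τ * D / 2) (N := (τ + u / 8) * D + C)
    (by nlinarith) hK hη0 (ζ := σ / (2 * q)) (by positivity) w1 w2 w3
  rw [← hC2] at hc
  set L : ℝ := (n : ℝ) + D with hLdef
  have hLc : ((n + D : ℕ) : ℝ) = L := by push_cast; ring
  rw [hLc] at hent hmi ⊢
  have hn : (n : ℝ) ≤ L := by linarith
  have hn0 : (0 : ℝ) ≤ n := Nat.cast_nonneg n
  have hL0 : 0 ≤ L := by linarith
  have h1 : τ * D ^ 2 / 2 + 2 * (D + 1) ^ 2 * N₁ ≤ u / 16 * L := by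
    rw [div_le_iff₀ (by positivity)] at hL₁
    have : (L₁ : ℝ) ≤ L := by rw [← hLc]; exact_mod_cast (by omega : L₁ ≤ n + D)
    nlinarith
  have h2 : (D : ℝ) ≤ s * L := by
    rw [div_le_iff₀ hs0] at hL₂
    have : (L₂ : ℝ) ≤ L := by rw [← hLc]; exact_mod_cast (by omega : L₂ ≤ n + D)
    nlinarith
  have h3 : s * L ≤ σ / (2 * q) * (ent J Y (q ^ (n + D)) - σ / (2 * q) * q * L) := by
    have e : σ / (2 * q) * (σ * L - σ / (2 * q) * q * L) = σ ^ 2 / (4 * q) * L := by field_simp; ring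
    calc s * L ≤ σ ^ 2 / (4 * q) * L := mul_le_mul_of_nonneg_right hs2 hL0
      _ = _ := e.symm
      _ ≤ _ := mul_le_mul_of_nonneg_left (by linarith) (by positivity)
  have h4 : τ * D / 2 * (s * L - D) ≤ ((τ + u / 8) * D + C - τ * D / 2) *
      (σ / (2 * q) * (ent J Y (q ^ (n + D)) - σ / (2 * q) * q * L) - D) :=
    mul_le_mul hχ (by linarith) (by linarith) (le_trans (by positivity) hχ)
  have h5 : (n : ℝ) * (N₁ + ((τ + u / 8) * D + C)) ≤ L * ((τ + u / 4) * D) :=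
    mul_le_mul hn (by linarith) (by positivity) hL0
  have h6 : K * (C2 * ((D + 1) * (mi J X Y (q ^ (n + D)) +
      mi J (fun ω => X ω + Y ω) Y (q ^ (n + D))) / η + 2 * η * n)) ≤ u / 16 * L := by
    have a1 : (D + 1) * (mi J X Y (q ^ (n + D)) + mi J (fun ω => X ω + Y ω) Y (q ^ (n + D))) / η ≤
        u / (32 * B) * L := by
      rw [div_le_iff₀ hη0]
      refine (mul_le_mul_of_nonneg_left hmi (by positivity)).trans (le_of_eq ?_)
      field_simp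
    have a2 : 2 * η * n ≤ u / (32 * B) * L := by
      have : 2 * η = u / (32 * B) := by rw [hη]; field_simp; ring
      rw [this]; exact mul_le_mul_of_nonneg_left hn (by positivity)
    have a3 : K * C2 * (2 * (u / (32 * B) * L)) ≤ B * (2 * (u / (32 * B) * L)) :=
      mul_le_mul_of_nonneg_right (by linarith) (by positivity)
    have a4 : B * (2 * (u / (32 * B) * L)) = u / 16 * L := by field_simp; ring
    rw [← mul_assoc, ← a4]
    exact (mul_le_mul_of_nonneg_left (by linarith) (mul_nonneg hK hC20)).trans a3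
  have h7 : (D + 1) * aF J (fun ω => X ω + Y ω) q φ (n + D) ≤ (D + 1) * ((τ - u / 8) * L) := by
    have e : τ * D / 2 * (s * L - D) = u / 2 * D * L - τ * D ^ 2 / 2 := by rw [hu]; ring
    have b1 : u / 8 * L ≤ u / 8 * L * D := le_mul_of_one_le_right (by positivity) hD1
    have b2 : 0 ≤ (τ - u / 8) * L := mul_nonneg (by linarith) hL0
    rw [e] at h4
    exact fin_num hc h5 h4 h6 h1 b1 b2
  exact le_of_mul_le_mul_left h7 (by positivity)

end Pool.Agent.Lib.MP_0baeaf_nt.H
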