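import Mathlib
import Pool.Agent.Lib.MP_0baeaf_nt.HFlat

/-! Backward block dynamics `y ↦ (al k * y + c k - v) / q` and the densities of its words. -/

namespace Pool.Agent.Lib.MP_0baeaf_nt.H

open Finset

structure Dat where
  q : ℕ
  E : Finset ℤ
  al : ℕ → ℤ
  c : ℕ → ℤ

namespace Dat

variable (S : Dat)

def blocks : Finset (ℕ × ℤ) := range (S.q + 1) ×ˢ S.E

def words : ℕ → Finset (List (ℕ × ℤ))
  | 0 => {[]}
  | n + 1 => (S.blocks ×ˢ words n).map ⟨fun p => p.1 :: p.2, fun p p' h => by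
      simp only [List.cons.injEq] at h; exact Prod.ext h.1 h.2⟩

def A : List (ℕ × ℤ) → ℤ
  | [] => 1
  | d :: ω => S.al d.1 * A ω

def O : List (ℕ × ℤ) → ℤ
  | [] => 0
  | d :: ω => S.A ω * (S.c d.1 - d.2) + S.q * O ω

def cnt : List (ℕ × ℤ) → ℕ
  | [] => 0
  | d :: ω => (if d.1 = 0 then 0 else 1) + cnt ω

noncomputable def ρ : ℝ := (S.q : ℝ) / S.E.card

noncomputable def wt : List (ℕ → ℝ) → List (ℕ × ℤ) → ℝ
  | w :: ws, d :: ω => w d.1 * S.ρ * wt ws ω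
  | _, _ => 1

noncomputable def F : List (ℕ → ℝ) → ℤ → ℝ
  | [], _ => 1
  | w :: ws, y => ∑ d ∈ S.blocks, if (S.q : ℤ) ∣ S.al d.1 * y + (S.c d.1 - d.2) then
      w d.1 * S.ρ * F ws ((S.al d.1 * y + (S.c d.1 - d.2)) / S.q) else 0

theorem sum_words_succ (n : ℕ) (f : List (ℕ × ℤ) → ℝ) :
    ∑ ω ∈ S.words (n + 1), f ω = ∑ d ∈ S.blocks, ∑ ω ∈ S.words n, f (d :: ω) := by
  rw [words, sum_map, sum_product]; rfl

theorem mem_words_succ {n : ℕ} {ω : List (ℕ × ℤ)} :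
    ω ∈ S.words (n + 1) ↔ ∃ d ∈ S.blocks, ∃ ω' ∈ S.words n, ω = d :: ω' := by
  rw [words, mem_map]
  constructor
  · rintro ⟨p, hp, rfl⟩
    exact ⟨p.1, (mem_product.1 hp).1, p.2, (mem_product.1 hp).2, rfl⟩
  · rintro ⟨d, hd, ω', h, rfl⟩
    exact ⟨(d, ω'), mem_product.2 ⟨hd, h⟩, rfl⟩

structure Ok : Prop where
  hq : 1 < S.q
  hQ : ∀ D, HQ S.q (S.q ^ D)
  hE : S.q < S.E.card
  cop : ∀ k, IsCoprime (S.al k) (S.q : ℤ)
  cong : ∀ k, (S.q : ℤ) ∣ S.al k - S.al 0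
  same : ∀ k, k ≠ 0 → S.al k = S.al 1
  cover : ∀ f : ℤ → ℝ, Per S.q f → ∀ x : ℤ,
    ∑ k ∈ range S.q, f (x + S.c (k + 1)) = ∑ s ∈ range S.q, f s
  sep : ∃ R : ℕ, 1 ≤ R ∧ ∀ n, ∀ ω ∈ S.words n, ∀ ω' ∈ S.words n, S.A ω = S.A ω' →
    ((S.q ^ (n + R * n) : ℕ) : ℤ) ∣ S.O ω - S.O ω' → ω = ω'

/-- a probability vector on the classes -/
def Pw (w : ℕ → ℝ) : Prop := (∀ k, 0 ≤ w k) ∧ ∑ k ∈ range (S.q + 1), w k = 1

variable {S}

theorem Ok.q_pos (h : S.Ok) : 0 < S.q := by have := h.hq; omega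

theorem Ok.ρ_pos (h : S.Ok) : 0 < S.ρ := by
  have h1 := h.q_pos
  have h2 : 0 < S.E.card := h1.trans h.hE
  unfold ρ; positivity

theorem Ok.ρ_lt_one (h : S.Ok) : S.ρ < 1 := by
  have h2 : (0 : ℝ) < S.E.card := by exact_mod_cast h.q_pos.trans h.hE
  unfold ρ; rw [div_lt_one h2]; exact_mod_cast h.hE

theorem Ok.A_cop (h : S.Ok) (ω : List (ℕ × ℤ)) (n : ℕ) : IsCoprime (S.A ω) ((S.q ^ n : ℕ) : ℤ) := by
  push_cast
  apply IsCoprime.pow_right
  induction ω with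
  | nil => exact isCoprime_one_left
  | cons d ω ih => exact (h.cop _).mul_left ih

theorem Ok.F_append (h : S.Ok) (ws ws' : List (ℕ → ℝ)) (y : ℤ) :
    S.F (ws ++ ws') y = ∑ ω ∈ S.words ws.length,
      if ((S.q ^ ws.length : ℕ) : ℤ) ∣ S.A ω * y + S.O ω then
        S.wt ws ω * S.F ws' ((S.A ω * y + S.O ω) / ((S.q ^ ws.length : ℕ) : ℤ)) else 0 := by
  have hq0 : (S.q : ℤ) ≠ 0 := by exact_mod_cast h.q_pos.ne'
  induction ws generalizing y with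
  | nil => simp [words, A, O, wt]
  | cons w ws ih =>
    rw [List.cons_append, F, List.length_cons, sum_words_succ]
    refine sum_congr rfl fun d _ => ?_
    split_ifs with h1
    · obtain ⟨z, hz⟩ := h1
      rw [hz, Int.mul_ediv_cancel_left _ hq0, ih, mul_sum]
      refine sum_congr rfl fun ω _ => ?_
      have e : S.A (d :: ω) * y + S.O (d :: ω) = S.q * (S.A ω * z + S.O ω) := by
        simp only [A, O]; linear_combination S.A ω * hz
      have e2 : ((S.q ^ (ws.length + 1) : ℕ) : ℤ) = S.q * ((S.q ^ ws.length : ℕ) : ℤ) := by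
        push_cast; ring
      rw [e, e2, Int.mul_ediv_mul_of_pos _ _ (by exact_mod_cast h.q_pos)]
      simp only [mul_dvd_mul_iff_left hq0, wt]
      split_ifs <;> ring
    · symm
      refine sum_eq_zero fun ω _ => if_neg fun h2 => h1 ?_
      have h3 : (S.q : ℤ) ∣ S.A (d :: ω) * y + S.O (d :: ω) :=
        (Dvd.intro ((S.q : ℤ) ^ ws.length) (by push_cast; ring)).trans h2
      have e : S.A (d :: ω) * y + S.O (d :: ω) =
          S.A ω * (S.al d.1 * y + (S.c d.1 - d.2)) + S.q * S.O ω := by simp only [A, O]; ring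
      rw [e, dvd_add_left (dvd_mul_right _ _)] at h3
      have h4 := h.A_cop ω 1
      rw [pow_one] at h4
      exact h4.symm.dvd_of_dvd_mul_left h3

theorem Ok.F_eq (h : S.Ok) (ws : List (ℕ → ℝ)) (y : ℤ) :
    S.F ws y = ∑ ω ∈ S.words ws.length,
      if ((S.q ^ ws.length : ℕ) : ℤ) ∣ S.A ω * y + S.O ω then S.wt ws ω else 0 := by
  have := h.F_append ws [] y
  simpa [F] using this

theorem Ok.wt_nonneg (h : S.Ok) {ws : List (ℕ → ℝ)} (hw : ∀ w ∈ ws, S.Pw w) (ω : List (ℕ × ℤ)) :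
    0 ≤ S.wt ws ω := by
  induction ws generalizing ω with
  | nil => simp [wt]
  | cons w ws ih =>
    cases ω with
    | nil => simp [wt]
    | cons d ω =>
      exact mul_nonneg (mul_nonneg ((hw w (by simp)).1 _) h.ρ_pos.le)
        (ih (fun w' h' => hw w' (by simp [h'])) ω)

theorem Ok.F_nonneg (h : S.Ok) {ws : List (ℕ → ℝ)} (hw : ∀ w ∈ ws, S.Pw w) (y : ℤ) :
    0 ≤ S.F ws y := by
  rw [h.F_eq]
  refine sum_nonneg fun ω _ => ?_
  split_ifs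
  exacts [h.wt_nonneg hw ω, le_rfl]

theorem valid_congr {n A O y y' : ℤ} (h : n ∣ y - y') : n ∣ A * y + O ↔ n ∣ A * y' + O := by
  rw [show A * y + O = A * (y - y') + (A * y' + O) by ring]
  exact dvd_add_right (h.mul_left _)

theorem Ok.F_per (h : S.Ok) (ws : List (ℕ → ℝ)) : Per (S.q ^ ws.length) (S.F ws) := by
  intro a b hab
  rw [h.F_eq, h.F_eq]
  simp only [valid_congr hab]

theorem Ok.sum_wt (h : S.Ok) {ws : List (ℕ → ℝ)} (hw : ∀ w ∈ ws, S.Pw w) :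
    ∑ ω ∈ S.words ws.length, S.wt ws ω = (S.q : ℝ) ^ ws.length := by
  induction ws with
  | nil => simp [words, wt]
  | cons w ws ih =>
    rw [List.length_cons, sum_words_succ]
    simp only [wt, ← mul_sum]
    rw [ih (fun w' h' => hw w' (by simp [h'])), ← sum_mul, ← sum_mul, blocks, sum_product]
    simp only [sum_const, nsmul_eq_mul, ← mul_sum, (hw w (by simp)).2]
    have h2 : (0 : ℝ) < S.E.card := by exact_mod_cast h.q_pos.trans h.hE
    unfold ρ; field_simp; ring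

theorem Ok.sum_F (h : S.Ok) {ws : List (ℕ → ℝ)} (hw : ∀ w ∈ ws, S.Pw w) :
    ∑ y ∈ range (S.q ^ ws.length), S.F ws y = (S.q : ℝ) ^ ws.length := by
  simp only [h.F_eq]
  rw [sum_comm, ← h.sum_wt hw]
  refine sum_congr rfl fun ω _ => ?_
  have hp := pow_pos h.q_pos ws.length
  rw [sum_aff hp (f := fun x => if ((S.q ^ ws.length : ℕ) : ℤ) ∣ x then S.wt ws ω else 0)
    (fun a b hab => by
      have := valid_congr (A := 1) (O := 0) hab
      simp only [one_mul, add_zero] at this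
      simp only [this]) (h.A_cop ω _) (S.O ω)]
  refine Eq.trans ?_ (sum_ite_dvd hp 0 (S.wt ws ω))
  simp

/-- the valid words -/
noncomputable def val (S : Dat) (n : ℕ) (y : ℤ) : Finset (List (ℕ × ℤ)) :=
  (S.words n).filter fun ω => ((S.q ^ n : ℕ) : ℤ) ∣ S.A ω * y + S.O ω

def off (S : Dat) (n : ℕ) (y : ℤ) (ω : List (ℕ × ℤ)) : ℤ := (S.A ω * y + S.O ω) / ((S.q ^ n : ℕ) : ℤ)

theorem Ok.F_val (h : S.Ok) (ws : List (ℕ → ℝ)) (y : ℤ) :
    S.F ws y = ∑ ω ∈ S.val ws.length y, S.wt ws ω := by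
  rw [h.F_eq, val, sum_filter]

theorem Ok.F_mix (h : S.Ok) (ws ws' : List (ℕ → ℝ)) (y s : ℤ) :
    S.F (ws ++ ws') (y + ((S.q ^ ws.length : ℕ) : ℤ) * s) =
      ∑ ω ∈ S.val ws.length y, S.wt ws ω * S.F ws' (S.A ω * s + S.off ws.length y ω) := by
  have hp : ((S.q ^ ws.length : ℕ) : ℤ) ≠ 0 := by exact_mod_cast (pow_pos h.q_pos _).ne'
  rw [h.F_append, val, sum_filter]
  refine sum_congr rfl fun ω _ => ?_
  have : ((S.q ^ ws.length : ℕ) : ℤ) ∣ S.A ω * (y + ((S.q ^ ws.length : ℕ) : ℤ) * s) + S.O ω ↔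
      ((S.q ^ ws.length : ℕ) : ℤ) ∣ S.A ω * y + S.O ω := valid_congr ⟨s, by ring⟩
  simp only [this]
  split_ifs with h1
  · congr 2
    unfold off
    rw [show S.A ω * (y + ((S.q ^ ws.length : ℕ) : ℤ) * s) + S.O ω =
      (S.A ω * y + S.O ω) + ((S.q ^ ws.length : ℕ) : ℤ) * (S.A ω * s) by ring,
      Int.add_mul_ediv_left _ _ hp, add_comm]
  · rfl

theorem Ok.off_inj (h : S.Ok) : ∃ R : ℕ, 1 ≤ R ∧ ∀ n y, ∀ ω ∈ S.val n y, ∀ ω' ∈ S.val n y,
    S.A ω = S.A ω' → ((S.q ^ (R * n) : ℕ) : ℤ) ∣ S.off n y ω - S.off n y ω' → ω = ω' := by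
  obtain ⟨R, hR, hs⟩ := h.sep
  refine ⟨R, hR, fun n y ω hω ω' hω' hA hd => ?_⟩
  obtain ⟨h1, h2⟩ := mem_filter.1 hω
  obtain ⟨h3, h4⟩ := mem_filter.1 hω'
  refine hs n ω h1 ω' h3 hA ?_
  have e : S.O ω - S.O ω' = ((S.q ^ n : ℕ) : ℤ) * (S.off n y ω - S.off n y ω') := by
    unfold off
    rw [mul_sub, Int.mul_ediv_cancel' h2, Int.mul_ediv_cancel' h4, hA]; ring
  rw [e, pow_add]; push_cast
  exact mul_dvd_mul_left _ (by exact_mod_cast hd)

/-- Jensen for the mixture -/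
theorem Ok.mix_convex (h : S.Ok) {ws : List (ℕ → ℝ)} (hw : ∀ w ∈ ws, S.Pw w) (ws' : List (ℕ → ℝ))
    {y : ℤ} (hy : 0 < S.F ws y) {f : ℝ → ℝ} {T : Set ℝ} (hf : ConvexOn ℝ T f)
    (hT : ∀ x, S.F ws' x ∈ T) :
    ∑ s ∈ range (S.q ^ ws'.length), f (S.F (ws ++ ws') (y + ((S.q ^ ws.length : ℕ) : ℤ) * (s : ℤ)) / S.F ws y) ≤
      ∑ s ∈ range (S.q ^ ws'.length), f (S.F ws' s) := by
  have h1 : ∑ ω ∈ S.val ws.length y, S.wt ws ω / S.F ws y = 1 := by
    rw [← sum_div, ← h.F_val, div_self hy.ne']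
  have h2 : ∀ s : ℤ, f (S.F (ws ++ ws') (y + ((S.q ^ ws.length : ℕ) : ℤ) * s) / S.F ws y) ≤
      ∑ ω ∈ S.val ws.length y, S.wt ws ω / S.F ws y * f (S.F ws' (S.A ω * s + S.off ws.length y ω)) := by
    intro s
    have := hf.map_sum_le (t := S.val ws.length y) (w := fun ω => S.wt ws ω / S.F ws y)
      (p := fun ω => S.F ws' (S.A ω * s + S.off ws.length y ω))
      (fun ω _ => div_nonneg (h.wt_nonneg hw ω) hy.le) h1 (fun ω _ => hT _)
    simp only [smul_eq_mul] at this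
    refine le_trans (le_of_eq ?_) this
    rw [h.F_mix, sum_div]
    congr 1
    exact sum_congr rfl fun ω _ => by ring
  refine (sum_le_sum fun (s : ℕ) _ => h2 s).trans (le_of_eq ?_)
  rw [sum_comm]
  have h3 : ∀ ω, ∑ s ∈ range (S.q ^ ws'.length), f (S.F ws' (S.A ω * s + S.off ws.length y ω)) =
      ∑ s ∈ range (S.q ^ ws'.length), f (S.F ws' s) := fun ω =>
    sum_aff (pow_pos h.q_pos _) (f := fun x => f (S.F ws' x))
      (fun a b hab => by simp only; rw [h.F_per ws' a b hab]) (h.A_cop ω _) _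
  simp only [← mul_sum, h3]
  rw [← sum_mul, h1, one_mul]

theorem Ok.F_pos_of_append (h : S.Ok) {ws : List (ℕ → ℝ)} (hw : ∀ w ∈ ws, S.Pw w)
    {ws' : List (ℕ → ℝ)} {y s : ℤ} (hy : 0 < S.F (ws ++ ws') (y + ((S.q ^ ws.length : ℕ) : ℤ) * s)) :
    0 < S.F ws y := by
  rcases (h.F_nonneg hw y).eq_or_lt with h0 | h0
  · rw [h.F_val] at h0
    have := (sum_eq_zero_iff_of_nonneg fun ω _ => h.wt_nonneg hw ω).1 h0.symm
    rw [h.F_mix, sum_eq_zero fun ω hω => by rw [this ω hω, zero_mul]] at hy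
    exact absurd hy (lt_irrefl _)
  · exact h0

theorem Ok.F_le (h : S.Ok) {ws : List (ℕ → ℝ)} (hw : ∀ w ∈ ws, S.Pw w) (y : ℤ) :
    S.F ws y ≤ (S.q : ℝ) ^ ws.length := by
  rw [← h.sum_wt hw, h.F_val]
  exact sum_le_sum_of_subset_of_nonneg (filter_subset _ _) fun ω _ _ => h.wt_nonneg hw ω

end Dat

theorem Win.mono {M W : ℕ} {φ₁ φ₂ : ℤ → ℝ} {sup : ℤ → Prop} {N N' K : ℝ}
    (h : Win M W φ₁ φ₂ sup N K) (hN : N ≤ N') : Win M W φ₁ φ₂ sup N' K := by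
  intro c m h0 h1
  have := h c m h0 h1
  have h2 := mul_le_mul_of_nonneg_right hN (sum_nonneg fun s (_ : s ∈ range W) => h0 s)
  linarith

theorem win_of_moment {M W : ℕ} (hW : 0 < W) {φ₁ φ₂ : ℤ → ℝ} {sup : ℤ → Prop} {N θ : ℝ} (hθ : 0 ≤ θ)
    (h : ∀ c : ℤ, ∃ r : ℕ → ℝ, (∀ s, 0 ≤ r s) ∧ ∑ s ∈ range W, r s ≤ W * Real.exp N ∧
      ∀ s : ℕ, sup (c + (M : ℤ) * (s : ℤ)) →
        0 < r s ∧ φ₂ (c + (M : ℤ) * (s : ℤ)) - φ₁ c ≤ θ * Real.log (r s)) :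
    Win M W φ₁ φ₂ sup (θ * N) (θ - 1) := by
  intro c m h0 h1
  obtain ⟨r, r0, r1, r2⟩ := h c
  have hW' : (0 : ℝ) < W := by exact_mod_cast hW
  have h2 := gibbs_log (range W) (fun s _ => h0 s) (fun s _ => r0 s)
    (fun s _ hs => (r2 s (h1 s hs)).1) r1
  set mb := ∑ s ∈ range W, m s with hmb
  have h3 : ∀ s ∈ range W, m s * (φ₂ (c + (M : ℤ) * (s : ℤ)) - φ₁ c) ≤
      θ * (m s * Real.log (r s / m s) + m s * Real.log (m s * W / mb) +
        m s * (N - Real.log (W * Real.exp N / mb))) := by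
    intro s hs
    rcases (h0 s).eq_or_lt with h4 | h4
    · rw [← h4]; simp
    have hm : 0 < mb := h4.trans_le (single_le_sum (fun s _ => h0 s) hs)
    obtain ⟨r3, r4⟩ := r2 s (h1 s h4)
    rw [Real.log_div r3.ne' h4.ne', Real.log_div (by positivity) hm.ne', Real.log_mul h4.ne' hW'.ne',
      Real.log_div (by positivity) hm.ne', Real.log_mul hW'.ne' (Real.exp_pos _).ne', Real.log_exp]
    have := mul_le_mul_of_nonneg_left r4 h4.le
    linarith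
  refine (sum_le_sum h3).trans ?_
  rw [← mul_sum, sum_add_distrib, sum_add_distrib, ← sum_mul, ← hmb]
  have := mul_le_mul_of_nonneg_left h2 hθ
  linarith

theorem win_of_mean {M W : ℕ} (hW : 0 < W) {φ₁ φ₂ : ℤ → ℝ} {sup : ℤ → Prop} {χ C η : ℝ} (hη : 0 < η)
    (hC : 0 ≤ C) (h1 : ∀ c s : ℤ, |φ₂ (c + M * s) - φ₁ c| ≤ C)
    (h2 : ∀ c : ℤ, ∑ s ∈ range W, (φ₂ (c + (M : ℤ) * (s : ℤ)) - φ₁ c) ≤ W * χ) :
    Win M W φ₁ φ₂ sup (χ + C * η) (C / η) := by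
  intro c m h0 _
  have hW' : (0 : ℝ) < W := by exact_mod_cast hW
  set mb := ∑ s ∈ range W, m s with hmb
  have hmb0 : 0 ≤ mb := sum_nonneg fun s _ => h0 s
  have hp : ∀ s ∈ range W, 0 < m s → 0 < mb / W := fun s hs h4 =>
    div_pos (h4.trans_le (single_le_sum (fun s _ => h0 s) hs)) hW'
  have hs : ∑ s ∈ range W, mb / W ≤ mb := by
    rw [sum_const, card_range, nsmul_eq_mul]; exact le_of_eq (by field_simp)
  have h3 := pinsker_sum (range W) (J := m) (r := fun _ => mb / W) (fun s _ => h0 s)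
    (fun _ _ => by positivity) hp hη hmb.symm hs
  have h4 := gibbs_sum (range W) (J := m) (r := fun _ => mb / W) (fun s _ => h0 s)
    (fun _ _ => by positivity) hp hs
  simp only [div_div_eq_mul_div] at h3 h4
  set d := ∑ s ∈ range W, m s * Real.log (m s * W / mb)
  have h5 : ∀ s ∈ range W, m s * (φ₂ (c + (M : ℤ) * (s : ℤ)) - φ₁ c) ≤
      C * |m s - mb / W| + mb / W * (φ₂ (c + (M : ℤ) * (s : ℤ)) - φ₁ c) := by
    intro s _
    have := le_abs_self ((m s - mb / W) * (φ₂ (c + (M : ℤ) * (s : ℤ)) - φ₁ c))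
    rw [abs_mul] at this
    have h6 := mul_le_mul_of_nonneg_left (h1 c s) (abs_nonneg (m s - mb / W))
    linarith
  refine (sum_le_sum h5).trans ?_
  rw [sum_add_distrib, ← mul_sum, ← mul_sum]
  have h7 := mul_le_mul_of_nonneg_left (h2 c) (show 0 ≤ mb / W by positivity)
  have h8 := mul_le_mul_of_nonneg_left h3 hC
  have e1 : mb / W * (W * χ) = χ * mb := by field_simp
  have e2 : C * (d / η + η * mb) = C / η * d + C * η * mb := by ring
  linarith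

theorem rate_zero {P : ℕ → ℝ → Prop} (mono : ∀ n x y, x ≤ y → P n x → P n y)
    (sub : ∀ n k x y, P n x → P k y → P (n + k) (x * y)) (P0 : P 0 1) {B : ℝ} (hB : 1 ≤ B)
    (P1 : P 1 B)
    (imp : ∀ τ > 0, (∀ ε > 0, ∃ C ≥ 1, ∀ n : ℕ, P n (C * Real.exp ((τ + ε) * n))) →
      ∃ N : ℕ, 1 ≤ N ∧ ∃ t < τ, P N (Real.exp (t * N))) :
    ∀ ε > 0, ∃ C ≥ 1, ∀ n : ℕ, P n (C * Real.exp (ε * n)) := by
  have hpow : ∀ N x, P N x → ∀ k : ℕ, P (N * k) (x ^ k) := by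
    intro N x h k
    induction k with
    | zero => simpa using P0
    | succ k ih => rw [Nat.mul_succ, pow_succ]; exact sub _ _ _ _ ih h
  have key : ∀ N : ℕ, 1 ≤ N → ∀ t, 0 ≤ t → P N (Real.exp (t * N)) →
      ∃ C ≥ 1, ∀ n : ℕ, P n (C * Real.exp (t * n)) := by
    intro N hN t ht h
    refine ⟨B ^ N, one_le_pow₀ hB, fun n => ?_⟩
    have h1 := sub _ _ _ _ (hpow N _ h (n / N)) (hpow 1 _ P1 (n % N))
    rw [one_mul, Nat.div_add_mod] at h1
    refine mono _ _ _ ?_ h1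
    rw [mul_comm, ← Real.exp_nat_mul]
    refine mul_le_mul (pow_le_pow_right₀ hB (Nat.mod_lt _ hN).le) (Real.exp_le_exp.2 ?_)
      (Real.exp_pos _).le (by positivity)
    have : ((N * (n / N) : ℕ) : ℝ) ≤ n := by exact_mod_cast Nat.mul_div_le n N
    push_cast at this
    nlinarith
  set T : Set ℝ := {t | 0 ≤ t ∧ ∃ C ≥ 1, ∀ n : ℕ, P n (C * Real.exp (t * n))} with hT
  have hne : T.Nonempty := ⟨Real.log B, Real.log_nonneg hB, key 1 le_rfl _ (Real.log_nonneg hB)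
    (by simpa [Real.exp_log (by linarith : 0 < B)] using P1)⟩
  have hbd : BddBelow T := ⟨0, fun t ht => ht.1⟩
  have h0 : 0 ≤ sInf T := le_csInf hne fun t ht => ht.1
  have hup : ∀ ε > 0, ∃ C ≥ 1, ∀ n : ℕ, P n (C * Real.exp ((sInf T + ε) * n)) := by
    intro ε hε
    obtain ⟨t, ⟨_, C, hC, h⟩, ht⟩ := exists_lt_of_csInf_lt hne (lt_add_of_pos_right _ hε)
    refine ⟨C, hC, fun n => mono _ _ _ ?_ (h n)⟩
    exact mul_le_mul_of_nonneg_left (Real.exp_le_exp.2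
      (mul_le_mul_of_nonneg_right ht.le (Nat.cast_nonneg n))) (by linarith)
  rcases h0.eq_or_lt with h1 | h1
  · intro ε hε
    have := hup ε hε
    rwa [← h1, zero_add] at this
  · obtain ⟨N, hN, t, ht, h⟩ := imp _ h1 hup
    have h2 : max t 0 ∈ T := ⟨le_max_right _ _, key N hN _ (le_max_right _ _) (mono _ _ _
      (Real.exp_le_exp.2 (mul_le_mul_of_nonneg_right (le_max_left _ _) (Nat.cast_nonneg N))) h)⟩
    exact absurd (csInf_le hbd h2) (not_le.2 (max_lt ht h1))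

end Pool.Agent.Lib.MP_0baeaf_nt.H
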