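import Mathlib
import Pool.Agent.Lib.MP_0baeaf_nt.HIfs

/-! All positive moments of the class-conditioned densities are subexponential. -/

namespace Pool.Agent.Lib.MP_0baeaf_nt.H

open Finset

section prod
variable {n : ℕ} {ι : Type} [Fintype ι] {J : Fin n × ι → ℝ} {o : ι → ℤ}

theorem fin_dvd_iff (s t : Fin n) : (n : ℤ) ∣ ((s : ℕ) : ℤ) - ((t : ℕ) : ℤ) ↔ s = t := by
  constructor
  · intro h
    have := Int.eq_zero_of_abs_lt_dvd h (by
      have := s.2; have := t.2; rw [abs_lt]; constructor <;> omega)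
    exact Fin.ext (by omega)
  · rintro rfl; simp

theorem ms_fst (s : Fin n) : ms J (fun ω => ((ω.1 : ℕ) : ℤ)) n ((s : ℕ) : ℤ) = ∑ i, J (s, i) := by
  unfold ms
  simp only [fin_dvd_iff]
  rw [Fintype.sum_prod_type, sum_comm]
  simp

theorem ms_snd (ho : ∀ i i', (n : ℤ) ∣ o i - o i' → i = i') (i : ι) :
    ms J (fun ω => o ω.2) n (o i) = ∑ s, J (s, i) := by
  classical
  unfold ms
  have : ∀ i', (n : ℤ) ∣ o i' - o i ↔ i' = i := fun i' => ⟨ho _ _, by rintro rfl; simp⟩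
  simp only [this]
  rw [Fintype.sum_prod_type]
  simp

theorem ms2_prod (ho : ∀ i i', (n : ℤ) ∣ o i - o i' → i = i') (s : Fin n) (i : ι) :
    ms2 J (fun ω => ((ω.1 : ℕ) : ℤ)) (fun ω => o ω.2) n ((s : ℕ) : ℤ) (o i) = J (s, i) := by
  classical
  unfold ms2
  have : ∀ i', (n : ℤ) ∣ o i' - o i ↔ i' = i := fun i' => ⟨ho _ _, by rintro rfl; simp⟩
  simp only [this, fin_dvd_iff]
  rw [sum_eq_single (s, i)]
  · simp
  · intro b _ hb
    exact if_neg fun h => hb (Prod.ext h.1 h.2)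
  · simp

theorem ent_snd_le (hJ : ∀ ω, 0 ≤ J ω) (h1 : ∑ ω, J ω = 1)
    (ho : ∀ i i', (n : ℤ) ∣ o i - o i' → i = i') :
    ent J (fun ω => o ω.2) n ≤ Real.log (Fintype.card ι) := by
  unfold ent
  simp only [ms_snd ho]
  rw [Fintype.sum_prod_type, sum_comm]
  simp only [← sum_mul]
  have h2 : ∑ i, ∑ s, J (s, i) = 1 := by rw [← h1, Fintype.sum_prod_type, sum_comm]
  have h3 := gibbs_log (univ : Finset ι) (m := fun i => ∑ s, J (s, i)) (r := fun _ => 1)
    (R := Fintype.card ι) (fun i _ => sum_nonneg fun s _ => hJ _) (fun _ _ => zero_le_one)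
    (fun _ _ _ => one_pos) (by simp)
  simp only [h2, one_mul, div_one, one_div, Real.log_inv, mul_neg, sum_neg_distrib] at h3
  exact h3

end prod

theorem aF_le {Ω : Type*} [Fintype Ω] {J : Ω → ℝ} {Z : Ω → ℤ} (hJ : ∀ ω, 0 ≤ J ω)
    (hJ1 : ∑ ω, J ω = 1) {q : ℕ} (hq : 0 < q) {φ : ℕ → ℤ → ℝ} {sup : ℕ → ℤ → Prop} {L : ℕ} {N : ℝ}
    (hφ : ∀ j, Per (q ^ j) (φ j)) (hφ0 : ∀ x, φ 0 x = 0)
    (hs : ∀ ω, 0 < J ω → ∀ x, ((q ^ L : ℕ) : ℤ) ∣ Z ω - x → sup L x)
    (w : Win (q ^ 0) (q ^ L) (φ 0) (φ (0 + L)) (sup (0 + L)) N 0) : aF J Z q φ L ≤ N := by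
  have h1 := aF_sub (Z := Z) hJ hJ1 hq φ 0 L
  have a0 : aF J Z q φ 0 = 0 := by simp [aF, hφ0, ent, ms_one hJ1]
  have h2 := win1 (Z := Z) hJ hJ1 (pow_pos hq 0) (pow_pos hq L) w (hφ 0)
    (by rw [← pow_add]; exact hφ _) (by rw [← pow_add, zero_add]; exact hs)
  rw [← h1, a0, zero_add] at h2
  linarith

namespace Dat

variable {S : Dat}

theorem take_split (ws : List (ℕ → ℝ)) {j l : ℕ} (h : j + l ≤ ws.length) :
    ws.take (j + l) = ws.take j ++ (ws.drop j).take l ∧ (ws.take j).length = j ∧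
      ((ws.drop j).take l).length = l := by
  refine ⟨List.take_add, ?_, ?_⟩ <;> simp <;> omega

theorem Ok.take_per (h : S.Ok) (ws : List (ℕ → ℝ)) (j : ℕ) : Per (S.q ^ j) (S.F (ws.take j)) :=
  (h.F_per _).pow (by simp)

theorem pw_take {ws : List (ℕ → ℝ)} (hw : ∀ w ∈ ws, S.Pw w) (j : ℕ) : ∀ w ∈ ws.take j, S.Pw w :=
  fun w h => hw w (List.mem_of_mem_take h)

theorem pw_drop {ws : List (ℕ → ℝ)} (hw : ∀ w ∈ ws, S.Pw w) (j : ℕ) : ∀ w ∈ ws.drop j, S.Pw w :=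
  fun w h => hw w (List.mem_of_mem_drop h)

theorem Ok.take_pos (h : S.Ok) {ws : List (ℕ → ℝ)} (hw : ∀ w ∈ ws, S.Pw w) {z : ℤ}
    (hz : 0 < S.F ws z) (j : ℕ) : 0 < S.F (ws.take j) z := by
  refine h.F_pos_of_append (pw_take hw j) (ws' := ws.drop j) (s := 0) ?_
  simpa using hz

noncomputable def mom (S : Dat) (Q : ℕ) (ws : List (ℕ → ℝ)) : ℝ :=
  (∑ s ∈ range (S.q ^ ws.length), S.F ws s ^ Q) / (S.q : ℝ) ^ ws.length

theorem Ok.mom_fiber (h : S.Ok) {Q : ℕ} (hQ : 1 ≤ Q) {ws ws' : List (ℕ → ℝ)} (hw : ∀ w ∈ ws, S.Pw w)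
    (hw' : ∀ w ∈ ws', S.Pw w) (y : ℤ) :
    ∑ s ∈ range (S.q ^ ws'.length), S.F (ws ++ ws') (y + ((S.q ^ ws.length : ℕ) : ℤ) * (s : ℤ)) ^ Q ≤
      S.F ws y ^ Q * ∑ s ∈ range (S.q ^ ws'.length), S.F ws' s ^ Q := by
  rcases (h.F_nonneg hw y).eq_or_lt with h0 | h0
  · rw [← h0, zero_pow (by omega), zero_mul]
    refine le_of_eq (sum_eq_zero fun s _ => ?_)
    have hn := h.F_nonneg (ws := ws ++ ws') (fun w hw2 => (List.mem_append.1 hw2).elim (hw w) (hw' w))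
      (y + ((S.q ^ ws.length : ℕ) : ℤ) * (s : ℤ))
    rcases hn.eq_or_lt with h1 | h1
    · rw [← h1, zero_pow (by omega)]
    · exact absurd (h.F_pos_of_append hw h1) (by rw [← h0]; exact lt_irrefl _)
  · have := h.mix_convex hw ws' h0 (convexOn_pow Q) (fun x => h.F_nonneg hw' x)
    simp only [div_pow, ← sum_div] at this
    rwa [div_le_iff₀' (pow_pos h0 Q)] at this

theorem Ok.mom_nonneg (h : S.Ok) (Q : ℕ) {ws : List (ℕ → ℝ)} (hw : ∀ w ∈ ws, S.Pw w) :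
    0 ≤ S.mom Q ws :=
  div_nonneg (sum_nonneg fun s _ => pow_nonneg (h.F_nonneg hw s) Q) (by positivity)

theorem Ok.mom_append (h : S.Ok) {Q : ℕ} (hQ : 1 ≤ Q) {ws ws' : List (ℕ → ℝ)} (hw : ∀ w ∈ ws, S.Pw w)
    (hw' : ∀ w ∈ ws', S.Pw w) : S.mom Q (ws ++ ws') ≤ S.mom Q ws * S.mom Q ws' := by
  have hq : (0 : ℝ) < S.q := by exact_mod_cast h.q_pos
  unfold mom
  rw [List.length_append, pow_add, sum_mul_range _ _ (fun x => S.F (ws ++ ws') x ^ Q), div_mul_div_comm,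
    pow_add, sum_mul]
  exact div_le_div_of_nonneg_right (sum_le_sum fun y _ => h.mom_fiber hQ hw hw' y) (by positivity)

theorem Ok.winPos1 (h : S.Ok) (Q : ℕ) {ws : List (ℕ → ℝ)} (hw : ∀ w ∈ ws, S.Pw w) {j l : ℕ}
    (hjl : j + l ≤ ws.length) {N : ℝ} (hN : S.mom Q ((ws.drop j).take l) ≤ Real.exp N) :
    Win (S.q ^ j) (S.q ^ l) (fun x => Q * Real.log (S.F (ws.take j) x))
      (fun x => Q * Real.log (S.F (ws.take (j + l)) x)) (fun x => 0 < S.F (ws.take (j + l)) x) N 0 := by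
  have hq : (0 : ℝ) < S.q := by exact_mod_cast h.q_pos
  obtain ⟨e1, e2, e3⟩ := take_split ws hjl
  have := win_of_moment (M := S.q ^ j) (pow_pos h.q_pos l) (φ₁ := fun x => Q * Real.log (S.F (ws.take j) x))
    (φ₂ := fun x => Q * Real.log (S.F (ws.take (j + l)) x)) (sup := fun x => 0 < S.F (ws.take (j + l)) x)
    (N := N) zero_le_one ?_
  · simpa using this
  intro c
  rcases (h.F_nonneg (pw_take hw j) c).eq_or_lt with h0 | h0
  · refine ⟨fun _ => 0, fun _ => le_rfl, by simp; positivity, fun s hs => ?_⟩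
    rw [e1] at hs
    have := h.F_pos_of_append (pw_take hw j) (y := c) (s := s) (by rw [e2]; exact hs)
    exact absurd this (by rw [← h0]; exact lt_irrefl _)
  refine ⟨fun s => (S.F (ws.take (j + l)) (c + ((S.q ^ j : ℕ) : ℤ) * (s : ℤ)) / S.F (ws.take j) c) ^ Q,
    fun s => pow_nonneg (div_nonneg (h.F_nonneg (pw_take hw _) _) h0.le) _, ?_, fun s hs => ⟨by positivity, ?_⟩⟩
  · have := h.mix_convex (pw_take hw j) ((ws.drop j).take l) h0 (convexOn_pow Q)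
      (fun x => h.F_nonneg (pw_take (pw_drop hw j) l) x)
    rw [← e1, e2, e3] at this
    refine this.trans ?_
    unfold mom at hN
    rw [e3, div_le_iff₀' (by positivity)] at hN
    exact_mod_cast hN
  · rw [one_mul, Real.log_pow, Real.log_div hs.ne' h0.ne', mul_sub]

theorem Ok.winPos2 (h : S.Ok) (Q : ℕ) {ws : List (ℕ → ℝ)} (hw : ∀ w ∈ ws, S.Pw w) {j l : ℕ}
    (hjl : j + l ≤ ws.length) :
    Win (S.q ^ j) (S.q ^ l) (fun x => Q * Real.log (S.F (ws.take j) x))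
      (fun x => Q * Real.log (S.F (ws.take (j + l)) x)) (fun x => 0 < S.F (ws.take (j + l)) x) 0
      (Q - 1) := by
  obtain ⟨e1, e2, e3⟩ := take_split ws hjl
  have := win_of_moment (M := S.q ^ j) (pow_pos h.q_pos l) (φ₁ := fun x => Q * Real.log (S.F (ws.take j) x))
    (φ₂ := fun x => Q * Real.log (S.F (ws.take (j + l)) x)) (sup := fun x => 0 < S.F (ws.take (j + l)) x)
    (N := 0) (Nat.cast_nonneg Q) ?_
  · simpa using this
  intro c
  rcases (h.F_nonneg (pw_take hw j) c).eq_or_lt with h0 | h0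
  · refine ⟨fun _ => 0, fun _ => le_rfl, by simp, fun s hs => ?_⟩
    rw [e1] at hs
    have := h.F_pos_of_append (pw_take hw j) (y := c) (s := s) (by rw [e2]; exact hs)
    exact absurd this (by rw [← h0]; exact lt_irrefl _)
  refine ⟨fun s => S.F (ws.take (j + l)) (c + ((S.q ^ j : ℕ) : ℤ) * (s : ℤ)) / S.F (ws.take j) c,
    fun s => div_nonneg (h.F_nonneg (pw_take hw _) _) h0.le, ?_, fun s hs => ⟨by positivity, ?_⟩⟩
  · have := h.mix_convex (pw_take hw j) ((ws.drop j).take l) h0 (convexOn_id convex_univ)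
      (fun x => Set.mem_univ _)
    simp only [id] at this
    rw [h.sum_F (pw_take (pw_drop hw j) l), ← e1, e2, e3] at this
    simpa using this
  · rw [Real.log_div hs.ne' h0.ne', mul_sub]

/-- variational identity for a uniform population -/
theorem Ok.pos_var (h : S.Ok) (Q : ℕ) {ws : List (ℕ → ℝ)} (hw : ∀ w ∈ ws, S.Pw w) {ι : Type}
    [Fintype ι] [Nonempty ι] {o : ι → ℤ}
    (ho : ∀ i i', ((S.q ^ ws.length : ℕ) : ℤ) ∣ o i - o i' → i = i') :
    ∃ J : Fin (S.q ^ ws.length) × ι → ℝ, (∀ ω, 0 ≤ J ω) ∧ ∑ ω, J ω = 1 ∧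
      (∀ ω, 0 < J ω → 0 < S.F ws ((ω.1 : ℕ) + o ω.2)) ∧
      Real.log ((∑ s ∈ range (S.q ^ ws.length), ((∑ i, S.F ws (s + o i)) / Fintype.card ι) ^ (Q + 1)) /
        (S.q : ℝ) ^ ws.length) =
      aF J (fun ω => (ω.1 : ℕ) + o ω.2) S.q (fun j x => (Q + 1 : ℕ) * Real.log (S.F (ws.take j) x)) ws.length
        - Q * (ent J (fun ω => (ω.1 : ℕ)) (S.q ^ ws.length) + Real.log (Fintype.card ι) -
          ent2 J (fun ω => (ω.1 : ℕ)) (fun ω => o ω.2) (S.q ^ ws.length))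
        - (ent J (fun ω => (ω.1 : ℕ) + o ω.2) (S.q ^ ws.length) + Real.log (Fintype.card ι) -
          ent2 J (fun ω => (ω.1 : ℕ)) (fun ω => o ω.2) (S.q ^ ws.length)) := by
  have hq : (0 : ℝ) < S.q := by exact_mod_cast h.q_pos
  have hp := pow_pos h.q_pos ws.length
  have hc : (0 : ℝ) < Fintype.card ι := by exact_mod_cast Fintype.card_pos
  set f : ℤ → ℝ := fun s => (∑ i, S.F ws (s + o i)) / Fintype.card ι with hf
  have hf0 : ∀ s, 0 ≤ f s := fun s => div_nonneg (sum_nonneg fun i _ => h.F_nonneg hw _) hc.le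
  set Zs : ℝ := ∑ s ∈ range (S.q ^ ws.length), f s ^ (Q + 1) with hZs
  have hZ : 0 < Zs := by
    have h1 : ∑ s ∈ range (S.q ^ ws.length), f s = (S.q : ℝ) ^ ws.length := by
      simp only [hf]
      rw [← sum_div, sum_comm]
      simp only [sum_shift hp (h.F_per ws), h.sum_F hw]
      simp only [sum_const, card_univ, nsmul_eq_mul]
      field_simp
    obtain ⟨s, hs, h2⟩ : ∃ s ∈ range (S.q ^ ws.length), 0 < f s := by
      by_contra hcon
      push Not at hcon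
      have := sum_nonpos hcon
      rw [h1] at this
      exact absurd this (not_le.2 (by positivity))
    exact (pow_pos h2 _).trans_le (single_le_sum (f := fun s : ℕ => f s ^ (Q + 1))
      (fun s _ => pow_nonneg (hf0 _) _) hs)
  set J : Fin (S.q ^ ws.length) × ι → ℝ := fun ω =>
    f (ω.1 : ℕ) ^ Q * S.F ws ((ω.1 : ℕ) + o ω.2) / (Fintype.card ι * Zs) with hJ
  have hJ0 : ∀ ω, 0 ≤ J ω := fun ω =>
    div_nonneg (mul_nonneg (pow_nonneg (hf0 _) _) (h.F_nonneg hw _)) (by positivity)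
  have hJs : ∀ s, ∑ i, J (s, i) = f (s : ℕ) ^ (Q + 1) / Zs := by
    intro s
    simp only [hJ]
    rw [← sum_div, ← mul_sum, pow_succ, hf]
    field_simp
  have hJ1 : ∑ ω, J ω = 1 := by
    rw [Fintype.sum_prod_type]
    simp only [hJs]
    rw [← sum_div, ← Finset.sum_range (f := fun s : ℕ => f s ^ (Q + 1)), ← hZs, div_self hZ.ne']
  have hpos : ∀ ω, 0 < J ω → 0 < S.F ws ((ω.1 : ℕ) + o ω.2) := by
    intro ω h1
    rcases (h.F_nonneg hw ((ω.1 : ℕ) + o ω.2)).eq_or_lt with h2 | h2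
    · simp only [hJ] at h1; rw [← h2] at h1; simp at h1
    · exact h2
  refine ⟨J, hJ0, hJ1, hpos, ?_⟩
  have key : ∀ ω, J ω * ((Q + 1 : ℕ) * Real.log (S.F ws ((ω.1 : ℕ) + o ω.2))) =
      (Q + 1) * (J ω * Real.log (J ω)) - Q * (J ω * Real.log (f (ω.1 : ℕ) ^ (Q + 1) / Zs)) +
        (Real.log Zs + (Q + 1) * Real.log (Fintype.card ι)) * J ω := by
    intro ω
    rcases (hJ0 ω).eq_or_lt with h1 | h1
    · rw [← h1]; simp
    have h2 := hpos ω h1
    have h3 : 0 < f (ω.1 : ℕ) := div_pos (h2.trans_le (single_le_sum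
      (f := fun i => S.F ws ((ω.1 : ℕ) + o i)) (fun i _ => h.F_nonneg hw _) (mem_univ _))) hc
    have h4 : Real.log (J ω) = Q * Real.log (f (ω.1 : ℕ)) + Real.log (S.F ws ((ω.1 : ℕ) + o ω.2)) -
        (Real.log (Fintype.card ι) + Real.log Zs) := by
      simp only [hJ]
      rw [Real.log_div (by positivity) (by positivity), Real.log_mul (by positivity) h2.ne',
        Real.log_mul hc.ne' hZ.ne', Real.log_pow]
    rw [h4, Real.log_div (by positivity) hZ.ne', Real.log_pow]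
    push_cast; ring
  unfold aF
  simp only [List.take_length, key, sum_add_distrib, sum_sub_distrib, ← mul_sum, hJ1]
  have e1 : ent J (fun ω => (ω.1 : ℕ)) (S.q ^ ws.length) =
      -∑ ω, J ω * Real.log (f (ω.1 : ℕ) ^ (Q + 1) / Zs) := by
    unfold ent; simp only [ms_fst, hJs]
  have e2 : ent2 J (fun ω => (ω.1 : ℕ)) (fun ω => o ω.2) (S.q ^ ws.length) =
      -∑ ω, J ω * Real.log (J ω) := by
    unfold ent2; simp only [ms2_prod ho]
  rw [e1, e2, Real.log_div hZ.ne' (by positivity), Real.log_pow]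
  ring

end Dat

end Pool.Agent.Lib.MP_0baeaf_nt.H
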