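import Mathlib
import Pool.Agent.Lib.MP_0baeaf_nt.HPos

/-! All positive moments of the class-conditioned densities are subexponential: conclusion. -/

namespace Pool.Agent.Lib.MP_0baeaf_nt.H

open Finset

noncomputable def dl (k : ℕ) : ℕ → ℝ := fun j => if j = k then 1 else 0

theorem exists_exp_ge (C : ℝ) {h : ℝ} (hh : 0 < h) (n₀ : ℕ) : ∃ n ≥ n₀, C ≤ Real.exp (h * n) := by
  obtain ⟨m, hm⟩ := exists_nat_ge (C / h)
  refine ⟨m + n₀, by omega, ?_⟩
  rw [div_le_iff₀ hh] at hm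
  have := Real.add_one_le_exp (h * ((m + n₀ : ℕ) : ℝ))
  have h2 : (0 : ℝ) ≤ h * n₀ := by positivity
  push_cast at this ⊢
  nlinarith

namespace Dat

variable {S : Dat}

theorem pw_dl {k : ℕ} (hk : k ≤ S.q) : S.Pw (dl k) := by
  refine ⟨fun j => by unfold dl; split_ifs <;> norm_num, ?_⟩
  unfold dl
  rw [sum_ite_eq']
  simp; omega

theorem pw_map {κ : List ℕ} (hκ : ∀ k ∈ κ, k ≤ S.q) : ∀ w ∈ κ.map dl, S.Pw w := by
  intro w hw
  obtain ⟨k, hk, rfl⟩ := List.mem_map.1 hw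
  exact pw_dl (hκ k hk)

theorem wt_dl (κ : List ℕ) : ∀ ω ∈ S.words κ.length,
    S.wt (κ.map dl) ω = if ω.map Prod.fst = κ then S.ρ ^ κ.length else 0 := by
  induction κ with
  | nil => intro ω hω; simp [words] at hω; subst hω; simp [wt]
  | cons k κ ih =>
    intro ω hω
    obtain ⟨d, _, ω', h1, rfl⟩ := S.mem_words_succ.1 hω
    simp only [List.map_cons, wt, ih ω' h1, dl, List.cons.injEq, List.length_cons]
    by_cases h2 : d.1 = k <;> by_cases h3 : ω'.map Prod.fst = κ <;> simp [h2, h3, pow_succ']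

theorem A_eq (ω : List (ℕ × ℤ)) : S.A ω = ((ω.map Prod.fst).map S.al).prod := by
  induction ω with
  | nil => simp [A]
  | cons d ω ih => simp [A, ih]

/-- the moment bound as a predicate -/
def PP (S : Dat) (Q n : ℕ) (x : ℝ) : Prop :=
  ∀ κ : List ℕ, κ.length = n → (∀ k ∈ κ, k ≤ S.q) → S.mom Q (κ.map dl) ≤ x

theorem Ok.mom_le (h : S.Ok) (Q : ℕ) {ws : List (ℕ → ℝ)} (hw : ∀ w ∈ ws, S.Pw w) :
    S.mom Q ws ≤ ((S.q : ℝ) ^ ws.length) ^ Q := by
  have hq : (0 : ℝ) < S.q := by exact_mod_cast h.q_pos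
  unfold mom
  rw [div_le_iff₀' (by positivity)]
  refine (sum_le_sum fun (s : ℕ) _ => pow_le_pow_left₀ (h.F_nonneg hw s) (h.F_le hw s) Q).trans ?_
  simp

theorem Ok.flat_pos (h : S.Ok) {Q : ℕ} (hQ : 1 ≤ Q) {τ σ : ℝ} (hτ : 0 < τ) (hσ : 0 < σ)
    (hB : ∀ ε > 0, ∃ C ≥ 1, ∀ n : ℕ, S.PP (Q + 1) n (C * Real.exp ((τ + ε) * n))) :
    ∃ g > 0, ∃ C ≥ 1, ∃ L₀ : ℕ, ∀ κ : List ℕ, L₀ ≤ κ.length → (∀ k ∈ κ, k ≤ S.q) →
      ∀ (ι : Type) [Fintype ι] [Nonempty ι] (o : ι → ℤ),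
      (∀ i i', ((S.q ^ κ.length : ℕ) : ℤ) ∣ o i - o i' → i = i') →
      2 * σ * κ.length ≤ Real.log (Fintype.card ι) →
      ∑ s ∈ range (S.q ^ κ.length), ((∑ i, S.F (κ.map dl) (s + o i)) / Fintype.card ι) ^ (Q + 1) ≤
        (S.q : ℝ) ^ κ.length * (C * Real.exp ((τ - g) * κ.length)) := by
  have hq : (0 : ℝ) < S.q := by exact_mod_cast h.q_pos
  have hq1 : (1 : ℝ) ≤ S.q := by exact_mod_cast h.q_pos
  obtain ⟨g, hg, ε, hε, hfl⟩ := flatten h.q_pos h.hQ hτ hσ
    (N₁ := (Q + 1 : ℕ) * Real.log S.q) (mul_nonneg (Nat.cast_nonneg _) (Real.log_nonneg hq1))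
  obtain ⟨C₁, hC₁, hP₁⟩ := hB ε hε
  obtain ⟨D, hD⟩ := hfl (Real.log C₁) (Real.log_nonneg hC₁)
  obtain ⟨γ₀, hγ₀, L₀, hL⟩ := hD D le_rfl (((Q + 1 : ℕ) : ℝ) - 1) (by push_cast; simp)
  set γ := min γ₀ σ with hγ
  have hγp : 0 < γ := lt_min hγ₀ hσ
  obtain ⟨C₂, hC₂, hP₂⟩ := hB (γ / 2) (by positivity)
  refine ⟨min g (γ / 2), lt_min hg (by positivity), C₂, hC₂, L₀, ?_⟩
  intro κ hκL hκ ι _ _ o ho hcard
  have hw := pw_map hκ
  have hlen : (κ.map dl).length = κ.length := List.length_map _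
  have hwin : ∀ {C ε' : ℝ}, 1 ≤ C → (∀ n : ℕ, S.PP (Q + 1) n (C * Real.exp ((τ + ε') * n))) →
      ∀ j l, j + l ≤ (κ.map dl).length →
      S.mom (Q + 1) (((κ.map dl).drop j).take l) ≤ Real.exp ((τ + ε') * l + Real.log C) := by
    intro C ε' hC hP j l hjl
    rw [← List.map_drop, ← List.map_take, Real.exp_add, Real.exp_log (by linarith), mul_comm]
    refine hP l _ (by simp at hjl ⊢; omega) fun k hk => hκ k ?_
    exact List.mem_of_mem_drop (List.mem_of_mem_take hk)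
  rw [← hlen] at hcard hκL ho ⊢
  generalize κ.map dl = ws at *
  obtain ⟨J, hJ, hJ1, hpos, hvar⟩ := h.pos_var Q hw ho
  set φ : ℕ → ℤ → ℝ := fun j x => (Q + 1 : ℕ) * Real.log (S.F (ws.take j) x) with hφ
  have hφp : ∀ j, Per (S.q ^ j) (φ j) := fun j a b hab => by
    simp only [hφ]; rw [h.take_per _ j a b hab]
  have hφ0 : ∀ x, φ 0 x = 0 := fun x => by simp [hφ, F]
  have hs : ∀ j, ∀ ω : Fin (S.q ^ ws.length) × ι, 0 < J ω → ∀ x, ((S.q ^ j : ℕ) : ℤ) ∣ (ω.1 : ℕ) + o ω.2 - x →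
      0 < S.F (ws.take j) x := fun j ω h1 x hx => by
    rw [← h.take_per _ j _ _ hx]; exact h.take_pos hw (hpos ω h1) j
  have hY := ent_snd_le hJ hJ1 ho
  have hp := pow_pos h.q_pos ws.length
  have m1 := mi_nonneg (X := fun ω => (ω.1 : ℕ)) (Y := fun ω => o ω.2) hJ hJ1 hp
  have m2 := mi_nonneg (X := fun ω => (ω.1 : ℕ) + o ω.2) (Y := fun ω => o ω.2) hJ hJ1 hp
  have hL0 : (0 : ℝ) ≤ ws.length := Nat.cast_nonneg ws.length
  have hQ' : (1 : ℝ) ≤ Q := by exact_mod_cast hQ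
  have hmain : Real.log ((∑ s ∈ range (S.q ^ ws.length),
      ((∑ i, S.F ws (s + o i)) / Fintype.card ι) ^ (Q + 1)) / (S.q : ℝ) ^ ws.length) ≤
      Real.log C₂ + (τ - min g (γ / 2)) * ws.length := by
    rw [hvar]
    have hlC := Real.log_nonneg hC₂
    unfold mi at m1 m2
    rw [ent2_add] at m2
    by_cases hcase : γ * ws.length ≤ (ent J (fun ω => (ω.1 : ℕ)) (S.q ^ ws.length) + Real.log (Fintype.card ι) -
          ent2 J (fun ω => (ω.1 : ℕ)) (fun ω => o ω.2) (S.q ^ ws.length))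
        + (ent J (fun ω => (ω.1 : ℕ) + o ω.2) (S.q ^ ws.length) + Real.log (Fintype.card ι) -
          ent2 J (fun ω => (ω.1 : ℕ)) (fun ω => o ω.2) (S.q ^ ws.length))
    · have ha := aF_le (Z := fun ω => (ω.1 : ℕ) + o ω.2) hJ hJ1 h.q_pos
        (sup := fun j x => 0 < S.F (ws.take j) x) hφp hφ0 (hs ws.length)
        (h.winPos1 (Q + 1) hw (j := 0) (l := ws.length) (by omega) (hwin hC₂ hP₂ 0 ws.length (by omega)))
      have := mul_le_mul_of_nonneg_right (min_le_right g (γ / 2)) hL0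
      nlinarith
    · push Not at hcase
      have g1 := mul_le_mul_of_nonneg_right (min_le_left γ₀ σ) hL0
      have g2 := mul_le_mul_of_nonneg_right (min_le_right γ₀ σ) hL0
      have ha := hL ws.length hκL _ J (fun ω => (ω.1 : ℕ)) (fun ω => o ω.2) φ
        (fun j x => 0 < S.F (ws.take j) x) hJ hJ1 hφp hφ0 (fun j _ => hs j)
        (fun j hj => h.winPos1 (Q + 1) hw hj (by
          refine (h.mom_le _ (pw_take (pw_drop hw j) 1)).trans (le_of_eq ?_)
          rw [(take_split _ hj).2.2, pow_one, ← Real.log_pow, Real.exp_log (by positivity)]))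
        (fun j hj => h.winPos1 (Q + 1) hw hj (hwin hC₁ hP₁ j D hj))
        (fun j hj => (h.winPos2 (Q + 1) hw hj).mono (by positivity))
        (by linarith) (by unfold mi; rw [ent2_add]; linarith)
      have := mul_le_mul_of_nonneg_right (min_le_left g (γ / 2)) hL0
      nlinarith
  rw [← div_le_iff₀' (by positivity)]
  refine (Real.le_exp_log _).trans ?_
  refine (Real.exp_le_exp.2 hmain).trans (le_of_eq ?_)
  rw [Real.exp_add, Real.exp_log (by linarith)]

theorem Ok.pos_main (h : S.Ok) {Q : ℕ} (hQ : 1 ≤ Q) :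
    ∀ ε > 0, ∃ C ≥ 1, ∀ n : ℕ, S.PP (Q + 1) n (C * Real.exp (ε * n)) := by
  have hq : (0 : ℝ) < S.q := by exact_mod_cast h.q_pos
  have hq1 : (1 : ℝ) ≤ S.q := by exact_mod_cast h.q_pos
  refine rate_zero (fun n x y hxy hP κ h1 h2 => (hP κ h1 h2).trans hxy) ?_ ?_
    (B := (S.q : ℝ) ^ (Q + 1)) (one_le_pow₀ hq1) ?_ ?_
  · intro n k x y hx hy κ h1 h2
    rw [← List.take_append_drop n κ, List.map_append]
    have a1 : ∀ k ∈ κ.take n, k ≤ S.q := fun k hk => h2 k (List.mem_of_mem_take hk)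
    have a2 : ∀ k ∈ κ.drop n, k ≤ S.q := fun k hk => h2 k (List.mem_of_mem_drop hk)
    have b1 := hx _ (by simp; omega) a1
    have b2 := hy _ (by simp; omega) a2
    exact (h.mom_append (by omega) (pw_map a1) (pw_map a2)).trans
      (mul_le_mul b1 b2 (h.mom_nonneg _ (pw_map a2)) ((h.mom_nonneg _ (pw_map a1)).trans b1))
  · intro κ h1 h2
    simpa [h1] using h.mom_le (Q + 1) (pw_map h2)
  · intro κ h1 h2
    simpa [h1] using h.mom_le (Q + 1) (pw_map h2)
  intro τ hτ hB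
  obtain ⟨R, hR, hinj⟩ := h.off_inj
  have hR' : (1 : ℝ) ≤ R := by exact_mod_cast hR
  have hδ : 0 < -Real.log S.ρ := neg_pos.2 (Real.log_neg h.ρ_pos h.ρ_lt_one)
  obtain ⟨g, hg, C₁, hC₁, L₀, hfl⟩ := h.flat_pos hQ hτ (σ := -Real.log S.ρ / (2 * R)) (by positivity) hB
  set u := min τ g / 2 with hu
  have hu0 : 0 < u := by have := lt_min hτ hg; positivity
  have hu1 : u ≤ τ / 2 := by have := min_le_left τ g; linarith
  have hu2 : u ≤ g / 2 := by have := min_le_right τ g; linarith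
  obtain ⟨C₂, hC₂, hP₂⟩ := hB (u / R) (by positivity)
  obtain ⟨n, hn, hexp⟩ := exists_exp_ge (C₂ + C₂ * C₁) (half_pos hu0) (L₀ + 1)
  have hn0 : (0 : ℝ) ≤ n := Nat.cast_nonneg n
  refine ⟨n + R * n, by omega, τ - u / (2 * (R + 1)), by
    have : 0 < u / (2 * (R + 1)) := by positivity
    linarith, ?_⟩
  intro κ h1 h2
  rw [← List.take_append_drop n κ, List.map_append]
  have a1 : ∀ k ∈ κ.take n, k ≤ S.q := fun k hk => h2 k (List.mem_of_mem_take hk)
  have a2 : ∀ k ∈ κ.drop n, k ≤ S.q := fun k hk => h2 k (List.mem_of_mem_drop hk)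
  have l1 : (κ.take n).length = n := by simp; omega
  have l2 : (κ.drop n).length = R * n := by simp; omega
  generalize κ.take n = κ₁ at a1 l1
  generalize κ.drop n = κ₂ at a2 l2
  have l1' : (κ₁.map dl).length = n := by simpa using l1
  have l2' : (κ₂.map dl).length = R * n := by simpa using l2
  have w1 := pw_map a1
  have w2 := pw_map a2
  have b1 := hP₂ _ _ l1 a1
  have b2 := hP₂ _ _ l2 a2
  set x₁ := C₂ * Real.exp ((τ + u / R) * ((R * n : ℕ) : ℝ)) with hx₁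
  set x₂ := C₁ * Real.exp ((τ - g) * ((R * n : ℕ) : ℝ)) with hx₂
  have hx₁0 : 0 ≤ x₁ := by positivity
  have hx₂0 : 0 ≤ x₂ := by positivity
  have hfib : ∀ y : ℤ, ∑ s ∈ range (S.q ^ (R * n)),
      S.F (κ₁.map dl ++ κ₂.map dl) (y + ((S.q ^ n : ℕ) : ℤ) * (s : ℤ)) ^ (Q + 1) ≤
      (S.q : ℝ) ^ (R * n) * (x₁ + S.F (κ₁.map dl) y ^ (Q + 1) * x₂) := by
    intro y
    have hF0 := h.F_nonneg w1 y
    by_cases hy : S.F (κ₁.map dl) y ≤ 1
    · have := h.mom_fiber (Q := Q + 1) (by omega) w1 w2 y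
      rw [l1', l2'] at this
      unfold mom at b2
      rw [l2', div_le_iff₀' (by positivity)] at b2
      refine this.trans ((mul_le_mul (pow_le_one₀ hF0 hy) b2
        (sum_nonneg fun s _ => pow_nonneg (h.F_nonneg w2 _) _) zero_le_one).trans ?_)
      rw [one_mul]
      exact mul_le_mul_of_nonneg_left (le_add_of_nonneg_right (by positivity)) (by positivity)
    push Not at hy
    set T := (S.val n y).filter fun ω => ω.map Prod.fst = κ₁ with hT
    have hwt : ∀ (f : List (ℕ × ℤ) → ℝ), ∑ ω ∈ S.val n y, S.wt (κ₁.map dl) ω * f ω =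
        S.ρ ^ n * ∑ ω ∈ T, f ω := by
      intro f
      rw [hT, sum_filter, mul_sum]
      refine sum_congr rfl fun ω hω => ?_
      rw [wt_dl κ₁ ω (by rw [l1]; exact (mem_filter.1 hω).1), l1]
      split_ifs <;> simp
    have hF : S.F (κ₁.map dl) y = S.ρ ^ n * T.card := by
      have := hwt fun _ => 1
      simp only [mul_one, sum_const, nsmul_eq_mul] at this
      rw [h.F_val, l1', this]
    have hρ := pow_pos h.ρ_pos n
    have hTc : (0 : ℝ) < T.card := by
      by_contra hc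
      push Not at hc
      nlinarith
    have hne : Nonempty T := by
      obtain ⟨ω, hω⟩ := card_pos.1 (by exact_mod_cast hTc : 0 < T.card)
      exact ⟨⟨ω, hω⟩⟩
    have hA : ∀ ω ∈ T, S.A ω = (κ₁.map S.al).prod := fun ω hω => by
      rw [A_eq, (mem_filter.1 hω).2]
    have hfl' := hfl κ₂ (by rw [l2]; nlinarith) a2 T (fun i => S.off n y i) (fun i i' hd => by
        rw [l2] at hd
        exact Subtype.ext (hinj n y _ (mem_filter.1 i.2).1 _ (mem_filter.1 i'.2).1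
          (by rw [hA _ i.2, hA _ i'.2]) hd))
      (by
        rw [l2, Fintype.card_coe]
        have e : 2 * (-Real.log S.ρ / (2 * R)) * ((R * n : ℕ) : ℝ) = -Real.log (S.ρ ^ n) := by
          rw [Real.log_pow]; push_cast; field_simp
        rw [e, ← Real.log_inv]
        refine Real.log_le_log (by positivity) ?_
        rw [inv_le_iff_one_le_mul₀' hρ, ← hF]; exact hy.le)
    rw [l2, Fintype.card_coe] at hfl'
    obtain ⟨ω₀⟩ := hne
    have hcop : IsCoprime (κ₁.map S.al).prod ((S.q ^ (R * n) : ℕ) : ℤ) := by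
      rw [← hA _ ω₀.2]; exact h.A_cop _ _
    have e1 : ∀ s : ℤ, S.F (κ₁.map dl ++ κ₂.map dl) (y + ((S.q ^ n : ℕ) : ℤ) * s) =
        S.F (κ₁.map dl) y * ((∑ i : T, S.F (κ₂.map dl) ((κ₁.map S.al).prod * s + 0 + S.off n y i)) / T.card) := by
      intro s
      have := h.F_mix (κ₁.map dl) (κ₂.map dl) y s
      rw [l1'] at this
      rw [this, hwt, hF, sum_coe_sort T (fun ω => S.F (κ₂.map dl) ((κ₁.map S.al).prod * s + 0 + S.off n y ω)),
        sum_congr rfl fun ω hω => by rw [hA ω hω]]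
      simp only [add_zero]
      field_simp
    simp only [e1, mul_pow, ← mul_sum]
    rw [sum_aff (pow_pos h.q_pos _)
      (f := fun x => ((∑ i : T, S.F (κ₂.map dl) (x + S.off n y i)) / T.card) ^ (Q + 1))
      (fun a b hab => by
        simp only
        congr 2
        refine sum_congr rfl fun i _ => h.F_per _ _ _ ?_
        rw [l2']; rwa [add_sub_add_right_eq_sub]) hcop 0]
    refine (mul_le_mul_of_nonneg_left hfl' (by positivity)).trans ?_
    rw [mul_add, mul_left_comm]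
    exact le_add_of_nonneg_left (by positivity)
  have hm : S.mom (Q + 1) (κ₁.map dl ++ κ₂.map dl) ≤ x₁ + S.mom (Q + 1) (κ₁.map dl) * x₂ := by
    unfold mom
    rw [List.length_append, l1', l2', pow_add,
      sum_mul_range _ _ (fun x => S.F (κ₁.map dl ++ κ₂.map dl) x ^ (Q + 1)), div_le_iff₀' (by positivity)]
    refine (sum_le_sum fun (y : ℕ) _ => hfib y).trans (le_of_eq ?_)
    rw [← mul_sum, sum_add_distrib, sum_const, ← sum_mul, card_range, nsmul_eq_mul, pow_add]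
    push_cast; field_simp
  refine hm.trans ?_
  have t1 : x₁ ≤ C₂ * Real.exp ((τ * (R + 1) - u) * n) := by
    refine mul_le_mul_of_nonneg_left (Real.exp_le_exp.2 ?_) (by linarith)
    have e : (τ + u / R) * ((R * n : ℕ) : ℝ) = (τ * R + u) * n := by push_cast; field_simp
    rw [e]; exact mul_le_mul_of_nonneg_right (by linarith) hn0
  have t2 : S.mom (Q + 1) (κ₁.map dl) * x₂ ≤ C₂ * C₁ * Real.exp ((τ * (R + 1) - u) * n) := by
    refine (mul_le_mul_of_nonneg_right b1 hx₂0).trans ?_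
    rw [hx₂, mul_mul_mul_comm, ← Real.exp_add]
    refine mul_le_mul_of_nonneg_left (Real.exp_le_exp.2 ?_) (by positivity)
    have : u / R ≤ u := div_le_self hu0.le hR'
    have h3 : g ≤ g * R := le_mul_of_one_le_right hg.le hR'
    push_cast
    rw [← mul_assoc, ← add_mul]
    exact mul_le_mul_of_nonneg_right (by linarith) hn0
  have t3 : (C₂ + C₂ * C₁) * Real.exp ((τ * (R + 1) - u) * n) ≤
      Real.exp ((τ - u / (2 * (R + 1))) * ((n + R * n : ℕ) : ℝ)) := by
    refine (mul_le_mul_of_nonneg_right hexp (Real.exp_pos _).le).trans (le_of_eq ?_)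
    rw [← Real.exp_add]; congr 1; push_cast; field_simp; ring
  linarith

end Dat

end Pool.Agent.Lib.MP_0baeaf_nt.H
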