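import Mathlib
import Pool.Agent.Lib.MP_0baeaf_nt.HPosMain

/-! One step of the coupling with the uniform law, with repairs by expensive blocks. -/

namespace Pool.Agent.Lib.MP_0baeaf_nt.H

open Finset

noncomputable def wp (q : ℕ) (p : ℝ) : ℕ → ℝ := fun k => if k = 0 then 1 - p else p / q

theorem wp_nonneg (q : ℕ) {p : ℝ} (hp : 0 < p) (hp1 : p ≤ 1) (k : ℕ) : 0 ≤ wp q p k := by
  unfold wp; split_ifs
  · linarith
  · positivity

theorem sum_wp {q : ℕ} (hq : 0 < q) (p : ℝ) : ∑ k ∈ range (q + 1), wp q p k = 1 := by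
  have hq' : (0 : ℝ) < q := by exact_mod_cast hq
  rw [sum_range_succ']
  simp [wp]
  field_simp; ring

theorem coupling {q : ℕ} (hq : 0 < q) {p : ℝ} (hp : 0 < p) (hp1 : p ≤ 1) {π : ℤ → ℝ} (hπ : Per q π)
    (h0 : ∀ x, 0 ≤ π x) (h1 : ∑ x ∈ range q, π x = 1) {a : ℤ} (ha : IsCoprime a (q : ℤ)) {c : ℕ → ℤ}
    (hc : ∀ f : ℤ → ℝ, Per q f → ∀ x : ℤ, ∑ k ∈ range q, f (x + c (k + 1)) = ∑ s ∈ range q, f s)
    {η : ℝ} (hη : 0 < η) :
    ∃ Q : ℕ → ℕ → ℝ, (∀ k s, s < q → 0 ≤ Q k s) ∧ (∀ s, s < q → ∑ k ∈ range (q + 1), Q k s = 1 / q) ∧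
      (∀ k s, s < q → Q k s ≤ π (a * s + c k)) ∧ (∀ k s, 0 < Q k s → 0 < wp q p k) ∧
      0 ≤ ∑ s ∈ range q, ∑ k ∈ range (q + 1), Q k s * Real.log (q * π (a * s + c k)) ∧
      ∑ s ∈ range q, ∑ k ∈ range (q + 1), Q k s * Real.log (q * Q k s / wp q p k) ≤
        (1 + q ^ 2 / p) / η * ∑ s ∈ range q, ∑ k ∈ range (q + 1), Q k s * Real.log (q * π (a * s + c k)) +
          (1 + q ^ 2 / p) * η := by
  have hq' : (0 : ℝ) < q := by exact_mod_cast hq
  have hw0 := wp_nonneg q hp hp1
  have hw1 := sum_wp hq p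
  have hwle : ∀ k, wp q p k ≤ 1 := fun k => by
    unfold wp; split_ifs
    · linarith
    · rw [div_le_one hq']; exact hp1.trans (by exact_mod_cast hq)
  set mn : ℤ → ℝ := fun x => min (π x) (1 / q) with hmn
  have mnp : Per q mn := fun x y h => by simp only [hmn, hπ x y h]
  have mn0 : ∀ x, 0 ≤ mn x := fun x => le_min (h0 x) (by positivity)
  have mn1 : ∀ x, mn x ≤ π x := fun x => min_le_left _ _
  have mn2 : ∀ x, mn x ≤ 1 / q := fun x => min_le_right _ _
  have π1 : ∀ x, π x ≤ 1 := fun x => by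
    rw [← h1, ← sum_shift hq hπ x]
    simpa using single_le_sum (f := fun s : ℕ => π (s + x)) (fun s _ => h0 _) (mem_range.2 hq)
  set τ := ∑ x ∈ range q, (π x - mn x) with hτ
  set r : ℕ → ℝ := fun s => 1 / q - ∑ k ∈ range (q + 1), wp q p k * mn (a * s + c k) with hr
  have r0 : ∀ s, 0 ≤ r s := fun s => by
    have := sum_le_sum fun k (_ : k ∈ range (q + 1)) =>
      mul_le_mul_of_nonneg_left (mn2 (a * s + c k)) (hw0 k)
    rw [← sum_mul, hw1, one_mul] at this
    simp only [hr]; linarith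
  have hA : ∀ g : ℤ → ℝ, Per q g → ∑ s ∈ range q, ∑ k ∈ range (q + 1), wp q p k * g (a * s + c k) =
      ∑ x ∈ range q, g x := fun g hg => by
    rw [sum_comm]
    simp only [← mul_sum, sum_aff hq hg ha]
    rw [← sum_mul, hw1, one_mul]
  have r1 : ∑ s ∈ range q, r s = τ := by
    simp only [hr]
    rw [sum_sub_distrib, hA mn mnp, hτ, sum_sub_distrib, h1, sum_const, card_range, nsmul_eq_mul]
    field_simp
  have r2 : ∀ s, s < q → r s ≤ τ := fun s hs => by
    rw [← r1]; exact single_le_sum (fun s _ => r0 s) (mem_range.2 hs)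
  have τ0 : 0 ≤ τ := sum_nonneg fun x _ => sub_nonneg.2 (mn1 x)
  set B : ℕ → ℕ → ℝ := fun k s => if k = 0 then 0 else r s / τ * (π (a * s + c k) - mn (a * s + c k))
    with hB
  have B0 : ∀ k s, 0 ≤ B k s := fun k s => by
    simp only [hB]; split_ifs
    · exact le_rfl
    · exact mul_nonneg (div_nonneg (r0 s) τ0) (sub_nonneg.2 (mn1 _))
  have B1 : ∀ k s, s < q → B k s ≤ π (a * s + c k) - mn (a * s + c k) := fun k s hs => by
    simp only [hB]; split_ifs
    · exact sub_nonneg.2 (mn1 _)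
    · exact mul_le_of_le_one_left (sub_nonneg.2 (mn1 _)) (div_le_one_of_le₀ (r2 s hs) τ0)
  have hBs : ∀ g : ℤ → ℝ, Per q g → ∀ s : ℕ, ∑ k ∈ range (q + 1), B k s * g (a * s + c k) =
      r s / τ * ∑ x ∈ range q, (π x - mn x) * g x := fun g hg s => by
    rw [sum_range_succ', ← hc (fun x => (π x - mn x) * g x)
      (fun x y h => by simp only [hπ x y h, mnp x y h, hg x y h]) (a * s), mul_sum]
    simp [hB, mul_assoc]
  have B2 : ∀ s, s < q → ∑ k ∈ range (q + 1), B k s = r s := fun s hs => by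
    have := hBs (fun _ => 1) (fun _ _ _ => rfl) s
    simp only [mul_one] at this
    rw [this, ← hτ]
    rcases τ0.eq_or_lt with h | h
    · have := r2 s hs
      rw [← h] at this ⊢
      rw [le_antisymm this (r0 s)]; simp
    · field_simp
  have hKL : ∑ s ∈ range q, ∑ k ∈ range (q + 1), (wp q p k * mn (a * s + c k) + B k s) *
      Real.log (q * π (a * s + c k)) = ∑ x ∈ range q, π x * Real.log (π x / (1 / q)) := by
    have hg : Per q fun x => Real.log (q * π x) := fun x y h => by simp only [hπ x y h]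
    simp only [add_mul, sum_add_distrib, mul_assoc]
    rw [hA (fun x => mn x * Real.log (q * π x)) (fun x y h => by simp only [hπ x y h, mnp x y h])]
    simp only [hBs _ hg]
    rw [← sum_mul, ← sum_div, r1]
    have e : τ / τ * ∑ x ∈ range q, (π x - mn x) * Real.log (q * π x) =
        ∑ x ∈ range q, (π x - mn x) * Real.log (q * π x) := by
      rcases τ0.eq_or_lt with h | h
      · have h2 := (sum_eq_zero_iff_of_nonneg fun (x : ℕ) _ => sub_nonneg.2 (mn1 x)).1 (hτ ▸ h.symm)
        rw [sum_eq_zero fun x hx => by rw [h2 x hx, zero_mul], mul_zero]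
      · rw [div_self h.ne', one_mul]
    rw [e, ← sum_add_distrib]
    refine sum_congr rfl fun x _ => ?_
    rw [div_div_eq_mul_div, div_one, mul_comm (π x) q]; ring
  have hu : ∑ x ∈ range q, (1 : ℝ) / q ≤ 1 := by
    rw [sum_const, card_range, nsmul_eq_mul]; exact le_of_eq (by field_simp)
  refine ⟨fun k s => wp q p k * mn (a * s + c k) + B k s,
    fun k s _ => add_nonneg (mul_nonneg (hw0 k) (mn0 _)) (B0 k s), fun s hs => ?_, fun k s hs => ?_,
    fun k s h => ?_, ?_, ?_⟩
  · rw [sum_add_distrib, B2 s hs]; simp only [hr]; ring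
  · have := mul_le_of_le_one_left (mn0 (a * s + c k)) (hwle k)
    linarith [B1 k s hs]
  · by_cases hk : k = 0
    · subst hk
      rcases (hw0 0).eq_or_lt with h2 | h2
      · simp [hB, ← h2] at h
      · exact h2
    · simp only [wp, if_neg hk]; positivity
  · rw [hKL]
    exact gibbs_sum _ (fun x _ => h0 x) (fun _ _ => by positivity) (fun _ _ _ => by positivity)
      (by rw [h1]; exact hu)
  rw [hKL]
  have hP := pinsker_sum (range q) (J := fun x => π x) (r := fun _ => 1 / q) (fun x _ => h0 x)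
    (fun _ _ => by positivity) (fun _ _ _ => by positivity) hη h1 hu
  have hτ2 : τ ≤ ∑ x ∈ range q, |π x - 1 / q| := sum_le_sum fun x _ => by
    simp only [hmn]
    rcases le_total (π x) (1 / q) with h | h
    · rw [min_eq_left h, sub_self]; exact abs_nonneg _
    · rw [min_eq_right h]; exact le_abs_self _
  have hpt : ∀ s, s < q → ∀ k, (wp q p k * mn (a * s + c k) + B k s) *
      Real.log (q * (wp q p k * mn (a * s + c k) + B k s) / wp q p k) ≤ (1 + q ^ 2 / p) * B k s := by
    intro s hs k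
    have m0 := mn0 (a * s + c k)
    have m2 := mn2 (a * s + c k)
    have b0 := B0 k s
    by_cases hk : k = 0
    · have hb : B k s = 0 := by simp [hB, hk]
      rw [hb, add_zero, mul_zero]
      refine mul_nonpos_of_nonneg_of_nonpos (mul_nonneg (hw0 k) m0)
        (Real.log_nonpos (div_nonneg (mul_nonneg hq'.le (mul_nonneg (hw0 k) m0)) (hw0 k)) ?_)
      refine div_le_one_of_le₀ ?_ (hw0 k)
      rw [le_div_iff₀ hq'] at m2
      nlinarith [hw0 k]
    have hw : wp q p k = p / q := by simp [wp, hk]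
    have b1 : B k s ≤ 1 := by linarith [B1 k s hs, π1 (a * s + c k)]
    rw [hw]
    generalize mn (a * s + c k) = m at m0 m2
    generalize B k s = b at b0 b1
    have hQ0 : 0 ≤ p / q * m + b := by positivity
    rcases hQ0.eq_or_lt with h | h
    · rw [← h, zero_mul]; positivity
    have h2 := Real.log_le_sub_one_of_pos (show 0 < q * (p / q * m + b) / (p / q) by positivity)
    have e : q * (p / q * m + b) / (p / q) = q * m + q ^ 2 / p * b := by field_simp
    have h3 : q * m ≤ 1 := by rw [le_div_iff₀ hq'] at m2; linarith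
    have h4 : p / q * m ≤ p / q ^ 2 := by
      calc p / q * m ≤ p / q * (1 / q) := mul_le_mul_of_nonneg_left m2 (by positivity)
        _ = _ := by field_simp
    calc _ ≤ (p / q * m + b) * (q ^ 2 / p * b) := mul_le_mul_of_nonneg_left (by linarith) hQ0
      _ ≤ (p / q ^ 2 + b) * (q ^ 2 / p * b) := mul_le_mul_of_nonneg_right (by linarith) (by positivity)
      _ = b + q ^ 2 / p * (b * b) := by field_simp
      _ ≤ b + q ^ 2 / p * b := by
          have := mul_le_mul_of_nonneg_left (mul_le_of_le_one_right b0 b1) (show 0 ≤ (q : ℝ) ^ 2 / p by positivity)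
          linarith
      _ = _ := by ring
  refine (sum_le_sum fun s hs => sum_le_sum fun k _ => hpt s (mem_range.1 hs) k).trans ?_
  simp only [← mul_sum]
  rw [sum_congr rfl fun s hs => B2 s (mem_range.1 hs), r1]
  have := mul_le_mul_of_nonneg_left (hτ2.trans hP) (show 0 ≤ 1 + (q : ℝ) ^ 2 / p by positivity)
  refine this.trans (le_of_eq ?_)
  ring

end Pool.Agent.Lib.MP_0baeaf_nt.H
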