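import Mathlib
import Pool.Agent.Lib.MP_0baeaf_nt.HCoup

/-! The mean of `log F` over all residues is `-o(n)`. -/

namespace Pool.Agent.Lib.MP_0baeaf_nt.H

open Finset

def cl (q : ℕ) : ℕ → Finset (List ℕ)
  | 0 => {[]}
  | n + 1 => (range (q + 1) ×ˢ cl q n).map ⟨fun p => p.1 :: p.2, fun p p' h => by
      simp only [List.cons.injEq] at h; exact Prod.ext h.1 h.2⟩

theorem sum_cl_succ (q n : ℕ) (f : List ℕ → ℝ) :
    ∑ κ ∈ cl q (n + 1), f κ = ∑ k ∈ range (q + 1), ∑ κ ∈ cl q n, f (k :: κ) := by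
  rw [cl, sum_map, sum_product]; rfl

theorem card_cl (q n : ℕ) : (cl q n).card = (q + 1) ^ n := by
  induction n with
  | zero => simp [cl]
  | succ n ih => rw [cl, card_map, card_product, ih, card_range, pow_succ']

theorem mem_cl {q n : ℕ} {κ : List ℕ} (h : κ ∈ cl q n) : κ.length = n ∧ ∀ k ∈ κ, k ≤ q := by
  induction n generalizing κ with
  | zero => simp [cl] at h; simp [h]
  | succ n ih =>
    rw [cl, mem_map] at h
    obtain ⟨p, hp, rfl⟩ := h
    obtain ⟨h1, h2⟩ := mem_product.1 hp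
    obtain ⟨h3, h4⟩ := ih h2
    refine ⟨by simp [h3], fun k hk => ?_⟩
    rcases List.mem_cons.1 hk with rfl | hk
    · exact Nat.lt_succ_iff.1 (mem_range.1 h1)
    · exact h4 k hk

noncomputable def conv {ι : Type} [Fintype ι] (ν : ι → ℝ) (o : ι → ℤ) (f : ℤ → ℝ) (s : ℤ) : ℝ :=
  ∑ i, ν i * f (s + o i)

theorem conv_per {ι : Type} [Fintype ι] (ν : ι → ℝ) (o : ι → ℤ) {f : ℤ → ℝ} {n : ℕ} (hf : Per n f) :
    Per n (conv ν o f) := fun a b h =>
  sum_congr rfl fun i _ => by rw [hf (a + o i) (b + o i) (by rwa [add_sub_add_right_eq_sub])]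

theorem log_sum_ge {ι : Type*} (s : Finset ι) {m x : ι → ℝ} (hm : ∀ i ∈ s, 0 ≤ m i)
    (h1 : ∑ i ∈ s, m i = 1) (hx : ∀ i ∈ s, 0 < m i → 0 < x i) {R : ℝ}
    (hR : ∑ i ∈ s, m i * x i ≤ R) : ∑ i ∈ s, m i * Real.log (x i) ≤ Real.log R := by
  have h0 : ∀ i ∈ s, 0 ≤ m i * x i := fun i hi => by
    rcases (hm i hi).eq_or_lt with h | h
    · rw [← h, zero_mul]
    · exact (mul_pos h (hx i hi h)).le
  have := gibbs_log s hm h0 (fun i hi h => mul_pos h (hx i hi h)) hR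
  rw [h1, one_mul, div_one] at this
  refine le_trans (le_of_eq (sum_congr rfl fun i hi => ?_)) this
  rcases (hm i hi).eq_or_lt with h | h
  · rw [← h]; simp
  · rw [mul_div_cancel_left₀ _ h.ne']

namespace Dat

variable {S : Dat}

noncomputable def Fn (S : Dat) (p : ℝ) (n : ℕ) : ℤ → ℝ := S.F (List.replicate n (wp S.q p))

theorem Ok.pw_wp (h : S.Ok) {p : ℝ} (hp : 0 < p) (hp1 : p ≤ 1) : S.Pw (wp S.q p) :=
  ⟨wp_nonneg _ hp hp1, sum_wp h.q_pos p⟩

theorem Ok.pw_rep (h : S.Ok) {p : ℝ} (hp : 0 < p) (hp1 : p ≤ 1) (n : ℕ) :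
    ∀ w ∈ List.replicate n (wp S.q p), S.Pw w := fun w hw => by
  rw [List.eq_of_mem_replicate hw]; exact h.pw_wp hp hp1

theorem ite_per (q : ℕ) (b : ℤ) (x : ℝ) : Per q fun y => if (q : ℤ) ∣ b + y then x else 0 := by
  intro y y' hy
  have := valid_congr (A := 1) (O := b) hy
  simp only [one_mul, add_comm _ b] at this
  simp only [this]

theorem sum_ite_add {q : ℕ} (hq : 0 < q) (b : ℤ) (x : ℝ) :
    ∑ y ∈ range q, (if (q : ℤ) ∣ b + y then x else 0) = x := by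
  refine Eq.trans (sum_congr rfl fun y _ => ?_) (sum_ite_dvd hq (-b) x)
  have : (q : ℤ) ∣ b + y ↔ (q : ℤ) ∣ -b - y := by
    rw [show -b - y = -(b + y) by ring, dvd_neg]
  simp only [this]

theorem Ok.al_congr (h : S.Ok) (k : ℕ) (y z : ℤ) :
    (S.q : ℤ) ∣ S.al k * y + z ↔ (S.q : ℤ) ∣ S.al 0 * y + z := by
  rw [show S.al k * y + z = (S.al k - S.al 0) * y + (S.al 0 * y + z) by ring]
  exact dvd_add_right ((h.cong k).mul_right _)

theorem Ok.Fn_ge (h : S.Ok) {p : ℝ} (hp : 0 < p) (hp1 : p ≤ 1) (n : ℕ) (y : ℤ) : p ^ n ≤ S.Fn p n y := by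
  have hq : (0 : ℝ) < S.q := by exact_mod_cast h.q_pos
  have hE : (0 : ℝ) < S.E.card := by exact_mod_cast h.q_pos.trans h.hE
  have hρ := h.ρ_pos
  induction n generalizing y with
  | zero => simp [Fn, F]
  | succ n ih =>
    unfold Fn at ih ⊢
    rw [List.replicate_succ, F, blocks, sum_product, sum_range_succ', sum_comm]
    have h1 : ∀ v ∈ S.E, p / S.q * S.ρ * p ^ n ≤ ∑ k ∈ range S.q,
        if (S.q : ℤ) ∣ S.al (k + 1) * y + (S.c (k + 1) - v) then wp S.q p (k + 1) * S.ρ *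
          S.F (List.replicate n (wp S.q p)) ((S.al (k + 1) * y + (S.c (k + 1) - v)) / S.q) else 0 := by
      intro v _
      rw [← sum_ite_add h.q_pos (S.al 0 * y - v) (p / S.q * S.ρ * p ^ n),
        ← h.cover _ (ite_per S.q (S.al 0 * y - v) (p / S.q * S.ρ * p ^ n)) 0]
      refine sum_le_sum fun k _ => ?_
      rw [show S.al 0 * y - v + (0 + S.c (k + 1)) = S.al 0 * y + (S.c (k + 1) - v) by ring]
      simp only [h.al_congr (k + 1)]
      split_ifs
      · simp only [wp, Nat.succ_ne_zero, if_false]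
        exact mul_le_mul_of_nonneg_left (ih _) (by positivity)
      · exact le_rfl
    have h2 := sum_le_sum h1
    have e : ∑ v ∈ S.E, p / S.q * S.ρ * p ^ n = p ^ (n + 1) := by
      rw [sum_const, nsmul_eq_mul]; unfold ρ; field_simp; ring
    rw [e] at h2
    refine h2.trans (le_add_of_nonneg_right (sum_nonneg fun v _ => ?_))
    split_ifs
    · exact mul_nonneg (mul_nonneg (wp_nonneg _ hp hp1 _) hρ.le) (h.F_nonneg (h.pw_rep hp hp1 n) _)
    · exact le_rfl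

theorem Ok.Fn_pos (h : S.Ok) {p : ℝ} (hp : 0 < p) (hp1 : p ≤ 1) (n : ℕ) (y : ℤ) : 0 < S.Fn p n y :=
  (pow_pos hp n).trans_le (h.Fn_ge hp hp1 n y)

theorem Ok.Fn_per (h : S.Ok) (p : ℝ) (n : ℕ) : Per (S.q ^ n) (S.Fn p n) := by
  have := h.F_per (List.replicate n (wp S.q p))
  rwa [List.length_replicate] at this

section step
variable {ι : Type} [Fintype ι] (ν : ι → ℝ) (o : ι → ℤ)

noncomputable def πf (S : Dat) (x : ℤ) : ℝ :=
  ∑ j : ι × S.E, if (S.q : ℤ) ∣ (S.al 0 * o j.1 - j.2) + x then ν j.1 / S.E.card else 0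

noncomputable def ν' (S : Dat) (k : ℕ) (s : ℤ) (j : ι × S.E) : ℝ :=
  (if (S.q : ℤ) ∣ (S.al 0 * o j.1 - j.2) + (S.al 0 * s + S.c k) then ν j.1 / S.E.card else 0) /
    S.πf ν o (S.al 0 * s + S.c k)

def o' (S : Dat) (k : ℕ) (s : ℤ) (j : ι × S.E) : ℤ := (S.al k * (s + o j.1) + (S.c k - j.2)) / S.q

variable {ν o}

theorem πf_per : Per S.q (S.πf ν o) := fun a b h =>
  sum_congr rfl fun j _ => ite_per S.q _ _ a b h

theorem πf_nonneg (hν : ∀ i, 0 ≤ ν i) (x : ℤ) : 0 ≤ S.πf ν o x :=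
  sum_nonneg fun _ _ => by
    split_ifs
    exacts [div_nonneg (hν _) (Nat.cast_nonneg _), le_rfl]

theorem Ok.sum_πf (h : S.Ok) (h1 : ∑ i, ν i = 1) : ∑ x ∈ range S.q, S.πf ν o x = 1 := by
  have hE : (0 : ℝ) < S.E.card := by exact_mod_cast h.q_pos.trans h.hE
  unfold πf
  rw [sum_comm]
  simp only [sum_ite_add h.q_pos]
  rw [Fintype.sum_prod_type]
  simp only [sum_const, card_univ, Fintype.card_coe, nsmul_eq_mul]
  rw [← mul_sum, ← sum_div, h1]; field_simp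

theorem ν'_nonneg (hν : ∀ i, 0 ≤ ν i) (k : ℕ) (s : ℤ) (j : ι × S.E) : 0 ≤ S.ν' ν o k s j := by
  refine div_nonneg ?_ (πf_nonneg hν _)
  split_ifs
  exacts [div_nonneg (hν _) (Nat.cast_nonneg _), le_rfl]

theorem sum_ν' {k : ℕ} {s : ℤ} (h : 0 < S.πf ν o (S.al 0 * s + S.c k)) : ∑ j, S.ν' ν o k s j = 1 := by
  unfold ν'
  rw [← sum_div]
  exact div_self h.ne'

theorem Ok.conv_step (h : S.Ok) (hν : ∀ i, 0 ≤ ν i) (w : ℕ → ℝ) (ws : List (ℕ → ℝ)) (s t : ℤ) :
    conv ν o (S.F (w :: ws)) (s + S.q * t) = ∑ k ∈ range (S.q + 1), w k *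
      (S.q * S.πf ν o (S.al 0 * s + S.c k) * conv (S.ν' ν o k s) (S.o' o k s) (S.F ws) (S.al k * t)) := by
  have hq0 : (S.q : ℤ) ≠ 0 := by exact_mod_cast h.q_pos.ne'
  unfold conv
  simp only [F, blocks, sum_product, mul_sum]
  rw [sum_comm]
  refine sum_congr rfl fun k _ => ?_
  rw [Fintype.sum_prod_type]
  refine sum_congr rfl fun i _ => ?_
  rw [← sum_coe_sort S.E]
  refine sum_congr rfl fun v _ => ?_
  have e1 : (S.q : ℤ) ∣ S.al k * (s + S.q * t + o i) + (S.c k - v) ↔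
      (S.q : ℤ) ∣ (S.al 0 * o i - v) + (S.al 0 * s + S.c k) := by
    rw [h.al_congr, show S.al 0 * (s + S.q * t + o i) + (S.c k - v) =
      S.q * (S.al 0 * t) + ((S.al 0 * o i - v) + (S.al 0 * s + S.c k)) by ring]
    exact dvd_add_right (dvd_mul_right _ _)
  have e2 : (S.al k * (s + S.q * t + o i) + (S.c k - v)) / S.q = S.al k * t + S.o' o k s (i, v) := by
    unfold o'
    rw [show S.al k * (s + S.q * t + o i) + (S.c k - v) =
      (S.al k * (s + o i) + (S.c k - v)) + S.q * (S.al k * t) by ring, Int.add_mul_ediv_left _ _ hq0,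
      add_comm]
  simp only [e1, e2, ν']
  split_ifs with h1
  · have hle : ν i / S.E.card ≤ S.πf ν o (S.al 0 * s + S.c k) := by
      have := single_le_sum (f := fun j : ι × S.E => if (S.q : ℤ) ∣ (S.al 0 * o j.1 - j.2) +
        (S.al 0 * s + S.c k) then ν j.1 / S.E.card else 0) (fun j _ => by
          split_ifs
          exacts [div_nonneg (hν _) (Nat.cast_nonneg _), le_rfl]) (mem_univ (i, v))
      simp only [h1, if_true] at this
      exact this
    rcases (πf_nonneg (S := S) (o := o) hν (S.al 0 * s + S.c k)).eq_or_lt with h2 | h2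
    · have hE : (0 : ℝ) < S.E.card := by exact_mod_cast h.q_pos.trans h.hE
      rw [← h2, div_le_iff₀ hE, zero_mul] at hle
      rw [le_antisymm hle (hν i)]; simp
    · unfold ρ; field_simp
  · simp

end step

noncomputable def GG (S : Dat) (p : ℝ) (n : ℕ) {ι : Type} [Fintype ι] (ν : ι → ℝ) (o : ι → ℤ) : ℝ :=
  (∑ s ∈ range (S.q ^ n), Real.log (conv ν o (S.Fn p n) s)) / (S.q : ℝ) ^ n

noncomputable def Φ (S : Dat) (Q n : ℕ) {ι : Type} [Fintype ι] (ν : ι → ℝ) (o : ι → ℤ) : ℝ :=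
  ∑ κ ∈ cl S.q n, (∑ s ∈ range (S.q ^ n), conv ν o (S.F (κ.map dl)) s ^ (Q + 1)) / (S.q : ℝ) ^ n

theorem Ok.conv_nonneg (h : S.Ok) {ι : Type} [Fintype ι] {ν : ι → ℝ} (hν : ∀ i, 0 ≤ ν i) (o : ι → ℤ)
    {ws : List (ℕ → ℝ)} (hw : ∀ w ∈ ws, S.Pw w) (s : ℤ) : 0 ≤ conv ν o (S.F ws) s :=
  sum_nonneg fun i _ => mul_nonneg (hν i) (h.F_nonneg hw _)

theorem Ok.conv_pos (h : S.Ok) {p : ℝ} (hp : 0 < p) (hp1 : p ≤ 1) (n : ℕ) {ι : Type} [Fintype ι]
    {ν : ι → ℝ} (hν : ∀ i, 0 ≤ ν i) (h1 : ∑ i, ν i = 1) (o : ι → ℤ) (s : ℤ) :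
    0 < conv ν o (S.Fn p n) s := by
  refine (pow_pos hp n).trans_le ?_
  rw [← one_mul (p ^ n), ← h1, sum_mul]
  exact sum_le_sum fun i _ => mul_le_mul_of_nonneg_left (h.Fn_ge hp hp1 n _) (hν i)

theorem Ok.Φ_pos (h : S.Ok) (Q n : ℕ) {ι : Type} [Fintype ι] {ν : ι → ℝ} (hν : ∀ i, 0 ≤ ν i)
    (h1 : ∑ i, ν i = 1) (o : ι → ℤ) : 0 < S.Φ Q n ν o := by
  have hq : (0 : ℝ) < S.q := by exact_mod_cast h.q_pos
  refine sum_pos (fun κ hκ => div_pos ?_ (by positivity)) (card_pos.1 (by rw [card_cl]; positivity))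
  obtain ⟨l1, l2⟩ := mem_cl hκ
  have hw := pw_map l2
  have hl : (κ.map dl).length = n := by simpa using l1
  have h2 : ∑ s ∈ range (S.q ^ n), conv ν o (S.F (κ.map dl)) s = (S.q : ℝ) ^ n := by
    unfold conv
    rw [sum_comm]
    have a1 := h.F_per (κ.map dl)
    have a2 := h.sum_F hw
    rw [hl] at a1 a2
    simp only [← mul_sum, sum_shift (pow_pos h.q_pos n) a1, a2]
    rw [← sum_mul, h1, one_mul]
  obtain ⟨s, hs, h3⟩ : ∃ s ∈ range (S.q ^ n), 0 < conv ν o (S.F (κ.map dl)) s := by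
    by_contra hcon
    push Not at hcon
    have := sum_nonpos hcon
    rw [h2] at this
    exact absurd this (not_le.2 (by positivity))
  exact (pow_pos h3 _).trans_le (single_le_sum (f := fun s : ℕ => conv ν o (S.F (κ.map dl)) s ^ (Q + 1))
    (fun s _ => pow_nonneg (h.conv_nonneg hν o hw _) _) hs)

theorem Ok.Φ_succ (h : S.Ok) (Q n : ℕ) {ι : Type} [Fintype ι] {ν : ι → ℝ} (hν : ∀ i, 0 ≤ ν i)
    (o : ι → ℤ) : S.Φ Q (n + 1) ν o = ∑ s ∈ range S.q, ∑ k ∈ range (S.q + 1),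
      S.πf ν o (S.al 0 * s + S.c k) * ((S.q * S.πf ν o (S.al 0 * s + S.c k)) ^ Q *
        S.Φ Q n (S.ν' ν o k s) (S.o' o k s)) := by
  have hq : (0 : ℝ) < S.q := by exact_mod_cast h.q_pos
  rw [sum_comm]
  unfold Φ
  rw [sum_cl_succ]
  refine sum_congr rfl fun k hk => ?_
  simp only [mul_sum]
  rw [sum_comm]
  refine sum_congr rfl fun κ hκ => ?_
  have hl : (κ.map dl).length = n := by simpa using (mem_cl hκ).1
  rw [pow_succ' S.q n, sum_mul_range _ _ (fun x => conv ν o (S.F ((k :: κ).map dl)) x ^ (Q + 1)), sum_div]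
  refine sum_congr rfl fun s _ => ?_
  simp only [List.map_cons, h.conv_step hν, dl, ite_mul, one_mul, zero_mul, sum_ite_eq', hk, if_true,
    mul_pow, ← mul_sum]
  have hper : Per (S.q ^ n) fun x => conv (S.ν' ν o k s) (S.o' o k s) (S.F (κ.map dl)) x ^ (Q + 1) :=
    fun a b hab => by
      have := h.F_per (κ.map dl)
      rw [hl] at this
      simp only [conv_per _ _ this a b hab]
  have := sum_aff (pow_pos h.q_pos n) hper (A := S.al k)
    (by push_cast; exact (h.cop k).pow_right) 0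
  simp only [add_zero] at this
  rw [this]
  field_simp
  ring

theorem Ok.GG_succ (h : S.Ok) {p : ℝ} (hp : 0 < p) (hp1 : p ≤ 1) (n : ℕ) {ι : Type} [Fintype ι]
    {ν : ι → ℝ} (hν : ∀ i, 0 ≤ ν i) (o : ι → ℤ) {Qc : ℕ → ℕ → ℝ} (q0 : ∀ k s, s < S.q → 0 ≤ Qc k s)
    (q1 : ∀ s, s < S.q → ∑ k ∈ range (S.q + 1), Qc k s = 1 / S.q)
    (q2 : ∀ k s, s < S.q → Qc k s ≤ S.πf ν o (S.al 0 * s + S.c k))
    (q3 : ∀ k s, 0 < Qc k s → 0 < wp S.q p k) :
    ∑ s ∈ range S.q, ∑ k ∈ range (S.q + 1), Qc k s *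
      (Real.log (S.q * S.πf ν o (S.al 0 * s + S.c k)) - Real.log (S.q * Qc k s / wp S.q p k) +
        S.GG p n (S.ν' ν o k s) (S.o' o k s)) ≤ S.GG p (n + 1) ν o := by
  have hq : (0 : ℝ) < S.q := by exact_mod_cast h.q_pos
  conv_rhs => unfold GG
  rw [pow_succ' S.q n, sum_mul_range _ _ (fun x => Real.log (conv ν o (S.Fn p (n + 1)) x)), sum_div]
  refine sum_le_sum fun s hs => ?_
  have hs' := mem_range.1 hs
  have h1 : ∀ t : ℕ, ∑ k ∈ range (S.q + 1), S.q * Qc k s *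
      (Real.log (S.q * S.πf ν o (S.al 0 * s + S.c k)) - Real.log (S.q * Qc k s / wp S.q p k) +
        Real.log (conv (S.ν' ν o k s) (S.o' o k s) (S.Fn p n) (S.al k * t + 0))) ≤
      Real.log (conv ν o (S.Fn p (n + 1)) (s + S.q * t)) := by
    intro t
    have h2 := gibbs_log (range (S.q + 1)) (m := fun k => S.q * Qc k s)
      (r := fun k => wp S.q p k * (S.q * S.πf ν o (S.al 0 * s + S.c k) *
        conv (S.ν' ν o k s) (S.o' o k s) (S.Fn p n) (S.al k * t)))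
      (R := conv ν o (S.Fn p (n + 1)) (s + S.q * t)) (fun k _ => mul_nonneg hq.le (q0 k s hs'))
      (fun k _ => mul_nonneg (wp_nonneg _ hp hp1 k) (mul_nonneg (mul_nonneg hq.le (πf_nonneg hν _))
        (h.conv_nonneg (ν'_nonneg hν k s) _ (h.pw_rep hp hp1 n) _)))
      (fun k _ hk => by
        have a1 : 0 < Qc k s := (mul_pos_iff_of_pos_left hq).1 hk
        have a2 := a1.trans_le (q2 k s hs')
        exact mul_pos (q3 k s a1) (mul_pos (mul_pos hq a2)
          (h.conv_pos hp hp1 n (ν'_nonneg hν k s) (sum_ν' a2) _ _)))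
      (le_of_eq (h.conv_step hν _ _ _ _).symm)
    rw [← mul_sum, q1 s hs', mul_one_div_cancel hq.ne', one_mul, div_one] at h2
    refine le_trans (le_of_eq (sum_congr rfl fun k _ => ?_)) h2
    rcases (q0 k s hs').eq_or_lt with a1 | a1
    · rw [← a1]; simp
    have a2 := a1.trans_le (q2 k s hs')
    have a3 := q3 k s a1
    have a4 := h.conv_pos hp hp1 n (ν'_nonneg hν k s) (sum_ν' a2) (S.o' o k s) (S.al k * t)
    rw [add_zero, Real.log_div (by positivity) a3.ne', Real.log_div (by positivity) (by positivity),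
      Real.log_mul a3.ne' (by positivity), Real.log_mul (by positivity) a4.ne']
    ring
  refine le_trans (le_of_eq ?_) (div_le_div_of_nonneg_right
    (sum_le_sum fun (t : ℕ) (_ : t ∈ range (S.q ^ n)) => h1 t) (by positivity))
  rw [sum_comm, sum_div]
  refine sum_congr rfl fun k _ => ?_
  rw [← mul_sum, sum_add_distrib, sum_aff (pow_pos h.q_pos n)
    (f := fun x => Real.log (conv (S.ν' ν o k s) (S.o' o k s) (S.Fn p n) x))
    (fun a b hab => by simp only [conv_per _ _ (h.Fn_per p n) a b hab])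
    (by push_cast; exact (h.cop k).pow_right) 0, sum_const, card_range, nsmul_eq_mul]
  unfold GG
  push_cast
  field_simp
  ring

theorem Ok.GG_ge (h : S.Ok) {p : ℝ} (hp : 0 < p) (hp1 : p ≤ 1) {Q : ℕ} (hQ : 1 ≤ Q) {η : ℝ}
    (hη : 0 < η) (n : ℕ) : ∀ (ι : Type) [Fintype ι] (ν : ι → ℝ) (o : ι → ℤ), (∀ i, 0 ≤ ν i) →
      ∑ i, ν i = 1 → -(n * ((1 + S.q ^ 2 / p) * η)) -
        (1 + S.q ^ 2 / p) / η / Q * Real.log (S.Φ Q n ν o) ≤ S.GG p n ν o := by
  have hq : (0 : ℝ) < S.q := by exact_mod_cast h.q_pos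
  have hQ' : (0 : ℝ) < Q := by exact_mod_cast hQ
  set C : ℝ := 1 + S.q ^ 2 / p with hC
  have hC0 : 0 < C := by positivity
  induction n with
  | zero =>
    intro ι _ ν o _ h1
    simp [GG, Φ, cl, conv, Fn, F, h1]
  | succ n ih =>
    intro ι _ ν o hν h1
    obtain ⟨Qc, q0, q1, q2, q3, q4, q5⟩ := coupling h.q_pos hp hp1 (πf_per (S := S) (ν := ν) (o := o))
      (πf_nonneg hν) (h.sum_πf h1) (h.cop 0) h.cover hη
    refine le_trans ?_ (h.GG_succ hp hp1 n hν o q0 q1 q2 q3)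
    have hs1 : ∑ s ∈ range S.q, ∑ k ∈ range (S.q + 1), Qc k s = 1 := by
      rw [sum_congr rfl fun s hs => q1 s (mem_range.1 hs), sum_const, card_range, nsmul_eq_mul]
      field_simp
    have a1 : ∑ s ∈ range S.q, ∑ k ∈ range (S.q + 1), Qc k s * (-(n * (C * η)) -
        C / η / Q * Real.log (S.Φ Q n (S.ν' ν o k s) (S.o' o k s))) ≤
        ∑ s ∈ range S.q, ∑ k ∈ range (S.q + 1), Qc k s * S.GG p n (S.ν' ν o k s) (S.o' o k s) := by
      refine sum_le_sum fun s hs => sum_le_sum fun k _ => ?_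
      rcases (q0 k s (mem_range.1 hs)).eq_or_lt with b1 | b1
      · rw [← b1]; simp
      · exact mul_le_mul_of_nonneg_left (ih _ _ _ (ν'_nonneg hν k s)
          (sum_ν' (b1.trans_le (q2 k s (mem_range.1 hs))))) b1.le
    have a2 : ∑ s ∈ range S.q, ∑ k ∈ range (S.q + 1), Qc k s *
        (Q * Real.log (S.q * S.πf ν o (S.al 0 * s + S.c k)) +
          Real.log (S.Φ Q n (S.ν' ν o k s) (S.o' o k s))) ≤ Real.log (S.Φ Q (n + 1) ν o) := by
      have b1 := log_sum_ge (range S.q ×ˢ range (S.q + 1)) (m := fun x => Qc x.2 x.1)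
        (x := fun x => (S.q * S.πf ν o (S.al 0 * x.1 + S.c x.2)) ^ Q *
          S.Φ Q n (S.ν' ν o x.2 x.1) (S.o' o x.2 x.1)) (R := S.Φ Q (n + 1) ν o)
        (fun x hx => q0 _ _ (mem_range.1 (mem_product.1 hx).1)) (by rw [sum_product]; exact hs1)
        (fun x hx b1 => by
          have b2 := b1.trans_le (q2 _ _ (mem_range.1 (mem_product.1 hx).1))
          exact mul_pos (by positivity) (h.Φ_pos Q n (ν'_nonneg hν _ _) (sum_ν' b2) _))
        (by
          rw [h.Φ_succ Q n hν, sum_product]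
          refine sum_le_sum fun s hs => sum_le_sum fun k _ => ?_
          refine mul_le_mul_of_nonneg_right (q2 k s (mem_range.1 hs)) (mul_nonneg
            (pow_nonneg (mul_nonneg hq.le (πf_nonneg hν _)) _) (sum_nonneg fun κ hκ => div_nonneg
              (sum_nonneg fun t _ => pow_nonneg (h.conv_nonneg (ν'_nonneg hν _ _) _
                (pw_map (mem_cl hκ).2) _) _) (by positivity))))
      rw [sum_product] at b1
      refine le_trans (le_of_eq (sum_congr rfl fun s hs => sum_congr rfl fun k _ => ?_)) b1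
      rcases (q0 k s (mem_range.1 hs)).eq_or_lt with b1 | b1
      · rw [← b1]; simp
      have b2 := b1.trans_le (q2 _ _ (mem_range.1 hs))
      rw [Real.log_mul (by positivity) (h.Φ_pos Q n (ν'_nonneg hν _ _) (sum_ν' b2) _).ne', Real.log_pow]
    simp only [mul_add, mul_sub, sum_add_distrib, sum_sub_distrib, mul_left_comm _ (Q : ℝ),
      mul_left_comm _ (C / η / Q), ← mul_sum, ← sum_mul, hs1] at a1 a2 ⊢
    have a3 := mul_le_mul_of_nonneg_left a2 (show 0 ≤ C / η / Q by positivity)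
    rw [mul_add, ← mul_assoc, div_mul_cancel₀ _ hQ'.ne'] at a3
    push_cast
    linarith

theorem Ok.chi_small (h : S.Ok) {p : ℝ} (hp : 0 < p) (hp1 : p ≤ 1) {ε : ℝ} (hε : 0 < ε) :
    ∃ C : ℝ, ∀ n : ℕ, -∑ s ∈ range (S.q ^ n), Real.log (S.Fn p n s) ≤ (S.q : ℝ) ^ n * (ε * n + C) := by
  have hq : (0 : ℝ) < S.q := by exact_mod_cast h.q_pos
  set C : ℝ := 1 + S.q ^ 2 / p with hC
  have hC0 : 0 < C := by positivity
  set η := ε / (2 * C) with hη
  have hη0 : 0 < η := by positivity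
  have hl : 0 ≤ Real.log (S.q + 1) := Real.log_nonneg (by linarith)
  obtain ⟨Q₀, hQ₀⟩ := exists_nat_ge (C / η * (Real.log (S.q + 1) + 1) / (ε / 2))
  obtain ⟨C₁, hC₁, hP⟩ := h.pos_main (Q := Q₀ + 1) (by omega) 1 one_pos
  refine ⟨C / η / (Q₀ + 1 : ℕ) * Real.log C₁, fun n => ?_⟩
  have h1 := h.GG_ge hp hp1 (Q := Q₀ + 1) (by omega) hη0 n Unit (fun _ => 1) (fun _ => 0)
    (fun _ => zero_le_one) (by simp)
  have h2 : S.Φ (Q₀ + 1) n (fun _ : Unit => (1 : ℝ)) (fun _ => 0) ≤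
      ((S.q : ℝ) + 1) ^ n * (C₁ * Real.exp (1 * n)) := by
    unfold Φ
    refine (sum_le_card_nsmul _ _ (C₁ * Real.exp (1 * n)) fun κ hκ => ?_).trans ?_
    · have := hP n κ (mem_cl hκ).1 (mem_cl hκ).2
      unfold mom at this
      simpa [conv, (mem_cl hκ).1] using this
    · rw [card_cl]; simp
  have h3 := Real.log_le_log (h.Φ_pos _ n (fun _ => zero_le_one) (by simp) _) h2
  rw [Real.log_mul (by positivity) (by positivity), Real.log_mul (by positivity) (by positivity),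
    Real.log_pow, Real.log_exp] at h3
  have h4 := mul_le_mul_of_nonneg_left h3 (show 0 ≤ C / η / (Q₀ + 1 : ℕ) by positivity)
  have h5 : C / η / (Q₀ + 1 : ℕ) * (Real.log (S.q + 1) + 1) ≤ ε / 2 := by
    rw [div_le_iff₀ (by positivity)] at hQ₀
    rw [div_mul_eq_mul_div, div_le_iff₀ (by positivity)]
    push_cast; nlinarith
  have h6 := mul_le_mul_of_nonneg_right h5 (Nat.cast_nonneg (α := ℝ) n)
  have h7 : C * η = ε / 2 := by rw [hη]; field_simp
  unfold GG at h1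
  simp only [conv, univ_unique, sum_singleton, one_mul, add_zero] at h1
  rw [← hC, h7, le_div_iff₀' (by positivity)] at h1
  refine (neg_le_neg h1).trans ?_
  rw [← mul_neg]
  exact mul_le_mul_of_nonneg_left (by linarith) (by positivity)

end Dat

end Pool.Agent.Lib.MP_0baeaf_nt.H
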