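import Mathlib
import Pool.Agent.Lib.MP_0baeaf_nt.HChi

/-! Negative moments: once every residue has a growing population, the densities are bounded below
by `exp (-o(n))` everywhere. -/

namespace Pool.Agent.Lib.MP_0baeaf_nt.H

open Finset

theorem poly_le_exp (C : ℝ) (k : ℕ) {h : ℝ} (hh : 0 < h) :
    ∃ n₀ : ℕ, ∀ n ≥ n₀, C * ((n : ℝ) + 1) ^ k ≤ Real.exp (h * n) := by
  obtain ⟨n₀, hn₀⟩ := exists_nat_ge (C * ((k + 1).factorial * Real.exp h) / h ^ (k + 1))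
  refine ⟨n₀, fun n hn => ?_⟩
  have h1 := Real.pow_div_factorial_le_exp (h * (n + 1)) (by positivity) (k + 1)
  have hn' : (n₀ : ℝ) ≤ n + 1 := by exact_mod_cast (by omega : n₀ ≤ n + 1)
  have hf : (0 : ℝ) < (k + 1).factorial := by exact_mod_cast Nat.factorial_pos _
  rw [div_le_iff₀ (by positivity)] at hn₀
  rw [div_le_iff₀ hf, mul_add, mul_one, Real.exp_add, ← mul_add_one, mul_pow] at h1
  refine le_of_mul_le_mul_right ?_ (show 0 < ((k + 1).factorial : ℝ) * Real.exp h by positivity)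
  calc C * ((n : ℝ) + 1) ^ k * ((k + 1).factorial * Real.exp h)
      = C * ((k + 1).factorial * Real.exp h) * ((n : ℝ) + 1) ^ k := by ring
    _ ≤ ((n + 1) * h ^ (k + 1)) * ((n : ℝ) + 1) ^ k := mul_le_mul_of_nonneg_right
        (hn₀.trans (mul_le_mul_of_nonneg_right hn' (by positivity))) (by positivity)
    _ = h ^ (k + 1) * ((n : ℝ) + 1) ^ (k + 1) := by ring
    _ ≤ _ := h1.trans (le_of_eq (by ring))

namespace Dat

variable {S : Dat}

noncomputable def momN (S : Dat) (p : ℝ) (l n : ℕ) : ℝ :=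
  (∑ s ∈ range (S.q ^ n), S.Fn p n s ^ (-(l : ℤ))) / (S.q : ℝ) ^ n

theorem Fn_add (p : ℝ) (j n : ℕ) : S.Fn p (j + n) =
    S.F (List.replicate j (wp S.q p) ++ List.replicate n (wp S.q p)) := by
  unfold Fn; rw [List.replicate_add]

theorem Ok.mixN (h : S.Ok) {p : ℝ} (hp : 0 < p) (hp1 : p ≤ 1) (j n : ℕ) (y : ℤ) {f : ℝ → ℝ}
    (hf : ConvexOn ℝ (Set.Ioi 0) f) :
    ∑ s ∈ range (S.q ^ n), f (S.Fn p (j + n) (y + ((S.q ^ j : ℕ) : ℤ) * (s : ℤ)) / S.Fn p j y) ≤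
      ∑ s ∈ range (S.q ^ n), f (S.Fn p n s) := by
  have := h.mix_convex (h.pw_rep hp hp1 j) (List.replicate n (wp S.q p)) (h.Fn_pos hp hp1 j y) hf
    (fun x => h.Fn_pos hp hp1 n x)
  rw [List.length_replicate, List.length_replicate, ← Fn_add] at this
  exact this

theorem Ok.Fn_mix (h : S.Ok) (p : ℝ) (j n : ℕ) (y s : ℤ) :
    S.Fn p (j + n) (y + ((S.q ^ j : ℕ) : ℤ) * s) = ∑ ω ∈ S.val j y,
      S.wt (List.replicate j (wp S.q p)) ω * S.Fn p n (S.A ω * s + S.off j y ω) := by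
  have := h.F_mix (List.replicate j (wp S.q p)) (List.replicate n (wp S.q p)) y s
  rw [List.length_replicate, ← Fn_add] at this
  exact this

theorem Ok.Fn_val (h : S.Ok) (p : ℝ) (j : ℕ) (y : ℤ) :
    S.Fn p j y = ∑ ω ∈ S.val j y, S.wt (List.replicate j (wp S.q p)) ω := by
  have := h.F_val (List.replicate j (wp S.q p)) y
  rwa [List.length_replicate] at this

theorem Ok.Fn_le (h : S.Ok) {p : ℝ} (hp : 0 < p) (hp1 : p ≤ 1) (n : ℕ) (y : ℤ) :
    S.Fn p n y ≤ (S.q : ℝ) ^ n := by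
  have := h.F_le (h.pw_rep hp hp1 n) y
  rwa [List.length_replicate] at this

theorem Ok.winNeg1 (h : S.Ok) {p : ℝ} (hp : 0 < p) (hp1 : p ≤ 1) (l j n : ℕ) {N : ℝ}
    (hN : S.momN p l n ≤ Real.exp N) :
    Win (S.q ^ j) (S.q ^ n) (fun x => -l * Real.log (S.Fn p j x))
      (fun x => -l * Real.log (S.Fn p (j + n) x)) (fun _ => True) N 0 := by
  have hq : (0 : ℝ) < S.q := by exact_mod_cast h.q_pos
  have := win_of_moment (M := S.q ^ j) (pow_pos h.q_pos n) (φ₁ := fun x => -l * Real.log (S.Fn p j x))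
    (φ₂ := fun x => -l * Real.log (S.Fn p (j + n) x)) (sup := fun _ => True) (N := N) zero_le_one ?_
  · simpa using this
  intro c
  have h0 := h.Fn_pos hp hp1 j c
  have h1 := h.Fn_pos hp hp1 (j + n)
  refine ⟨fun s => (S.Fn p (j + n) (c + ((S.q ^ j : ℕ) : ℤ) * (s : ℤ)) / S.Fn p j c) ^ (-(l : ℤ)),
    fun s => (zpow_pos (div_pos (h1 _) h0) _).le, ?_, fun s _ => ⟨zpow_pos (div_pos (h1 _) h0) _, ?_⟩⟩
  · refine (h.mixN hp hp1 j n c (convexOn_zpow (-(l : ℤ)))).trans ?_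
    unfold momN at hN
    rw [div_le_iff₀' (by positivity)] at hN
    exact_mod_cast hN
  · rw [one_mul, Real.log_zpow, Real.log_div (h1 _).ne' h0.ne']
    push_cast; linarith

theorem Ok.winNeg2 (h : S.Ok) {p : ℝ} (hp : 0 < p) (hp1 : p ≤ 1) (l j n : ℕ) {χ η : ℝ} (hη : 0 < η)
    (hχ : -∑ s ∈ range (S.q ^ n), Real.log (S.Fn p n s) ≤ (S.q : ℝ) ^ n * χ) :
    Win (S.q ^ j) (S.q ^ n) (fun x => -l * Real.log (S.Fn p j x))
      (fun x => -l * Real.log (S.Fn p (j + n) x)) (fun _ => True)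
      (l * χ + l * (n * (Real.log S.q - Real.log p)) * η) (l * (n * (Real.log S.q - Real.log p)) / η) := by
  have hq : (0 : ℝ) < S.q := by exact_mod_cast h.q_pos
  have hq1 : (1 : ℝ) ≤ S.q := by exact_mod_cast h.q_pos
  have l1 := Real.log_nonneg hq1
  have l2 := Real.log_nonpos hp.le hp1
  have hl : (0 : ℝ) ≤ l := Nat.cast_nonneg l
  have hn : (0 : ℝ) ≤ n := Nat.cast_nonneg n
  have h1 := h.Fn_pos hp hp1 (j + n)
  have e : ∀ c s : ℤ, -l * Real.log (S.Fn p (j + n) (c + ((S.q ^ j : ℕ) : ℤ) * s)) - -l * Real.log (S.Fn p j c) =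
      l * -Real.log (S.Fn p (j + n) (c + ((S.q ^ j : ℕ) : ℤ) * s) / S.Fn p j c) := fun c s => by
    rw [Real.log_div (h1 _).ne' (h.Fn_pos hp hp1 j c).ne']; ring
  refine win_of_mean (pow_pos h.q_pos n) hη (mul_nonneg hl (mul_nonneg hn (by linarith))) ?_ ?_
  · intro c s
    have h0 := h.Fn_pos hp hp1 j c
    rw [e, abs_mul, abs_of_nonneg hl, abs_neg]
    refine mul_le_mul_of_nonneg_left ?_ hl
    have hw := h.wt_nonneg (h.pw_rep hp hp1 j)
    have a1 : p ^ n ≤ S.Fn p (j + n) (c + ((S.q ^ j : ℕ) : ℤ) * s) / S.Fn p j c := by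
      rw [le_div_iff₀ h0, h.Fn_mix, h.Fn_val p j, mul_sum]
      exact sum_le_sum fun ω _ => by
        rw [mul_comm]; exact mul_le_mul_of_nonneg_left (h.Fn_ge hp hp1 n _) (hw ω)
    have a2 : S.Fn p (j + n) (c + ((S.q ^ j : ℕ) : ℤ) * s) / S.Fn p j c ≤ (S.q : ℝ) ^ n := by
      rw [div_le_iff₀ h0, h.Fn_mix, h.Fn_val p j, mul_sum]
      exact sum_le_sum fun ω _ => by
        rw [mul_comm ((S.q : ℝ) ^ n)]; exact mul_le_mul_of_nonneg_left (h.Fn_le hp hp1 n _) (hw ω)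
    have a3 := Real.log_le_log (pow_pos hp n) a1
    have a4 := Real.log_le_log (div_pos (h1 _) h0) a2
    rw [Real.log_pow] at a3 a4
    rw [abs_le]; constructor <;> nlinarith
  · intro c
    simp only [e]
    rw [← mul_sum]
    have a1 := h.mixN hp hp1 j n c (f := fun x => -Real.log x) strictConcaveOn_log_Ioi.concaveOn.neg
    rw [sum_neg_distrib (f := fun s : ℕ => Real.log (S.Fn p n s))] at a1
    have a2 := mul_le_mul_of_nonneg_left (a1.trans hχ) hl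
    push_cast at a2 ⊢
    linarith

theorem Ok.neg_var (h : S.Ok) {p : ℝ} (hp : 0 < p) (hp1 : p ≤ 1) (l L : ℕ) {ι : Type} [Fintype ι]
    {ν : ι → ℝ} (hν : ∀ i, 0 ≤ ν i) (h1 : ∑ i, ν i = 1) {o : ι → ℤ}
    (ho : ∀ i i', ((S.q ^ L : ℕ) : ℤ) ∣ o i - o i' → i = i') :
    ∃ J : Fin (S.q ^ L) × ι → ℝ, (∀ ω, 0 ≤ J ω) ∧ ∑ ω, J ω = 1 ∧
      ent J (fun ω => o ω.2) (S.q ^ L) = -∑ i, ν i * Real.log (ν i) ∧
      Real.log ((∑ s ∈ range (S.q ^ L), conv ν o (S.Fn p L) s ^ (-(l : ℤ))) / (S.q : ℝ) ^ L) ≤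
      aF J (fun ω => (ω.1 : ℕ) + o ω.2) S.q (fun j x => -l * Real.log (S.Fn p j x)) L
        - (mi J (fun ω => (ω.1 : ℕ)) (fun ω => o ω.2) (S.q ^ L) +
          mi J (fun ω => (ω.1 : ℕ) + o ω.2) (fun ω => o ω.2) (S.q ^ L)) := by
  have hq : (0 : ℝ) < S.q := by exact_mod_cast h.q_pos
  have hf0 := h.conv_pos hp hp1 L hν h1 o
  set f := conv ν o (S.Fn p L) with hf
  set Zs : ℝ := ∑ s ∈ range (S.q ^ L), f s ^ (-(l : ℤ)) with hZs
  have hZ : 0 < Zs := sum_pos (fun s _ => zpow_pos (hf0 _) _) ⟨0, mem_range.2 (pow_pos h.q_pos L)⟩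
  set P : Fin (S.q ^ L) → ℝ := fun s => f (s : ℕ) ^ (-(l : ℤ)) / Zs with hP
  have hP0 : ∀ s, 0 < P s := fun s => div_pos (zpow_pos (hf0 _) _) hZ
  have hP1 : ∑ s, P s = 1 := by
    simp only [hP]
    rw [← sum_div, ← Finset.sum_range (f := fun s : ℕ => f s ^ (-(l : ℤ))), ← hZs, div_self hZ.ne']
  set J : Fin (S.q ^ L) × ι → ℝ := fun ω => P ω.1 * ν ω.2 with hJ
  have hs1 : ∀ s, ∑ i, J (s, i) = P s := fun s => by simp only [hJ]; rw [← mul_sum, h1, mul_one]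
  have hs2 : ∀ i, ∑ s, J (s, i) = ν i := fun i => by simp only [hJ]; rw [← sum_mul, hP1, one_mul]
  have e1 : ent J (fun ω => (ω.1 : ℕ)) (S.q ^ L) = -∑ s, P s * Real.log (P s) := by
    unfold ent; simp only [ms_fst, hs1]
    rw [Fintype.sum_prod_type]; simp only [← sum_mul, hs1]
  have e2 : ent J (fun ω => o ω.2) (S.q ^ L) = -∑ i, ν i * Real.log (ν i) := by
    unfold ent; simp only [ms_snd ho, hs2]
    rw [Fintype.sum_prod_type, sum_comm]; simp only [← sum_mul, hs2]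
  have e3 : ent2 J (fun ω => (ω.1 : ℕ)) (fun ω => o ω.2) (S.q ^ L) =
      -∑ s, P s * Real.log (P s) - ∑ i, ν i * Real.log (ν i) := by
    unfold ent2; simp only [ms2_prod ho]
    have : ∀ ω : Fin (S.q ^ L) × ι, J ω * Real.log (J (ω.1, ω.2)) =
        P ω.1 * Real.log (P ω.1) * ν ω.2 + P ω.1 * (ν ω.2 * Real.log (ν ω.2)) := fun ω => by
      simp only [hJ]
      rcases (hν ω.2).eq_or_lt with a | a
      · rw [← a]; simp
      · rw [Real.log_mul (hP0 _).ne' a.ne']; ring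
    simp only [this, sum_add_distrib, Fintype.sum_prod_type, ← mul_sum, ← sum_mul, h1, hP1]
    ring
  refine ⟨J, fun ω => mul_nonneg (hP0 _).le (hν _), ?_, e2, ?_⟩
  · rw [Fintype.sum_prod_type]; simp only [hs1, hP1]
  have key : Real.log Zs ≤ ∑ ω, J ω * (-l * Real.log (S.Fn p L ((ω.1 : ℕ) + o ω.2))) -
      ∑ s, P s * Real.log (P s) := by
    rw [← one_mul (Real.log Zs), ← hP1, sum_mul, Fintype.sum_prod_type, ← sum_sub_distrib]
    refine sum_le_sum fun s _ => ?_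
    have a1 := log_sum_ge univ (fun i _ => hν i) h1 (x := fun i => S.Fn p L ((s : ℕ) + o i))
      (fun i _ _ => h.Fn_pos hp hp1 L _) (R := f (s : ℕ)) le_rfl
    have a2 : Real.log (P s) = -l * Real.log (f (s : ℕ)) - Real.log Zs := by
      simp only [hP]
      rw [Real.log_div (zpow_pos (hf0 _) _).ne' hZ.ne', Real.log_zpow]; push_cast; ring
    have a3 : ∑ i, J (s, i) * (-l * Real.log (S.Fn p L ((s : ℕ) + o i))) =
        -l * P s * ∑ i, ν i * Real.log (S.Fn p L ((s : ℕ) + o i)) := by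
      rw [mul_sum]; exact sum_congr rfl fun i _ => by simp only [hJ]; ring
    rw [a3, a2]
    have := mul_le_mul_of_nonneg_left a1 (mul_nonneg (Nat.cast_nonneg (α := ℝ) l) (hP0 s).le)
    linarith
  unfold aF mi
  rw [ent2_add, e1, e2, e3, Real.log_div hZ.ne' (by positivity), Real.log_pow]
  linarith

theorem Ok.momN_le (h : S.Ok) {p : ℝ} (hp : 0 < p) (hp1 : p ≤ 1) (l n : ℕ) :
    S.momN p l n ≤ (p ^ n) ^ (-(l : ℤ)) := by
  have hq : (0 : ℝ) < S.q := by exact_mod_cast h.q_pos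
  unfold momN
  rw [div_le_iff₀' (by positivity)]
  refine (sum_le_card_nsmul _ _ ((p ^ n) ^ (-(l : ℤ))) fun s _ => ?_).trans (by simp)
  rw [zpow_neg, zpow_neg, zpow_natCast, zpow_natCast]
  exact inv_anti₀ (by positivity) (pow_le_pow_left₀ (by positivity) (h.Fn_ge hp hp1 n s) l)

theorem Ok.flat_neg (h : S.Ok) {p : ℝ} (hp : 0 < p) (hp1 : p ≤ 1) (l : ℕ) {τ σ : ℝ} (hτ : 0 < τ)
    (hσ : 0 < σ) (hB : ∀ ε > 0, ∃ C ≥ 1, ∀ n : ℕ, S.momN p l n ≤ C * Real.exp ((τ + ε) * n)) :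
    ∃ g > 0, ∃ C ≥ 1, ∃ L₀ : ℕ, ∀ L ≥ L₀, ∀ (ι : Type) [Fintype ι] (ν : ι → ℝ) (o : ι → ℤ),
      (∀ i, 0 ≤ ν i) → ∑ i, ν i = 1 → (∀ i i', ((S.q ^ L : ℕ) : ℤ) ∣ o i - o i' → i = i') →
      (∀ i, ν i ≤ Real.exp (-(σ * L))) →
      ∑ s ∈ range (S.q ^ L), conv ν o (S.Fn p L) s ^ (-(l : ℤ)) ≤
        (S.q : ℝ) ^ L * (C * Real.exp ((τ - g) * L)) := by
  have hq : (0 : ℝ) < S.q := by exact_mod_cast h.q_pos
  have hq1 : (1 : ℝ) ≤ S.q := by exact_mod_cast h.q_pos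
  have l1 := Real.log_nonneg hq1
  have l2 := Real.log_nonpos hp.le hp1
  have hl : (0 : ℝ) ≤ l := Nat.cast_nonneg l
  obtain ⟨g, hg, ε, hε, hfl⟩ := flatten h.q_pos h.hQ hτ hσ (N₁ := l * -Real.log p)
    (mul_nonneg hl (by linarith))
  obtain ⟨C₁, hC₁, hP₁⟩ := hB ε hε
  obtain ⟨D₀, hD⟩ := hfl (Real.log C₁) (Real.log_nonneg hC₁)
  obtain ⟨C₀, hχ⟩ := h.chi_small hp hp1 (ε := τ / (8 * (l + 1))) (by positivity)
  obtain ⟨D₁, hD₁⟩ := exists_nat_ge (l * C₀ / (τ / 8))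
  set D := D₀ + D₁ with hDd
  set η := τ / (4 * (l * (Real.log S.q - Real.log p) + 1)) with hη
  have hpos : 0 ≤ l * (Real.log S.q - Real.log p) := mul_nonneg hl (by linarith)
  have hη0 : 0 < η := by positivity
  have hD0 : (0 : ℝ) ≤ D := Nat.cast_nonneg D
  obtain ⟨γ, hγ, L₀, hL⟩ := hD D (by omega) (l * (D * (Real.log S.q - Real.log p)) / η)
    (div_nonneg (mul_nonneg hl (mul_nonneg hD0 (by linarith))) hη0.le)
  obtain ⟨C₂, hC₂, hP₂⟩ := hB (γ / 2) (by positivity)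
  refine ⟨min g (γ / 2), lt_min hg (by positivity), C₂, hC₂, L₀, ?_⟩
  intro L hLL ι _ ν o hν h1 ho hat
  obtain ⟨J, hJ, hJ1, hent, hvar⟩ := h.neg_var hp hp1 l L hν h1 ho
  have hφp : ∀ j, Per (S.q ^ j) (fun x => -l * Real.log (S.Fn p j x)) := fun j a b hab => by
    simp only [h.Fn_per p j a b hab]
  have hφ0 : ∀ x, -l * Real.log (S.Fn p 0 x) = 0 := fun x => by simp [Fn, F]
  have hwin : ∀ {C ε' : ℝ}, 1 ≤ C → (∀ n : ℕ, S.momN p l n ≤ C * Real.exp ((τ + ε') * n)) →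
      ∀ n : ℕ, S.momN p l n ≤ Real.exp ((τ + ε') * n + Real.log C) := by
    intro C ε' hC hP n
    rw [Real.exp_add, Real.exp_log (by linarith), mul_comm]; exact hP n
  have hL0 : (0 : ℝ) ≤ L := Nat.cast_nonneg L
  have hp' := pow_pos h.q_pos L
  have m1 := mi_nonneg (X := fun ω => (ω.1 : ℕ)) (Y := fun ω => o ω.2) hJ hJ1 hp'
  have m2 := mi_nonneg (X := fun ω => (ω.1 : ℕ) + o ω.2) (Y := fun ω => o ω.2) hJ hJ1 hp'
  have hmain : Real.log ((∑ s ∈ range (S.q ^ L), conv ν o (S.Fn p L) s ^ (-(l : ℤ))) / (S.q : ℝ) ^ L) ≤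
      Real.log C₂ + (τ - min g (γ / 2)) * L := by
    refine hvar.trans ?_
    have hlC := Real.log_nonneg hC₂
    rcases le_total (γ * L) (mi J (fun ω => (ω.1 : ℕ)) (fun ω => o ω.2) (S.q ^ L) +
          mi J (fun ω => (ω.1 : ℕ) + o ω.2) (fun ω => o ω.2) (S.q ^ L)) with hcase | hcase
    · have ha := aF_le (Z := fun ω => (ω.1 : ℕ) + o ω.2) hJ hJ1 h.q_pos
        (φ := fun j x => -l * Real.log (S.Fn p j x)) (sup := fun _ _ => True) (L := L) hφp hφ0
        (fun _ _ _ _ => trivial) (h.winNeg1 hp hp1 l 0 L (hwin hC₂ hP₂ L))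
      have := mul_le_mul_of_nonneg_right (min_le_right g (γ / 2)) hL0
      linarith
    · have ha := hL L hLL _ J (fun ω => (ω.1 : ℕ)) (fun ω => o ω.2)
        (fun j x => -l * Real.log (S.Fn p j x)) (fun _ _ => True) hJ hJ1 hφp hφ0
        (fun _ _ _ _ _ _ => trivial)
        (fun j _ => h.winNeg1 hp hp1 l j 1 (by
          refine (h.momN_le hp hp1 l 1).trans (le_of_eq ?_)
          rw [pow_one, ← Real.exp_log (zpow_pos hp (-(l : ℤ))), Real.log_zpow]
          congr 1; push_cast; ring))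
        (fun j _ => h.winNeg1 hp hp1 l j D (hwin hC₁ hP₁ D))
        (fun j _ => (h.winNeg2 hp hp1 l j D hη0 (hχ D)).mono (by
          have b1 : l * (τ / (8 * (l + 1)) * D) ≤ τ / 8 * D := by
            have : l * (τ / (8 * (l + 1))) ≤ τ / 8 := by
              rw [← mul_div_assoc, div_le_div_iff₀ (by positivity) (by norm_num)]; nlinarith
            rw [← mul_assoc]; exact mul_le_mul_of_nonneg_right this hD0
          have b2 : l * C₀ ≤ τ / 8 * D := by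
            rw [div_le_iff₀ (by positivity)] at hD₁
            have : (D₁ : ℝ) ≤ D := by exact_mod_cast (by omega : D₁ ≤ D)
            nlinarith
          have b3 : l * (D * (Real.log S.q - Real.log p)) * η ≤ τ / 4 * D := by
            have : l * (Real.log S.q - Real.log p) * η ≤ τ / 4 := by
              rw [hη, ← mul_div_assoc, div_le_div_iff₀ (by positivity) (by norm_num)]; nlinarith
            calc _ = l * (Real.log S.q - Real.log p) * η * D := by ring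
              _ ≤ _ := mul_le_mul_of_nonneg_right this hD0
          linarith))
        (by
          rw [hent, ← one_mul (σ * L), ← h1, sum_mul, ← sum_neg_distrib]
          refine sum_le_sum fun i _ => ?_
          rcases (hν i).eq_or_lt with a | a
          · rw [← a]; simp
          · have := Real.log_le_log a (hat i)
            rw [Real.log_exp] at this
            nlinarith) hcase
      have := mul_le_mul_of_nonneg_right (min_le_left g (γ / 2)) hL0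
      linarith
  rw [← div_le_iff₀' (by positivity)]
  refine (Real.le_exp_log _).trans ?_
  refine (Real.exp_le_exp.2 hmain).trans (le_of_eq ?_)
  rw [Real.exp_add, Real.exp_log (by linarith)]

end Dat

end Pool.Agent.Lib.MP_0baeaf_nt.H
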