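import Mathlib
import Pool.Agent.Lib.MP_0baeaf_nt.HNeg

/-! Every integer has long valid words with few expensive blocks. -/

namespace Pool.Agent.Lib.MP_0baeaf_nt.H

open Finset

namespace Dat

variable {S : Dat}

theorem cnt_le {n : ℕ} : ∀ ω ∈ S.words n, cnt ω ≤ n := by
  induction n with
  | zero => intro ω hω; simp [words] at hω; simp [hω, cnt]
  | succ n ih =>
    intro ω hω
    obtain ⟨d, _, ω', h1, rfl⟩ := S.mem_words_succ.1 hω
    have := ih ω' h1
    simp only [cnt]; split_ifs <;> omega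

theorem Ok.A_cnt (h : S.Ok) {n : ℕ} : ∀ ω ∈ S.words n, S.A ω = S.al 0 ^ (n - cnt ω) * S.al 1 ^ cnt ω := by
  induction n with
  | zero => intro ω hω; simp [words] at hω; simp [hω, cnt, A]
  | succ n ih =>
    intro ω hω
    obtain ⟨d, _, ω', h1, rfl⟩ := S.mem_words_succ.1 hω
    have := cnt_le ω' h1
    simp only [cnt, A, ih ω' h1]
    split_ifs with h2
    · rw [h2, zero_add, show n + 1 - cnt ω' = n - cnt ω' + 1 by omega]; ring
    · rw [h.same _ h2, show n + 1 - (1 + cnt ω') = n - cnt ω' by omega]; ring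

theorem Ok.wt_le (h : S.Ok) {p : ℝ} (hp : 0 < p) (hp1 : p ≤ 1) {n : ℕ} : ∀ ω ∈ S.words n,
    S.wt (List.replicate n (wp S.q p)) ω ≤ S.ρ ^ n * p ^ cnt ω := by
  have hq1 : (1 : ℝ) ≤ S.q := by exact_mod_cast h.q_pos
  have hρ := h.ρ_pos
  induction n with
  | zero => intro ω hω; simp [words] at hω; simp [hω, cnt, wt]
  | succ n ih =>
    intro ω hω
    obtain ⟨d, _, ω', h1, rfl⟩ := S.mem_words_succ.1 hω
    have a1 := ih ω' h1
    have a2 : wp S.q p d.1 ≤ p ^ (if d.1 = 0 then 0 else 1) := by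
      unfold wp; split_ifs
      · simp [hp.le]
      · rw [pow_one]; exact div_le_self hp.le hq1
    simp only [List.replicate_succ, wt, cnt]
    refine (mul_le_mul (mul_le_mul_of_nonneg_right a2 hρ.le) a1 (h.wt_nonneg (h.pw_rep hp hp1 n) _)
      (by positivity)).trans (le_of_eq ?_)
    ring

theorem card_words (n : ℕ) : (S.words n).card = ((S.q + 1) * S.E.card) ^ n := by
  induction n with
  | zero => simp [words]
  | succ n ih => rw [words, card_map, card_product, ih, blocks, card_product, card_range, pow_succ']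

def Low (S : Dat) (p t : ℝ) : Prop := ∃ C > 0, ∀ (n : ℕ) (y : ℤ), C * Real.exp (-(t * n)) ≤ S.Fn p n y

theorem zpow_neg_anti {x y : ℝ} (hx : 0 < x) (h : x ≤ y) (l : ℕ) : y ^ (-(l : ℤ)) ≤ x ^ (-(l : ℤ)) := by
  rw [zpow_neg, zpow_neg, zpow_natCast, zpow_natCast]
  exact inv_anti₀ (by positivity) (pow_le_pow_left₀ hx.le h l)

theorem Ok.neg_main (h : S.Ok) {p : ℝ} (hp : 0 < p) (hp1 : p ≤ 1) {t : ℝ} (ht : t < -Real.log S.ρ)
    (hlow : S.Low p t) (l : ℕ) :
    ∀ ε > 0, ∃ C ≥ 1, ∀ n : ℕ, S.momN p l n ≤ C * Real.exp (ε * n) := by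
  classical
  have hq : (0 : ℝ) < S.q := by exact_mod_cast h.q_pos
  have hm0 : ∀ n, 0 ≤ S.momN p l n := fun n =>
    div_nonneg (sum_nonneg fun s _ => (zpow_pos (h.Fn_pos hp hp1 n s) _).le) (by positivity)
  have hsplit : ∀ (n k : ℕ) (x : ℝ), (∀ y : ℤ, ∑ s ∈ range (S.q ^ k),
      S.Fn p (n + k) (y + ((S.q ^ n : ℕ) : ℤ) * (s : ℤ)) ^ (-(l : ℤ)) ≤
        S.Fn p n y ^ (-(l : ℤ)) * ((S.q : ℝ) ^ k * x)) → S.momN p l (n + k) ≤ S.momN p l n * x := by
    intro n k x hx
    unfold momN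
    rw [pow_add, sum_mul_range _ _ (fun x => S.Fn p (n + k) x ^ (-(l : ℤ))), div_le_iff₀' (by positivity)]
    refine (sum_le_sum fun (y : ℕ) _ => hx y).trans (le_of_eq ?_)
    rw [← sum_mul, pow_add]; field_simp
  refine rate_zero (P := fun n x => S.momN p l n ≤ x) (fun n x y hxy hP => hP.trans hxy) ?_ ?_
    (B := (p ^ 1) ^ (-(l : ℤ))) ?_ (h.momN_le hp hp1 l 1) ?_
  · intro n k x y hx hy
    refine (hsplit n k y fun c => ?_).trans (mul_le_mul_of_nonneg_right hx ((hm0 k).trans hy))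
    have h0 := h.Fn_pos hp hp1 n c
    have := h.mixN hp hp1 n k c (convexOn_zpow (-(l : ℤ)))
    simp only [div_zpow, ← sum_div] at this
    rw [div_le_iff₀' (zpow_pos h0 _)] at this
    refine this.trans (mul_le_mul_of_nonneg_left ?_ (zpow_pos h0 _).le)
    unfold momN at hy
    rwa [div_le_iff₀' (by positivity)] at hy
  · simpa using h.momN_le hp hp1 l 0
  · simpa using zpow_neg_anti hp hp1 l
  intro τ hτ hB
  obtain ⟨R, hR, hinj⟩ := h.off_inj
  have hR' : (1 : ℝ) ≤ R := by exact_mod_cast hR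
  obtain ⟨C₀, hC₀, hlo⟩ := hlow
  set δ := -Real.log S.ρ - t with hδ
  have hδ0 : 0 < δ := by linarith
  obtain ⟨g, hg, C₁, hC₁, L₀, hfl⟩ := h.flat_neg hp hp1 l hτ (σ := δ / (2 * R)) (by positivity) hB
  obtain ⟨C₂, hC₂, hP₂⟩ := hB (g / 2) (by positivity)
  obtain ⟨n₁, hn₁⟩ := poly_le_exp (1 / C₀) 1 (half_pos hδ0)
  obtain ⟨n₂, hn₂⟩ := poly_le_exp (C₂ * C₁) l (h := g / 4) (by positivity)
  set n := n₁ + n₂ + L₀ + 1 with hn
  have hn0 : (0 : ℝ) ≤ n := Nat.cast_nonneg n
  refine ⟨n + R * n, by omega, τ - g / (4 * (R + 1)), by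
    have : 0 < g / (4 * (R + 1)) := by positivity
    linarith, ?_⟩
  have hw := h.wt_nonneg (h.pw_rep hp hp1 n)
  have key := hsplit n (R * n) (((n : ℝ) + 1) ^ l * (C₁ * Real.exp ((τ - g) * ((R * n : ℕ) : ℝ)))) (by
    intro y
    have h0 := h.Fn_pos hp hp1 n y
    obtain ⟨i, _, hi⟩ : ∃ i ∈ range (n + 1), S.Fn p n y / (n + 1) ≤
        ∑ ω ∈ (S.val n y).filter (fun ω => cnt ω = i), S.wt (List.replicate n (wp S.q p)) ω := by
      apply exists_le_of_sum_le ⟨0, by simp⟩
      rw [sum_fiberwise_of_maps_to (s := S.val n y) (t := range (n + 1)) (fun ω hω => mem_range.2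
        (Nat.lt_succ_of_le (cnt_le ω (mem_filter.1 hω).1))), ← h.Fn_val, sum_const, card_range,
        nsmul_eq_mul]
      exact le_of_eq (by push_cast; field_simp)
    set T := (S.val n y).filter (fun ω => cnt ω = i) with hT
    set μ := ∑ ω ∈ T, S.wt (List.replicate n (wp S.q p)) ω with hμ
    have hμ0 : 0 < μ := (div_pos h0 (by positivity)).trans_le hi
    have hA : ∀ ω ∈ T, S.A ω = S.al 0 ^ (n - i) * S.al 1 ^ i := fun ω hω => by
      rw [h.A_cnt ω (mem_filter.1 (mem_filter.1 hω).1).1, (mem_filter.1 hω).2]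
    have hν0 : ∀ j : T, 0 ≤ S.wt (List.replicate n (wp S.q p)) j / μ := fun j => div_nonneg (hw _) hμ0.le
    have hν1 : ∑ j : T, S.wt (List.replicate n (wp S.q p)) j / μ = 1 := by
      rw [← sum_div, sum_coe_sort T (S.wt (List.replicate n (wp S.q p))), ← hμ, div_self hμ0.ne']
    have hfl' := hfl (R * n) (by nlinarith) T (fun j => S.wt (List.replicate n (wp S.q p)) j / μ)
      (fun j => S.off n y j) hν0 hν1
      (fun j j' hd => Subtype.ext (hinj n y _ (mem_filter.1 j.2).1 _ (mem_filter.1 j'.2).1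
          (by rw [hA _ j.2, hA _ j'.2]) hd))
      (fun j => by
        have a1 := h.wt_le hp hp1 _ (mem_filter.1 (mem_filter.1 j.2).1).1
        have a2 : S.ρ ^ n * p ^ cnt j.1 ≤ S.ρ ^ n :=
          mul_le_of_le_one_right (pow_pos h.ρ_pos n).le (pow_le_one₀ hp.le hp1)
        have a3 := hn₁ n (by omega)
        rw [pow_one] at a3
        rw [div_le_iff₀ hμ0]
        refine (a1.trans a2).trans (le_trans ?_ (mul_le_mul_of_nonneg_left
          ((div_le_div_of_nonneg_right (hlo n y) (by positivity)).trans hi) (Real.exp_pos _).le))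
        have e1 : S.ρ ^ n = Real.exp (-(δ / (2 * R) * ((R * n : ℕ) : ℝ))) * Real.exp (-(t * n)) /
            Real.exp (δ / 2 * n) := by
          rw [← Real.exp_add, ← Real.exp_sub, ← Real.exp_log (pow_pos h.ρ_pos n), Real.log_pow]
          congr 1; push_cast; field_simp; rw [hδ]; ring
        rw [e1, mul_div_assoc, mul_div_assoc]
        refine mul_le_mul_of_nonneg_left ?_ (Real.exp_pos _).le
        rw [mul_div_assoc', div_le_div_iff₀ (Real.exp_pos _) (by positivity), mul_comm C₀, mul_assoc]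
        refine mul_le_mul_of_nonneg_left ?_ (Real.exp_pos _).le
        rw [div_mul_eq_mul_div, div_le_iff₀' hC₀, one_mul] at a3
        exact a3)
    have e1 : ∀ s : ℤ, S.Fn p n y / (n + 1) * conv (fun j : T => S.wt (List.replicate n (wp S.q p)) j / μ)
        (fun j => S.off n y j) (S.Fn p (R * n)) (S.al 0 ^ (n - i) * S.al 1 ^ i * s + 0) ≤
        S.Fn p (n + R * n) (y + ((S.q ^ n : ℕ) : ℤ) * s) := by
      intro s
      refine (mul_le_mul_of_nonneg_right hi (h.conv_pos hp hp1 _ hν0 hν1 _ _).le).trans ?_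
      rw [h.Fn_mix]
      refine le_trans (le_of_eq ?_) (sum_le_sum_of_subset_of_nonneg (filter_subset (fun ω => cnt ω = i) _)
        fun ω _ _ => mul_nonneg (hw ω) (h.Fn_pos hp hp1 _ _).le)
      unfold conv
      rw [mul_sum, ← hT, ← sum_coe_sort T]
      refine sum_congr rfl fun j _ => ?_
      rw [hA _ j.2, add_zero]; field_simp
    refine (sum_le_sum fun (s : ℕ) _ => zpow_neg_anti
      (mul_pos (div_pos h0 (by positivity)) (h.conv_pos hp hp1 _ hν0 hν1 _ _)) (e1 s) l).trans ?_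
    simp only [mul_zpow, ← mul_sum]
    rw [sum_aff (pow_pos h.q_pos _) (f := fun x => conv (fun j : T => S.wt (List.replicate n (wp S.q p)) j / μ)
        (fun j => S.off n y j) (S.Fn p (R * n)) x ^ (-(l : ℤ)))
      (fun a b hab => by simp only [conv_per _ _ (h.Fn_per p (R * n)) a b hab])
      (by push_cast; exact ((h.cop 0).pow_left.mul_left (h.cop 1).pow_left).pow_right) 0]
    refine (mul_le_mul_of_nonneg_left hfl' (zpow_pos (div_pos h0 (by positivity)) _).le).trans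
      (le_of_eq ?_)
    rw [div_zpow, zpow_neg ((n : ℝ) + 1), zpow_natCast]
    field_simp)
  refine key.trans ((mul_le_mul_of_nonneg_right (hP₂ n) (by positivity)).trans ?_)
  have a1 := hn₂ n (by omega)
  calc _ = (C₂ * C₁ * ((n : ℝ) + 1) ^ l) *
        (Real.exp ((τ + g / 2) * n) * Real.exp ((τ - g) * ((R * n : ℕ) : ℝ))) := by ring
    _ ≤ Real.exp (g / 4 * n) * (Real.exp ((τ + g / 2) * n) * Real.exp ((τ - g) * ((R * n : ℕ) : ℝ))) :=
        mul_le_mul_of_nonneg_right a1 (by positivity)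
    _ ≤ _ := by
        rw [← Real.exp_add, ← Real.exp_add]
        refine Real.exp_le_exp.2 ?_
        have e : (τ - g / (4 * (R + 1))) * ((n + R * n : ℕ) : ℝ) = (τ * (R + 1) - g / 4) * n := by
          push_cast; field_simp; ring
        have h3 : g ≤ g * R := le_mul_of_one_le_right hg.le hR'
        rw [e]; push_cast
        nlinarith [mul_le_mul_of_nonneg_right h3 hn0]

theorem Ok.low_all (h : S.Ok) {p : ℝ} (hp : 0 < p) (hp1 : p ≤ 1) {t : ℝ} (ht : t < -Real.log S.ρ)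
    (hlow : S.Low p t) {u : ℝ} (hu : 0 < u) : S.Low p u := by
  have hq : (0 : ℝ) < S.q := by exact_mod_cast h.q_pos
  have hq1 : (1 : ℝ) ≤ S.q := by exact_mod_cast h.q_pos
  have l1 := Real.log_nonneg hq1
  obtain ⟨l, hl⟩ := exists_nat_gt ((Real.log S.q + 1) / u)
  have hl0 : (0 : ℝ) < l := lt_of_le_of_lt (by positivity) hl
  obtain ⟨C, hC, hP⟩ := h.neg_main hp hp1 ht hlow l 1 one_pos
  refine ⟨Real.exp (-(Real.log C / l)), Real.exp_pos _, fun n y => ?_⟩
  have h0 := h.Fn_pos hp hp1 n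
  have h1 : S.Fn p n y ^ (-(l : ℤ)) ≤ (S.q : ℝ) ^ n * (C * Real.exp (1 * n)) := by
    have a1 := hP n
    unfold momN at a1
    rw [div_le_iff₀' (by positivity), ← sum_shift (pow_pos h.q_pos n)
      (f := fun x => S.Fn p n x ^ (-(l : ℤ))) (fun a b hab => by simp only [h.Fn_per p n a b hab]) y] at a1
    refine le_trans ?_ a1
    simpa using single_le_sum (f := fun s : ℕ => S.Fn p n (s + y) ^ (-(l : ℤ)))
      (fun s _ => (zpow_pos (h0 _) _).le) (mem_range.2 (pow_pos h.q_pos n))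
  have h2 := Real.log_le_log (zpow_pos (h0 y) _) h1
  rw [Real.log_zpow, Real.log_mul (by positivity) (by positivity),
    Real.log_mul (by positivity) (by positivity), Real.log_pow, Real.log_exp] at h2
  rw [← Real.exp_add, ← Real.exp_log (h0 y)]
  refine Real.exp_le_exp.2 (le_of_mul_le_mul_left ?_ hl0)
  rw [div_lt_iff₀ hu] at hl
  have e : l * (-(Real.log C / l) + -(u * n)) = -Real.log C - l * u * n := by field_simp; ring
  rw [e]; push_cast at h2
  nlinarith [mul_le_mul_of_nonneg_right hl.le (Nat.cast_nonneg (α := ℝ) n)]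

theorem Ok.Fn_scale (h : S.Ok) {p θ : ℝ} (hp : 0 < p) (hp1 : p ≤ 1) (hθ : 0 < θ) (hθ1 : θ ≤ 1)
    (n : ℕ) (y : ℤ) : θ ^ n * S.Fn p n y ≤ S.Fn (θ * p) n y := by
  have hρ := h.ρ_pos
  have hp2 : θ * p ≤ 1 := mul_le_one₀ hθ1 hp.le hp1
  induction n generalizing y with
  | zero => simp [Fn, F]
  | succ n ih =>
    unfold Fn at ih ⊢
    rw [List.replicate_succ, List.replicate_succ, F, F, mul_sum]
    refine sum_le_sum fun d _ => ?_
    split_ifs
    · have a1 : θ * wp S.q p d.1 ≤ wp S.q (θ * p) d.1 := by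
        unfold wp; split_ifs
        · linarith
        · exact le_of_eq (by ring)
      refine le_trans (le_of_eq ?_) (mul_le_mul (mul_le_mul_of_nonneg_right a1 hρ.le) (ih _)
        (mul_nonneg (by positivity) (h.Fn_pos hp hp1 n _).le)
        (mul_nonneg (wp_nonneg _ (mul_pos hθ hp) hp2 _) hρ.le))
      ring
    · simp

theorem Ok.main (h : S.Ok) {α : ℝ} (hα : 0 < α) (y : ℤ) (n₀ : ℕ) :
    ∃ n ≥ n₀, ∃ ω ∈ S.words n, ((S.q ^ n : ℕ) : ℤ) ∣ S.A ω * y + S.O ω ∧ (cnt ω : ℝ) ≤ α * n := by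
  set δ := -Real.log S.ρ with hδ
  have hδ0 : 0 < δ := neg_pos.2 (Real.log_neg h.ρ_pos h.ρ_lt_one)
  have hpk : ∀ k : ℕ, Real.exp (-(δ / 2 * k)) ≤ 1 := fun k =>
    Real.exp_le_one_iff.2 (neg_nonpos.2 (by positivity))
  have hk : ∀ k : ℕ, ∀ u > 0, S.Low (Real.exp (-(δ / 2 * k))) u := by
    intro k
    induction k with
    | zero =>
      intro u hu
      refine h.low_all (Real.exp_pos _) (hpk 0) hδ0 ⟨1, one_pos, fun n y => ?_⟩ hu
      simpa using h.Fn_ge one_pos le_rfl n y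
    | succ k ih =>
      intro u hu
      obtain ⟨C, hC, hl⟩ := ih (δ / 4) (by positivity)
      refine h.low_all (Real.exp_pos _) (hpk _) (t := 3 * δ / 4) (by linarith) ⟨C, hC, fun n y => ?_⟩ hu
      have a1 := h.Fn_scale (Real.exp_pos _) (hpk k) (Real.exp_pos (-(δ / 2)))
        (Real.exp_le_one_iff.2 (by linarith)) n y
      rw [← Real.exp_add, show -(δ / 2) + -(δ / 2 * k) = -(δ / 2 * ((k + 1 : ℕ) : ℝ)) by push_cast; ring] at a1
      refine le_trans (le_of_eq ?_) ((mul_le_mul_of_nonneg_left (hl n y) (by positivity)).trans a1)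
      rw [← Real.exp_nat_mul, mul_left_comm, ← Real.exp_add]
      congr 2; ring
  set B : ℝ := (((S.q + 1) * S.E.card : ℕ) : ℝ) with hB
  have hB0 : 0 < B := by
    have := h.q_pos.trans h.hE
    rw [hB]; positivity
  obtain ⟨k, hk1⟩ := exists_nat_ge ((Real.log B + 2) / (δ / 2 * α))
  obtain ⟨C, hC, hl⟩ := hk k 1 one_pos
  obtain ⟨n, hn, hexp⟩ := exists_exp_ge (2 / C) one_pos n₀
  refine ⟨n, hn, ?_⟩
  by_contra hcon
  push Not at hcon
  have hn0 : (0 : ℝ) ≤ n := Nat.cast_nonneg n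
  have a1 : S.Fn (Real.exp (-(δ / 2 * k))) n y ≤ B ^ n * Real.exp (-(δ / 2 * k * (α * n))) := by
    rw [h.Fn_val]
    refine (sum_le_card_nsmul _ _ (Real.exp (-(δ / 2 * k * (α * n)))) fun ω hω => ?_).trans ?_
    · obtain ⟨b1, b2⟩ := mem_filter.1 hω
      refine (h.wt_le (Real.exp_pos _) (hpk k) ω b1).trans ((mul_le_of_le_one_left (by positivity)
        (pow_le_one₀ h.ρ_pos.le h.ρ_lt_one.le)).trans ?_)
      rw [← Real.exp_nat_mul]
      refine Real.exp_le_exp.2 ?_
      have := mul_le_mul_of_nonneg_left (hcon ω b1 b2).le (show 0 ≤ δ / 2 * k by positivity)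
      linarith
    · rw [nsmul_eq_mul]
      refine mul_le_mul_of_nonneg_right ?_ (Real.exp_pos _).le
      rw [hB, ← Nat.cast_pow, ← card_words]
      exact_mod_cast card_filter_le _ _
  have a2 : B ^ n * Real.exp (-(δ / 2 * k * (α * n))) ≤ Real.exp (-(2 * n)) := by
    rw [← Real.exp_log (pow_pos hB0 n), ← Real.exp_add, Real.log_pow]
    refine Real.exp_le_exp.2 ?_
    rw [div_le_iff₀ (by positivity)] at hk1
    nlinarith [mul_le_mul_of_nonneg_right hk1 hn0]
  have a3 := (hl n y).trans (a1.trans a2)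
  rw [div_le_iff₀' hC] at hexp
  have a4 := mul_le_mul_of_nonneg_right a3 (Real.exp_pos (2 * n)).le
  rw [mul_assoc, ← Real.exp_add, ← Real.exp_add, neg_add_cancel, Real.exp_zero,
    show -(1 * (n : ℝ)) + 2 * n = 1 * n by ring] at a4
  linarith

end Dat

end Pool.Agent.Lib.MP_0baeaf_nt.H
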