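import Mathlib
import Pool.Agent.Lib.MP_0baeaf_nt.HMain

/-! The block system of the `5x+1` map. -/

namespace Pool.Agent.Lib.MP_0baeaf_nt.H

open Finset

def ones : List Bool → ℕ
  | [] => 0
  | false :: u => ones u
  | true :: u => ones u + 1

def U : List Bool → ℤ
  | [] => 0
  | false :: u => 2 * U u
  | true :: u => 2 * U u + 5 ^ ones u

theorem ones_append (u v : List Bool) : ones (u ++ v) = ones u + ones v := by
  induction u with
  | nil => simp [ones]
  | cons b u ih => cases b <;> simp [ones, ih]; ring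

theorem U_append (u v : List Bool) : U (u ++ v) = 2 ^ u.length * U v + 5 ^ ones v * U u := by
  induction u with
  | nil => simp [U]
  | cons b u ih => cases b <;> simp [U, ih, ones_append] <;> ring

theorem ones_zeros (n : ℕ) : ones (List.replicate n false) = 0 := by
  induction n with
  | zero => rfl
  | succ n ih => simpa [List.replicate_succ, ones] using ih

theorem U_zeros (n : ℕ) : U (List.replicate n false) = 0 := by
  induction n with
  | zero => rfl
  | succ n ih => simpa [List.replicate_succ, U] using ih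

theorem U_bounds (u : List Bool) : 0 ≤ U u ∧ U u < 2 ^ u.length * 5 ^ ones u := by
  induction u with
  | nil => simp [U, ones]
  | cons b u ih =>
    have h1 : (0 : ℤ) < 5 ^ ones u := by positivity
    have h2 : (1 : ℤ) ≤ 2 ^ u.length := one_le_pow₀ (by norm_num)
    cases b <;> simp only [U, ones, List.length_cons, pow_succ] <;> constructor <;> nlinarith

theorem U_inj {u v : List Bool} (h1 : u.length = v.length) (h2 : ones u = ones v) (h3 : U u = U v) :
    u = v := by
  induction u generalizing v with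
  | nil => exact (List.length_eq_zero_iff.1 h1.symm).symm
  | cons a u ih =>
    cases v with
    | nil => simp at h1
    | cons b v =>
      simp only [List.length_cons, add_left_inj] at h1
      have o1 : Odd ((5 : ℤ) ^ ones u) := Odd.pow (by decide)
      have o2 : Odd ((5 : ℤ) ^ ones v) := Odd.pow (by decide)
      obtain ⟨x, hx⟩ := o1
      obtain ⟨y, hy⟩ := o2
      cases a <;> cases b <;> simp only [ones, U] at h2 h3
      · rw [ih h1 h2 (by omega)]
      · omega
      · omega
      · have h4 : ones u = ones v := by omega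
        rw [h4] at h3
        rw [ih h1 h4 (by omega)]

def tl : ℕ → ℕ → Finset (List Bool)
  | 0, 0 => {[]}
  | 0, _ + 1 => ∅
  | b + 1, 0 => (tl b 0).image (false :: ·)
  | b + 1, k + 1 => (tl b (k + 1)).image (false :: ·) ∪ (tl b k).image (true :: ·)

theorem mem_tl {b k : ℕ} {u : List Bool} (h : u ∈ tl b k) : u.length = b ∧ ones u = k := by
  induction b generalizing k u with
  | zero => cases k <;> simp [tl] at h; simp [h, ones]
  | succ b ih =>
    cases k with
    | zero =>
      obtain ⟨v, hv, rfl⟩ := mem_image.1 h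
      simp [ones, ih hv]
    | succ k =>
      rcases mem_union.1 h with h | h <;> obtain ⟨v, hv, rfl⟩ := mem_image.1 h <;> simp [ones, ih hv]

theorem card_tl (b k : ℕ) : (tl b k).card = b.choose k := by
  induction b generalizing k with
  | zero => cases k <;> simp [tl]
  | succ b ih =>
    cases k with
    | zero => rw [tl, card_image_of_injective _ List.cons_injective, ih]; simp
    | succ k =>
      rw [tl, card_union_of_disjoint, card_image_of_injective _ List.cons_injective,
        card_image_of_injective _ List.cons_injective, ih, ih, Nat.choose_succ_succ, add_comm]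
      rw [disjoint_left]
      intro u h1 h2
      obtain ⟨v, _, rfl⟩ := mem_image.1 h1
      obtain ⟨w, _, h⟩ := mem_image.1 h2
      simp at h

theorem hq_pow (m D : ℕ) : HQ (5 ^ m) ((5 ^ m) ^ D) := by
  intro g h hg
  set n : ℕ := 5 ^ m * (5 ^ m) ^ D with hn
  have hn0 : (0 : ℤ) < n := by rw [hn]; positivity
  have h1 : Int.gcd g n ∣ 5 ^ (m + m * D) := by
    have : Int.gcd g n ∣ n := by exact_mod_cast Int.gcd_dvd_right g n
    exact this.trans (dvd_of_eq (by rw [hn, ← pow_mul, ← pow_add]))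
  obtain ⟨v, _, hv⟩ := (Nat.dvd_prime_pow (by norm_num)).1 h1
  have hvm : v ≤ m := by
    by_contra hc
    refine hg (Dvd.dvd.trans ?_ (Int.gcd_dvd_left g n))
    rw [hv]; exact_mod_cast pow_dvd_pow 5 (by omega)
  have h2 := Int.gcd_eq_gcd_ab g n
  rw [hv] at h2
  set x := Int.gcdA g n * 5 ^ (m - v) * h with hx
  refine ⟨(x % n).toNat, ?_, ?_⟩
  · have := Int.emod_lt_of_pos x hn0
    have := Int.emod_nonneg x hn0.ne'
    omega
  · rw [Int.toNat_of_nonneg (Int.emod_nonneg x hn0.ne'), Int.emod_def]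
    have e : ((5 ^ m : ℕ) : ℤ) = ((5 ^ v : ℕ) : ℤ) * 5 ^ (m - v) := by
      push_cast; rw [← pow_add]; congr 1; omega
    refine ⟨-(x / n) * g - Int.gcdB g n * 5 ^ (m - v) * h, ?_⟩
    rw [e, h2, hx]; ring

theorem sixteen (m d : ℕ) : (5 : ℤ) ^ (m + 1) ∣ 16 ^ d - 1 ↔ 5 ^ m ∣ d := by
  have h := ZMod.orderOf_one_add_mul_prime (p := 5) (by norm_num) (by norm_num) 3 (by decide) m
  rw [← h, orderOf_dvd_iff_pow_eq_one]
  have := ZMod.intCast_zmod_eq_zero_iff_dvd (16 ^ d - 1) (5 ^ (m + 1))
  push_cast at this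
  rw [← this, sub_eq_zero]
  norm_num

theorem sum_inj {n : ℕ} (hn : 0 < n) {f : ℤ → ℝ} (hf : Per n f) {g : ℕ → ℤ}
    (hg : ∀ s < n, ∀ t < n, (n : ℤ) ∣ g s - g t → s = t) :
    ∑ s ∈ range n, f (g s) = ∑ s ∈ range n, f (s : ℤ) := by
  have hn' : (0 : ℤ) < n := by exact_mod_cast hn
  set φ : ℕ → ℕ := fun s => (g s % n).toNat with hφ
  have hφc : ∀ s, ((φ s : ℕ) : ℤ) = g s % n := fun s => Int.toNat_of_nonneg (Int.emod_nonneg _ hn'.ne')
  have hinj : Set.InjOn φ (range n : Set ℕ) := by
    intro s hs t ht hst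
    have h1 : g t % n = g s % n := by rw [← hφc, ← hφc, hst]
    exact hg s (by simpa using hs) t (by simpa using ht) (Int.ModEq.dvd h1)
  have himg : (range n).image φ = range n := by
    apply eq_of_subset_of_card_le
    · intro t ht
      obtain ⟨s, _, rfl⟩ := mem_image.1 ht
      have := Int.emod_lt_of_pos (g s) hn'
      have h2 := hφc s
      rw [mem_range]; omega
    · rw [card_image_of_injOn hinj]
  conv_rhs => rw [← himg, sum_image hinj]
  refine sum_congr rfl fun s _ => hf _ _ ?_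
  rw [hφc]
  exact Int.ModEq.dvd (Int.mod_modEq _ _)

/-- length of the gadget -/
def sg (j k : ℕ) : ℕ := if k = 0 then 4 else 4 + 4 * 5 ^ (j + 1)

def five (b j : ℕ) : Dat where
  q := 5 ^ (j + 1)
  E := (tl b j).image fun e => U e + 5 ^ j
  al k := 2 ^ (b + sg j k)
  c k := 2 ^ (b + (sg j k - 4 * (k + 1))) * ((16 ^ (k + 1) - 1) / 5)

open Classical in
noncomputable def dec (b j : ℕ) (v : ℤ) : List Bool :=
  if h : ∃ e ∈ tl b j, U e + 5 ^ j = v then h.choose else []

noncomputable def bw (b j : ℕ) (d : ℕ × ℤ) : List Bool :=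
  (dec b j d.2 ++ List.replicate (sg j d.1 - 4 * (d.1 + 1)) false) ++ true :: List.replicate (4 * d.1 + 3) false

noncomputable def Wd (b j : ℕ) : List (ℕ × ℤ) → List Bool
  | [] => []
  | d :: ω => Wd b j ω ++ bw b j d

variable {b j : ℕ}

theorem dec_spec {d : ℕ × ℤ} (hd : d ∈ (five b j).blocks) :
    d.1 ≤ 5 ^ (j + 1) ∧ (dec b j d.2).length = b ∧ ones (dec b j d.2) = j ∧ U (dec b j d.2) + 5 ^ j = d.2 := by
  obtain ⟨h1, h2⟩ := mem_product.1 hd
  have h3 : ∃ e ∈ tl b j, U e + 5 ^ j = d.2 := mem_image.1 h2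
  have h4 := h3.choose_spec
  unfold dec
  rw [dif_pos h3]
  exact ⟨Nat.lt_succ_iff.1 (mem_range.1 h1), (mem_tl h4.1).1, (mem_tl h4.1).2, h4.2⟩

theorem sg_ge {k : ℕ} (hk : k ≤ 5 ^ (j + 1)) : 4 * (k + 1) ≤ sg j k := by
  unfold sg; split_ifs <;> omega

theorem five_c (k : ℕ) (hk : k ≤ 5 ^ (j + 1)) :
    5 * (five b j).c k = 2 ^ (b + sg j k) - 2 ^ (b + (sg j k - 4 * (k + 1))) := by
  have h1 : (5 : ℤ) ∣ 16 ^ (k + 1) - 1 := by simpa using (sixteen 0 (k + 1)).2 (by simp)
  have := sg_ge hk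
  simp only [five]
  rw [mul_left_comm, Int.mul_ediv_cancel' h1, mul_sub, mul_one, show (16 : ℤ) = 2 ^ 4 by norm_num,
    ← pow_mul, ← pow_add]
  congr 2; omega

theorem bw_spec {d : ℕ × ℤ} (hd : d ∈ (five b j).blocks) :
    (bw b j d).length = b + sg j d.1 ∧ ones (bw b j d) = j + 1 ∧
      5 * ((five b j).c d.1 - d.2) = 2 ^ (b + sg j d.1) - U (bw b j d) - 5 ^ (j + 1) := by
  obtain ⟨h1, h2, h3, h4⟩ := dec_spec hd
  have := sg_ge h1
  refine ⟨?_, ?_, ?_⟩
  · simp [bw, h2]; omega
  · simp [bw, ones_append, ones, ones_zeros, h3]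
  · rw [mul_sub, five_c _ h1]
    simp only [bw, U_append, U, ones, ones_zeros, U_zeros, List.length_append, List.length_replicate, h2]
    linear_combination (-5) * h4.symm

theorem Wd_spec {n : ℕ} : ∀ ω ∈ (five b j).words n,
    (five b j).A ω = 2 ^ (Wd b j ω).length ∧ ones (Wd b j ω) = (j + 1) * n ∧
      (Wd b j ω).length = (b + 4) * n + 4 * 5 ^ (j + 1) * Dat.cnt ω ∧
      5 * (five b j).O ω = 2 ^ (Wd b j ω).length - U (Wd b j ω) - 5 ^ ((j + 1) * n) := by
  induction n with
  | zero => intro ω hω; simp [Dat.words] at hω; simp [hω, Dat.A, Dat.O, Wd, ones, U, Dat.cnt]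
  | succ n ih =>
    intro ω hω
    obtain ⟨d, hd, ω', h1, rfl⟩ := (five b j).mem_words_succ.1 hω
    obtain ⟨a1, a2, a3, a4⟩ := ih ω' h1
    obtain ⟨b1, b2, b3⟩ := bw_spec hd
    refine ⟨?_, ?_, ?_, ?_⟩
    · simp only [Dat.A, Wd, List.length_append, a1, b1]
      simp only [five]; ring
    · simp only [Wd, ones_append, a2, b2]; ring
    · simp only [Wd, List.length_append, a3, b1, Dat.cnt, sg]
      split_ifs <;> ring
    · simp only [Dat.O, Wd, List.length_append, U_append, a1, b1, b2]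
      have hq : ((five b j).q : ℤ) = 5 ^ (j + 1) := by simp [five]
      rw [hq]
      linear_combination 2 ^ (Wd b j ω').length * b3 + 5 ^ (j + 1) * a4

theorem zeros_inj {a a' : ℕ} {x x' : List Bool}
    (h : List.replicate a false ++ true :: x = List.replicate a' false ++ true :: x') : a = a' := by
  induction a generalizing a' with
  | zero => cases a' <;> simp [List.replicate_succ] at h ⊢
  | succ a ih =>
    cases a' with
    | zero => simp [List.replicate_succ] at h
    | succ a' =>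
      simp only [List.replicate_succ, List.cons_append, List.cons.injEq, true_and] at h
      rw [ih h]

theorem Wd_inj {n : ℕ} : ∀ ω ∈ (five b j).words n, ∀ ω' ∈ (five b j).words n,
    Wd b j ω = Wd b j ω' → ω = ω' := by
  induction n with
  | zero => intro ω hω ω' hω' _; simp [Dat.words] at hω hω'; rw [hω, hω']
  | succ n ih =>
    intro ω hω ω' hω' h
    obtain ⟨d, hd, ω₁, h1, rfl⟩ := (five b j).mem_words_succ.1 hω
    obtain ⟨d', hd', ω₂, h2, rfl⟩ := (five b j).mem_words_succ.1 hω'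
    have hk : d.1 = d'.1 := by
      have := congrArg List.reverse h
      simp only [Wd, bw, List.reverse_append, List.reverse_cons, List.reverse_replicate,
        List.append_assoc, List.singleton_append] at this
      have := zeros_inj this
      omega
    obtain ⟨a1, a2⟩ := List.append_inj' h (by rw [(bw_spec hd).1, (bw_spec hd').1, hk])
    have a3 := (bw_spec hd).2.2
    have a4 := (bw_spec hd').2.2
    rw [a2, hk, ← a4] at a3
    rw [ih _ h1 _ h2 a1, Prod.ext hk (by omega : d.2 = d'.2)]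

theorem five_ok (h : 5 ^ (j + 1) < b.choose j) : (five b j).Ok := by
  have hq : ((five b j).q : ℤ) = 5 ^ (j + 1) := by simp [five]
  refine ⟨Nat.one_lt_pow (by omega) (by norm_num), fun D => hq_pow _ D, ?_, fun k => ?_, fun k => ?_,
    fun k hk => by simp [five, sg, hk], fun f hf x => ?_, ?_⟩
  · simp only [five]
    rw [card_image_of_injOn, card_tl]
    · exact h
    · intro u hu v hv huv
      have a := mem_tl (mem_coe.1 hu)
      have b := mem_tl (mem_coe.1 hv)
      exact U_inj (a.1.trans b.1.symm) (a.2.trans b.2.symm) (by simpa using huv)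
  · rw [hq]
    exact IsCoprime.pow (by norm_num [Int.isCoprime_iff_gcd_eq_one])
  · rw [hq]
    simp only [five, sg]
    split_ifs
    · simp
    · have := (sixteen (j + 1) (5 ^ (j + 1))).2 dvd_rfl
      have e : (2 : ℤ) ^ (b + (4 + 4 * 5 ^ (j + 1))) - 2 ^ (b + 4) = 2 ^ (b + 4) * (16 ^ 5 ^ (j + 1) - 1) := by
        rw [show (16 : ℤ) = 2 ^ 4 by norm_num, ← pow_mul]; ring
      rw [e]
      exact ((pow_dvd_pow 5 (by omega)).trans this).mul_left _
  · refine sum_inj (pow_pos (by norm_num) _) hf fun s hs t ht hd => ?_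
    have key : ∀ s t : ℕ, s < t → t < 5 ^ (j + 1) →
        ¬ (5 : ℤ) ^ (j + 1) ∣ (five b j).c (s + 1) - (five b j).c (t + 1) := by
      intro s t hst ht hd
      have h1 : (5 : ℤ) ^ (j + 1 + 1) ∣ 5 * (five b j).c (t + 1) - 5 * (five b j).c (s + 1) := by
        rw [← mul_sub, pow_succ', ← neg_sub]; exact mul_dvd_mul_left _ hd.neg_right
      rw [five_c _ (by omega), five_c _ (by omega)] at h1
      simp only [sg, Nat.succ_ne_zero, if_false] at h1
      have e : (2 : ℤ) ^ (b + (4 + 4 * 5 ^ (j + 1))) - 2 ^ (b + (4 + 4 * 5 ^ (j + 1) - 4 * (t + 1 + 1))) -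
          (2 ^ (b + (4 + 4 * 5 ^ (j + 1))) - 2 ^ (b + (4 + 4 * 5 ^ (j + 1) - 4 * (s + 1 + 1)))) =
          2 ^ (b + (4 + 4 * 5 ^ (j + 1) - 4 * (t + 1 + 1))) * (16 ^ (t - s) - 1) := by
        rw [show (16 : ℤ) = 2 ^ 4 by norm_num, ← pow_mul, mul_sub, ← pow_add,
          show b + (4 + 4 * 5 ^ (j + 1) - 4 * (t + 1 + 1)) + 4 * (t - s) =
            b + (4 + 4 * 5 ^ (j + 1) - 4 * (s + 1 + 1)) by omega]
        ring
      rw [e] at h1
      have h2 := (sixteen (j + 1) (t - s)).1 ((IsCoprime.pow (x := 5) (y := 2)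
        (by norm_num [Int.isCoprime_iff_gcd_eq_one])).dvd_of_dvd_mul_left h1)
      have := Nat.le_of_dvd (by omega) h2
      omega
    rw [add_sub_add_left_eq_sub] at hd
    push_cast at hd
    rcases lt_trichotomy s t with h1 | h1 | h1
    · exact absurd hd (key s t h1 ht)
    · exact h1
    · exact absurd (by rw [← neg_sub]; exact hd.neg_right) (key t s h1 hs)
  · refine ⟨b + 4 + 4 * 5 ^ (j + 1), by omega, fun n ω hω ω' hω' hA hd => ?_⟩
    obtain ⟨a1, a2, a3, a4⟩ := Wd_spec ω hω
    obtain ⟨b1, b2, _, b4⟩ := Wd_spec ω' hω'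
    have hl : (Wd b j ω).length = (Wd b j ω').length := by
      rw [a1, b1] at hA
      exact pow_right_injective₀ (by norm_num) (by norm_num) hA
    refine Wd_inj ω hω ω' hω' (U_inj hl (a2.trans b2.symm) ?_)
    have h1 := hd.mul_left 5
    rw [mul_sub, a4, b4, ← hl] at h1
    have u1 := U_bounds (Wd b j ω)
    have u2 := U_bounds (Wd b j ω')
    rw [← hl, b2] at u2
    rw [a2] at u1
    have h2 : (2 : ℤ) ^ (Wd b j ω).length * 5 ^ ((j + 1) * n) ≤
        (((five b j).q ^ (n + (b + 4 + 4 * 5 ^ (j + 1)) * n) : ℕ) : ℤ) := by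
      push_cast
      rw [hq, pow_add, ← pow_mul, mul_comm]
      refine mul_le_mul_of_nonneg_left ?_ (by positivity)
      have h3 : (Wd b j ω).length ≤ (b + 4 + 4 * 5 ^ (j + 1)) * n := by
        rw [a3, add_mul (b + 4)]
        exact Nat.add_le_add_left (Nat.mul_le_mul_left _ (Dat.cnt_le ω hω)) _
      refine (pow_le_pow_right₀ (by norm_num) h3).trans (pow_le_pow_left₀ (by norm_num) ?_ _)
      exact le_trans (by norm_num) (pow_le_pow_right₀ (by norm_num : (1 : ℤ) ≤ 5) (by omega : 1 ≤ j + 1))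
    have := Int.eq_zero_of_abs_lt_dvd h1 (by rw [abs_lt]; constructor <;> linarith [u1.1, u1.2, u2.1, u2.2])
    linarith

/-- words of a given density of ones valid for the root `16` -/
theorem exists_word (h : 5 ^ (j + 1) < b.choose j) (n₀ : ℕ) : ∃ n ≥ n₀, ∃ u : List Bool, ∃ M : ℤ,
    ones u = (j + 1) * n ∧ n ≤ u.length ∧ u.length ≤ (b + 5) * n ∧
      5 ^ ones u * M = 2 ^ u.length * 16 - U u := by
  obtain ⟨n, hn, ω, hω, ⟨z, hz⟩, hc⟩ := (five_ok h).main (α := 1 / (4 * 5 ^ (j + 1))) (by positivity) 3 n₀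
  obtain ⟨a1, a2, a3, a4⟩ := Wd_spec ω hω
  refine ⟨n, hn, Wd b j ω, 1 + 5 * z, a2, by
    rw [a3]; exact le_trans (Nat.le_mul_of_pos_left n (by omega)) (Nat.le_add_right _ _), ?_, ?_⟩
  · rw [div_mul_eq_mul_div, le_div_iff₀ (by positivity), one_mul] at hc
    have : Dat.cnt ω * (4 * 5 ^ (j + 1)) ≤ n := by exact_mod_cast hc
    rw [a3]; nlinarith
  · have hq : (((five b j).q ^ n : ℕ) : ℤ) = 5 ^ ((j + 1) * n) := by simp [five, pow_mul]
    rw [hq, a1] at hz
    rw [a2]
    linear_combination (-5) * hz + a4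

theorem exists_block {x ε : ℝ} (hx0 : 0 < x) (hx1 : x < 1) (hg : x * Real.log 5 < Real.binEntropy x)
    (hε : 0 < ε) (b₀ : ℕ) : ∃ b ≥ b₀, ∃ j : ℕ, (x - ε) * b ≤ j ∧ 5 ^ (j + 1) < b.choose j := by
  set K := |Real.log 5 + Real.log x - Real.log (1 - x)| + 1 with hK
  have hK0 : 0 < K := by positivity
  set c := Real.binEntropy x - x * Real.log 5 with hc
  have hc0 : 0 < c := by linarith
  set η := min ε (c / (2 * K)) with hη
  have hη0 : 0 < η := lt_min hε (by positivity)
  have hη1 : η ≤ ε := min_le_left _ _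
  have hη2 : η * K ≤ c / 2 := by
    have := min_le_right ε (c / (2 * K))
    rw [← hη, le_div_iff₀ (by positivity)] at this
    linarith
  obtain ⟨n₁, hn₁⟩ := poly_le_exp 20 1 (half_pos hc0)
  obtain ⟨n₂, hn₂⟩ := exists_nat_ge (2 / η ^ 2)
  set b := b₀ + n₁ + n₂ + 1 with hb
  have hb0 : (0 : ℝ) < b := by rw [hb]; positivity
  refine ⟨b, by omega, ?_⟩
  by_contra hcon
  push Not at hcon
  set X : unitInterval := ⟨x, hx0.le, hx1.le⟩ with hX
  have h1 := bernstein.probability b X
  have h2 := bernstein.variance (n := b) (by omega) X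
  have h3 : ∀ k : Fin (b + 1), bernstein b k X ≤
      (x - (bernstein.z k : ℝ)) ^ 2 * bernstein b k X / η ^ 2 + 5 * Real.exp (-(c / 2 * b)) := by
    intro k
    have hB : 0 ≤ bernstein b k X := bernstein_nonneg
    by_cases hk : η ^ 2 ≤ (x - (bernstein.z k : ℝ)) ^ 2
    · refine le_add_of_le_of_nonneg ?_ (by positivity)
      rw [le_div_iff₀ (by positivity), mul_comm]
      exact mul_le_mul_of_nonneg_right hk hB
    refine le_add_of_nonneg_of_le (by positivity) ?_
    have hk2 : |x - (k : ℝ) / b| ≤ η := abs_le_of_sq_le_sq' (not_le.1 hk).le hη0.le |> abs_le.2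
    have hk3 : |(k : ℝ) - x * b| ≤ η * b := by
      rw [show (k : ℝ) - x * b = -(x - (k : ℝ) / b) * b by field_simp; ring, abs_mul, abs_neg,
        abs_of_pos hb0]
      exact mul_le_mul_of_nonneg_right hk2 hb0.le
    have hk4 := hcon k (by nlinarith [(abs_le.1 hk3).1])
    have hk5 : ((b.choose k : ℕ) : ℝ) ≤ 5 ^ ((k : ℕ) + 1) := by exact_mod_cast hk4
    have h1x : 0 < 1 - x := by linarith
    rw [bernstein_apply]
    refine (mul_le_mul_of_nonneg_right (mul_le_mul_of_nonneg_right hk5 (by positivity))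
      (pow_nonneg h1x.le _)).trans ?_
    have e : (5 : ℝ) ^ ((k : ℕ) + 1) * x ^ (k : ℕ) * (1 - x) ^ (b - k) = 5 * Real.exp (k * Real.log 5 +
        k * Real.log x + ((b - k : ℕ) : ℝ) * Real.log (1 - x)) := by
      rw [Real.exp_add, Real.exp_add, Real.exp_nat_mul, Real.exp_nat_mul, Real.exp_nat_mul,
        Real.exp_log (by norm_num), Real.exp_log hx0, Real.exp_log h1x]
      ring
    refine (le_of_eq e).trans (mul_le_mul_of_nonneg_left (Real.exp_le_exp.2 ?_) (by norm_num))
    rw [Nat.cast_sub k.is_le]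
    have e2 : (k : ℝ) * Real.log 5 + k * Real.log x + (b - k) * Real.log (1 - x) =
        -(c * b) + (k - x * b) * (Real.log 5 + Real.log x - Real.log (1 - x)) := by
      rw [hc, Real.binEntropy_eq_negMulLog_add_negMulLog_one_sub, Real.negMulLog, Real.negMulLog]; ring
    have e3 := le_abs_self ((k - x * b) * (Real.log 5 + Real.log x - Real.log (1 - x)))
    rw [abs_mul] at e3
    have e4 : |(k : ℝ) - x * b| * |Real.log 5 + Real.log x - Real.log (1 - x)| ≤ η * b * K :=
      mul_le_mul hk3 (by linarith) (abs_nonneg _) (by positivity)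
    nlinarith
  have h4 := sum_le_sum fun k (_ : k ∈ (univ : Finset (Fin (b + 1)))) => h3 k
  rw [h1, sum_add_distrib, ← sum_div, show x = (X : ℝ) from rfl, h2, sum_const, card_univ,
    Fintype.card_fin, nsmul_eq_mul] at h4
  have h5 : (X : ℝ) * (1 - X) / b / η ^ 2 ≤ 1 / 2 := by
    rw [div_le_iff₀ (by positivity)] at hn₂
    have : (n₂ : ℝ) ≤ b := by exact_mod_cast (by omega : n₂ ≤ b)
    rw [div_div, div_le_iff₀ (by positivity)]
    show x * (1 - x) ≤ _
    nlinarith [mul_le_mul_of_nonneg_right this (sq_nonneg η)]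
  have h6 := hn₁ b (by omega)
  have h7 := mul_le_mul_of_nonneg_right h6 (Real.exp_pos (-(c / 2 * b))).le
  rw [← Real.exp_add, add_neg_cancel, Real.exp_zero] at h7
  push_cast at h4
  linarith

end Pool.Agent.Lib.MP_0baeaf_nt.H
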