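import Mathlib
import Pool.Agent.Lib.MP_0baeaf_nt.Check

/-! Soundness of the Boolean test: every unit class has a cheap inverse odd step. -/

namespace Pool.Agent.Lib.MP_0baeaf_nt

theorem cnd_true (a : Bool) (b : Bool) : cnd true a b = a := rfl
theorem cnd_false (a : Bool) (b : Bool) : cnd false a b = b := rfl

theorem cnd_and {c a : Bool} (h : cnd c a false = true) : c = true ∧ a = true := by
  cases c
  · simp [cnd_false] at h
  · exact ⟨rfl, h⟩

theorem cnd_or {c a : Bool} (h : cnd c true a = true) : c = true ∨ a = true := by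
  cases c
  · exact Or.inr h
  · exact Or.inl rfl

/-- `Good B x c`: the class of `x / 5` is a unit and its cost is at most `B`. -/
def Good (B x c : ℕ) : Prop := x / 5 % 5 ≠ 0 ∧ c + psi (x / 5 % 390625) ≤ B

theorem ok1_sound {B x c : ℕ} (h : ok1 B x c = true) : Good B x c := by
  unfold ok1 ok0 at h
  change cnd (Nat.beq (x / 5 % 390625 % 5) 0) false (Nat.ble (c + psi (x / 5 % 390625)) B) = true at h
  cases hb : Nat.beq (x / 5 % 390625 % 5) 0
  · rw [hb, cnd_false] at h
    refine ⟨?_, Nat.le_of_ble_eq_true h⟩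
    have := Nat.ne_of_beq_eq_false hb
    omega
  · rw [hb, cnd_true] at h
    exact absurd h (by simp)

theorem ok4_sound {B x c : ℕ} (h : ok4 B x c = true) :
    ∃ i : ℕ, Good B (2 ^ (4 * i) * x) (c + 15 * (4 * i)) := by
  unfold ok4 at h
  rcases cnd_or h with h | h
  · exact ⟨0, by simpa using ok1_sound h⟩
  rcases cnd_or h with h | h
  · exact ⟨1, ok1_sound h⟩
  rcases cnd_or h with h | h
  · exact ⟨2, ok1_sound h⟩
  · exact ⟨3, ok1_sound h⟩

theorem ok5_sound {b m c : ℕ} (h : ok5 b m c = true) (t : ℕ) (ht : t < 5) :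
    ∃ i : ℕ, Good (psi b + 56) (2 ^ (4 * i) * (m * (b + 390625 * t))) (c + 15 * (4 * i)) := by
  unfold ok5 at h
  obtain ⟨h0, h⟩ := cnd_and h
  obtain ⟨h1, h⟩ := cnd_and h
  obtain ⟨h2, h⟩ := cnd_and h
  obtain ⟨h3, h4⟩ := cnd_and h
  interval_cases t
  · exact ok4_sound h0
  · exact ok4_sound h1
  · exact ok4_sound h2
  · exact ok4_sound h3
  · exact ok4_sound h4

theorem allQ_sound (d : ℕ) : ∀ s, allQ d s = true → ∀ q, q / 5 ^ d = s → okQ q = true := by
  induction d with
  | zero =>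
    intro s h q hq
    have : q = s := by simpa using hq
    subst this
    exact h
  | succ d ih =>
    intro s h q hq
    change cnd (allQ d (5 * s)) (cnd (allQ d (5 * s + 1)) (cnd (allQ d (5 * s + 2))
      (cnd (allQ d (5 * s + 3)) (allQ d (5 * s + 4)) false) false) false) false = true at h
    obtain ⟨h0, h⟩ := cnd_and h
    obtain ⟨h1, h⟩ := cnd_and h
    obtain ⟨h2, h⟩ := cnd_and h
    obtain ⟨h3, h4⟩ := cnd_and h
    rw [pow_succ, ← Nat.div_div_eq_div_mul] at hq
    have hc : q / 5 ^ d = 5 * s ∨ q / 5 ^ d = 5 * s + 1 ∨ q / 5 ^ d = 5 * s + 2 ∨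
        q / 5 ^ d = 5 * s + 3 ∨ q / 5 ^ d = 5 * s + 4 := by omega
    rcases hc with hc | hc | hc | hc | hc
    · exact ih _ h0 q hc
    · exact ih _ h1 q hc
    · exact ih _ h2 q hc
    · exact ih _ h3 q hc
    · exact ih _ h4 q hc

/-- `Good` only depends on `x` modulo `5^9`. -/
theorem Good.of_modEq {B x y c : ℕ} (h : Good B x c) (hxy : x ≡ y [MOD 1953125]) : Good B y c := by
  unfold Good at h ⊢
  unfold Nat.ModEq at hxy
  have e : y / 5 % 390625 = x / 5 % 390625 := by omega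
  refine ⟨by omega, ?_⟩
  rw [e]
  exact h.2

theorem step_of_okQ (hall : ∀ q < 78125, okQ q = true) (n : ℕ) (hn : n % 5 ≠ 0) :
    ∃ s : ℕ, 1 ≤ s ∧ (2 ^ s * n) % 5 = 1 ∧ Good (psi (n % 390625) + 56) (2 ^ s * n) (15 * s) := by
  set b := n % 390625 with hb
  set t := n / 390625 % 5 with ht
  have hmod : b + 390625 * t ≡ n [MOD 1953125] := by
    unfold Nat.ModEq
    omega
  have hq := hall (b / 5) (by omega)
  unfold okQ at hq
  obtain ⟨h1, hq⟩ := cnd_and hq
  obtain ⟨h2, hq⟩ := cnd_and hq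
  obtain ⟨h3, h4⟩ := cnd_and hq
  have h16 : ∀ i : ℕ, 2 ^ (4 * i) % 5 = 1 := by
    intro i
    rw [pow_mul, Nat.pow_mod]
    simp
  have key : ∀ e : ℕ, 1 ≤ e → (2 ^ e * n) % 5 = 1 → ok5 b (2 ^ e) (15 * e) = true →
      ∃ s : ℕ, 1 ≤ s ∧ (2 ^ s * n) % 5 = 1 ∧ Good (psi b + 56) (2 ^ s * n) (15 * s) := by
    intro e he h5 hok
    obtain ⟨i, hi⟩ := ok5_sound hok t (by omega)
    refine ⟨4 * i + e, by omega, ?_, ?_⟩
    · rw [pow_add, mul_assoc, Nat.mul_mod, h16, h5]
    · have e1 : 15 * e + 15 * (4 * i) = 15 * (4 * i + e) := by ring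
      rw [e1] at hi
      refine hi.of_modEq ?_
      rw [pow_add, mul_assoc]
      exact (hmod.mul_left _).mul_left _
  have hc : n % 5 = 1 ∨ n % 5 = 2 ∨ n % 5 = 3 ∨ n % 5 = 4 := by omega
  rcases hc with hc | hc | hc | hc
  · refine key 4 (by norm_num) (by omega) ?_
    have : b = 5 * (b / 5) + 1 := by omega
    rw [this]
    exact h1
  · refine key 3 (by norm_num) (by omega) ?_
    have : b = 5 * (b / 5) + 2 := by omega
    rw [this]
    exact h2
  · refine key 1 (by norm_num) (by omega) ?_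
    have : b = 5 * (b / 5) + 3 := by omega
    rw [this]
    exact h3
  · refine key 2 (by norm_num) (by omega) ?_
    have : b = 5 * (b / 5) + 4 := by omega
    rw [this]
    exact h4

end Pool.Agent.Lib.MP_0baeaf_nt
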